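import Mathlib
import Pool.Agent.Q11.CZ.Art

/-!
# Kernels attached to half-systems
-/

set_option autoImplicit false

open scoped Classical

namespace Pool.Agent.Helper606_CZ

open Pool.Agent.Q11.CZ

variable {G : Type*} [Group G] [Fintype G] {c : G}
variable {X : Type*} [Fintype X] [MulAction G X]

/-- the sign vector of a subset -/
noncomputable def sg (Φ : Finset X) (x : X) : ℚ := if x ∈ Φ then 1 else -1

omit [Fintype G] [Fintype X] in
lemma sg_c {Φ : Finset X} (hΦ : IsHalf c Φ) (x : X) : sg Φ (c • x) = - sg Φ x := by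
  unfold sg
  have := hΦ x
  by_cases h : x ∈ Φ
  · rw [if_pos h, if_neg (by tauto)]
  · rw [if_neg h, if_pos (by tauto)]; norm_num

omit [Fintype X] in
lemma sg_sq (Φ : Finset X) (x : X) : sg Φ x * sg Φ x = 1 := by
  unfold sg; split_ifs <;> norm_num

omit [Fintype G] in
lemma sum_odd {R : Type*} [Ring R] [NoZeroDivisors R] [CharZero R] (f : X → R)
    (hf : ∀ x, f (c • x) = - f x) : ∑ x, f x = 0 := by
  have h : ∑ x, f x = - ∑ x, f x := by
    conv_lhs => rw [← Equiv.sum_comp (MulAction.toPerm c) f]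
    simp only [MulAction.toPerm_apply, hf, Finset.sum_neg_distrib]
  exact self_eq_neg.mp h

/-- the trace of the product with `g` -/
def tr {R : Type*} [AddCommMonoid R] (A : X → X → R) (g : G) : R := ∑ x, A x (g • x)

omit [Fintype G] in
lemma R_formula {Φ : Finset X} (hΦ : IsHalf c Φ) (g : G) :
    R Φ g = ((Fintype.card X : ℚ) + ∑ x, sg Φ x * sg Φ (g • x)) / 4 := by
  have h1 : (R Φ g : ℚ) = ∑ x : X, (1 + sg Φ x) / 2 * ((1 + sg Φ (g • x)) / 2) := by
    unfold R
    rw [Finset.card_filter]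
    push_cast
    rw [← Finset.sum_subset (Finset.subset_univ Φ)]
    · refine Finset.sum_congr rfl (fun x hx => ?_)
      unfold sg
      rw [if_pos hx]
      split_ifs <;> norm_num
    · intro x _ hx
      unfold sg
      rw [if_neg hx]
      norm_num
  have h2 : ∑ x, sg Φ x = 0 := sum_odd (c := c) _ (sg_c hΦ)
  have h3 : ∑ x, sg Φ (g • x) = 0 := by
    rw [← h2]
    exact Equiv.sum_comp (MulAction.toPerm g) (sg Φ)
  rw [h1]
  have h4 : ∀ x : X, (1 + sg Φ x) / 2 * ((1 + sg Φ (g • x)) / 2) =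
      (1 + sg Φ x + sg Φ (g • x) + sg Φ x * sg Φ (g • x)) / 4 := fun x => by ring
  rw [Finset.sum_congr rfl (fun x _ => h4 x), ← Finset.sum_div, Finset.sum_add_distrib,
    Finset.sum_add_distrib, Finset.sum_add_distrib, h2, h3]
  simp

variable (G) in
/-- the average of the product of the signs -/
noncomputable def Mk (Φ : Finset X) (x y : X) : ℚ :=
  (∑ h : G, sg Φ (h • x) * sg Φ (h • y)) / Fintype.card G

omit [Fintype X] in
lemma mk_smul (Φ : Finset X) (g : G) (x y : X) : Mk G Φ (g • x) (g • y) = Mk G Φ x y := by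
  unfold Mk
  congr 1
  refine Fintype.sum_equiv (Equiv.mulRight g) _ _ (fun h => ?_)
  simp [mul_smul]

omit [Fintype X] in
lemma mk_symm (Φ : Finset X) (x y : X) : Mk G Φ x y = Mk G Φ y x := by
  unfold Mk
  congr 1
  exact Finset.sum_congr rfl (fun h _ => mul_comm _ _)

omit [Fintype X] in
lemma mk_self (Φ : Finset X) (x : X) : Mk G Φ x x = 1 := by
  unfold Mk
  simp only [sg_sq, Finset.sum_const, Finset.card_univ, nsmul_eq_mul, mul_one]
  exact div_self card_ne

omit [Fintype X] in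
lemma mk_c (hc : ∀ g, c * g = g * c) {Φ : Finset X} (hΦ : IsHalf c Φ) (x y : X) :
    Mk G Φ x (c • y) = - Mk G Φ x y := by
  unfold Mk
  rw [← neg_div, ← Finset.sum_neg_distrib]
  congr 1
  refine Finset.sum_congr rfl (fun h _ => ?_)
  rw [← mul_smul, ← hc, mul_smul, sg_c hΦ]
  ring

omit [Fintype X] in
lemma mk_c' (hc : ∀ g, c * g = g * c) {Φ : Finset X} (hΦ : IsHalf c Φ) (x y : X) :
    Mk G Φ (c • x) y = - Mk G Φ x y := by
  rw [mk_symm, mk_c hc hΦ, mk_symm]

lemma T_formula {Φ : Finset X} (hΦ : IsHalf c Φ) (g : G) :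
    T Φ g = ((Fintype.card X : ℚ) + tr (Mk G Φ) g) / 4 := by
  rw [T_eq_cav]
  unfold cav
  have h1 : ∀ h : G, R Φ (h⁻¹ * g * h) =
      ((Fintype.card X : ℚ) + ∑ x, sg Φ (h⁻¹ • x) * sg Φ (h⁻¹ • (g • x))) / 4 := by
    intro h
    rw [R_formula hΦ]
    congr 2
    refine Fintype.sum_equiv (MulAction.toPerm h) _ _ (fun x => ?_)
    simp [mul_smul]
  rw [Finset.sum_congr rfl (fun h _ => h1 h), ← Finset.sum_div, Finset.sum_add_distrib]
  have h2 : (∑ h : G, ∑ x : X, sg Φ (h⁻¹ • x) * sg Φ (h⁻¹ • (g • x))) =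
      Fintype.card G * tr (Mk G Φ) g := by
    rw [Finset.sum_comm]
    unfold tr
    rw [Finset.mul_sum]
    refine Finset.sum_congr rfl (fun x _ => ?_)
    unfold Mk
    rw [mul_div_cancel₀ _ card_ne]
    exact Equiv.sum_comp (Equiv.inv G) (fun h => sg Φ (h • x) * sg Φ (h • (g • x)))
  rw [h2, Finset.sum_const, Finset.card_univ, nsmul_eq_mul]
  have h3 := card_ne (G := G)
  field_simp

variable (c) in
/-- the identity kernel on odd functions -/
noncomputable def io (x y : X) : ℤ := (if y = x then 1 else 0) - (if y = c • x then 1 else 0)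

omit [Fintype G] in
lemma tr_io (hc2 : c * c = 1) (g : G) : ((tr (io c : X → X → ℤ) g : ℤ) : ℚ) = fix X g - fix X (c * g) := by
  unfold tr io fix
  push_cast
  rw [Finset.sum_sub_distrib, Finset.sum_boole, Finset.sum_boole]
  congr 3
  ext x
  simp only [Finset.mem_filter, Finset.mem_univ, true_and, mul_smul]
  constructor
  · intro h; rw [h, smul_smul_c hc2]
  · intro h
    conv_rhs => rw [← h]
    rw [smul_smul_c hc2]

lemma tr_io_zpowers (hc : ∀ g, c * g = g * c) (hc2 : c * c = 1) {g g' : G}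
    (h : Subgroup.zpowers g = Subgroup.zpowers g') :
    tr (io c : X → X → ℤ) g = tr (io c : X → X → ℤ) g' := by
  have h1 := tr_io (X := X) hc2 g
  have h2 := tr_io (X := X) hc2 g'
  rw [fix_eq_of_zpowers h, fix_eq_of_zpowers (zpowers_c hc hc2 h)] at h1
  have : ((tr (io c : X → X → ℤ) g : ℤ) : ℚ) = ((tr (io c : X → X → ℤ) g' : ℤ) : ℚ) := by
    rw [h1, h2]
  exact_mod_cast this

end Pool.Agent.Helper606_CZ
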