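import Mathlib
import Pool.Agent.Helper606_CZ.K1
import Pool.Agent.W77.Nonres

/-!
# Invariant integral kernels and Frobenius congruences
-/

set_option autoImplicit false

open scoped Classical

namespace Pool.Agent.Helper606_CZ

open Pool.Agent.Q11.CZ

variable {G : Type*} [Group G] [Fintype G] {c : G}
variable {X : Type*} [Fintype X] [MulAction G X]

variable (G) in
/-- invariant kernels -/
def Inv {R : Type*} (A : X → X → R) : Prop := ∀ (g : G) (x y : X), A (g • x) (g • y) = A x y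

/-- the product of a kernel with `g` -/
def NN (A : Matrix X X ℤ) (g : G) : Matrix X X ℤ := Matrix.of fun x y => A x (g • y)

omit [Fintype G] in
lemma NN_mul (A B : Matrix X X ℤ) (hB : Inv G B) (g h : G) :
    NN A g * NN B h = NN (A * B) (g * h) := by
  ext x z
  simp only [NN, Matrix.mul_apply, Matrix.of_apply]
  rw [← Equiv.sum_comp (MulAction.toPerm g) (fun y => A x y * B y ((g * h) • z))]
  refine Finset.sum_congr rfl (fun y _ => ?_)
  simp only [MulAction.toPerm_apply]
  rw [mul_smul, hB]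

omit [Fintype G] in
lemma inv_mul {A B : Matrix X X ℤ} (hA : Inv G A) (hB : Inv G B) : Inv G (A * B) := by
  intro g x z
  simp only [Matrix.mul_apply]
  rw [← Equiv.sum_comp (MulAction.toPerm g) (fun y => A (g • x) y * B y (g • z))]
  refine Finset.sum_congr rfl (fun y _ => ?_)
  simp only [MulAction.toPerm_apply]
  rw [hA, hB]

omit [Fintype G] in
lemma NN_pow {A : Matrix X X ℤ} (hA : Inv G A) (g : G) (k : ℕ) :
    NN A g ^ (k + 1) = NN (A ^ (k + 1)) (g ^ (k + 1)) := by
  induction k with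
  | zero => simp
  | succ k ih =>
    rw [pow_succ, ih, NN_mul _ _ hA, ← pow_succ, ← pow_succ]

omit [Fintype G] in
lemma trace_NN (A : Matrix X X ℤ) (g : G) : (NN A g).trace = tr (fun x y => A x y) g := rfl

lemma frob (M : Matrix X X ℤ) (p : ℕ) [Fact p.Prime] :
    (((M ^ p).trace : ℤ) : ZMod p) = ((M.trace : ℤ) : ZMod p) := by
  have h1 : ∀ A : Matrix X X ℤ, ((A.trace : ℤ) : ZMod p) =
      (A.map (Int.castRingHom (ZMod p))).trace := by
    intro A
    simp [Matrix.trace]
  rw [h1, h1, ← ZMod.pow_card (Matrix.trace (M.map (Int.castRingHom (ZMod p)))),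
    ← ZMod.trace_pow_card, Matrix.map_pow]

lemma eq_of_zmod {a b : ℤ} {p : ℕ} (h : ((a : ℤ) : ZMod p) = ((b : ℤ) : ZMod p))
    (hp : |a| + |b| < p) : a = b := by
  have h1 : ((a - b : ℤ) : ZMod p) = 0 := by push_cast; rw [h]; ring
  rw [ZMod.intCast_zmod_eq_zero_iff_dvd] at h1
  have h2 : |a - b| < p := lt_of_le_of_lt (abs_sub a b) hp
  have h3 := Int.eq_zero_of_abs_lt_dvd h1 h2
  linarith

omit [Fintype G] in
lemma pow_idem {A : Matrix X X ℤ} {D : ℤ} (h : A * A = D • A) (k : ℕ) :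
    A ^ (k + 1) = D ^ k • A := by
  induction k with
  | zero => simp
  | succ k ih => rw [pow_succ, ih, smul_mul_assoc, h, smul_smul, ← pow_succ]

/-- Frobenius for idempotent kernels -/
theorem zinv_of_idem {A : Matrix X X ℤ} (hA : Inv G A) {D : ℤ} (hD : D ≠ 0)
    (h : A * A = D • A) {g g' : G} (hg : Subgroup.zpowers g = Subgroup.zpowers g') :
    tr (fun x y => A x y) g = tr (fun x y => A x y) g' := by
  have h1 : g' ∈ Subgroup.zpowers g := hg ▸ Subgroup.mem_zpowers g'
  obtain ⟨j, hj⟩ := (isOfFinOrder_of_finite g).mem_powers_iff_mem_zpowers.mpr h1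
  simp only at hj
  have h2 : orderOf g' = orderOf g := by
    rw [← Nat.card_zpowers, ← Nat.card_zpowers, hg]
  have h3 : j.Coprime (orderOf g) := by
    rw [← hj, orderOf_pow] at h2
    have h4 : 0 < orderOf g := orderOf_pos g
    have h5 := Nat.div_mul_cancel (Nat.gcd_dvd_left (orderOf g) j)
    rw [h2] at h5
    have h6 : (orderOf g).gcd j = 1 := by
      have : orderOf g * (orderOf g).gcd j = orderOf g * 1 := by rw [h5, mul_one]
      exact Nat.eq_of_mul_eq_mul_left h4 this
    exact Nat.coprime_comm.mp h6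
  obtain ⟨p, hp1, hp2, hp3⟩ := Nat.forall_exists_prime_gt_and_modEq
    (D.natAbs + (tr (fun x y => A x y) g).natAbs + (tr (fun x y => A x y) g').natAbs)
    (orderOf_pos g).ne' h3
  have : Fact p.Prime := ⟨hp2⟩
  have h7 : g ^ p = g' := by
    rw [← hj]
    exact pow_eq_pow_iff_modEq.mpr hp3
  obtain ⟨k, rfl⟩ : ∃ k, p = k + 1 := ⟨p - 1, by have := hp2.pos; omega⟩
  have h8 := frob (NN A g) (k + 1)
  rw [NN_pow hA, h7, pow_idem h k] at h8
  have h9 : (NN (D ^ k • A) g').trace = D ^ k * tr (fun x y => A x y) g' := by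
    simp only [Matrix.trace, Matrix.diag, NN, Matrix.of_apply, Matrix.smul_apply, smul_eq_mul, tr,
      Finset.mul_sum]
  have hDp : ((D : ℤ) : ZMod (k + 1)) ≠ 0 := by
    intro h0
    rw [ZMod.intCast_zmod_eq_zero_iff_dvd] at h0
    have := Int.natAbs_dvd_natAbs.mpr h0
    rw [Int.natAbs_natCast] at this
    have := Nat.le_of_dvd (Int.natAbs_pos.mpr hD) this
    omega
  rw [h9, trace_NN] at h8
  push_cast at h8
  have h10 : ((D : ℤ) : ZMod (k + 1)) ^ k = 1 := by
    have := ZMod.pow_card_sub_one_eq_one hDp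
    simpa using this
  rw [h10, one_mul] at h8
  refine (eq_of_zmod h8 ?_).symm
  have e1 := Int.natCast_natAbs (tr (fun x y => A x y) g)
  have e2 := Int.natCast_natAbs (tr (fun x y => A x y) g')
  rw [← e1, ← e2]
  have : (tr (fun x y => A x y) g').natAbs + (tr (fun x y => A x y) g).natAbs < k + 1 := by omega
  exact_mod_cast this

omit [Fintype G] in
lemma pow_cube {A : Matrix X X ℤ} {D : ℤ} (h : A * A * A = D • A) (k : ℕ) :
    A ^ (2 * k + 1) = D ^ k • A := by
  induction k with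
  | zero => simp
  | succ k ih =>
    have : A ^ (2 * (k + 1) + 1) = A ^ (2 * k + 1) * (A * A) := by
      rw [show 2 * (k + 1) + 1 = (2 * k + 1) + 2 by ring, pow_add, pow_two]
    rw [this, ih, smul_mul_assoc, ← mul_assoc, h, smul_smul, ← pow_succ]

/-- Frobenius for kernels with a quadratic irrationality: there are arbitrarily large primes `p`
for which the trace changes its sign. -/
theorem neg_of_cube {A : Matrix X X ℤ} (hA : Inv G A) {Δ : ℤ} (hΔ : ¬ IsSquare Δ)
    (h : A * A * A = (4 * Δ) • A) (B : ℕ) : ∃ p : ℕ, B < p ∧ p.Prime ∧ ∀ g : G,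
      tr (fun x y => A x y) (g ^ p) = - tr (fun x y => A x y) g := by
  obtain ⟨p, hp1, hp2, hp3⟩ := Pool.Agent.W77.infinite_nonres Δ hΔ
    (B + 2 + 2 * ∑ g : G, (tr (fun x y => A x y) g).natAbs)
  refine ⟨p, by omega, hp2, fun g => ?_⟩
  have : Fact p.Prime := ⟨hp2⟩
  have hodd : p % 2 = 1 := by
    rcases hp2.eq_two_or_odd with h2 | h2
    · omega
    · exact h2
  obtain ⟨k, rfl⟩ : ∃ k, p = 2 * k + 1 := ⟨p / 2, by omega⟩
  have h8 := frob (NN A g) (2 * k + 1)
  rw [NN_pow hA g (2 * k), pow_cube h k] at h8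
  have h9 : (NN ((4 * Δ) ^ k • A) (g ^ (2 * k + 1))).trace =
      (4 * Δ) ^ k * tr (fun x y => A x y) (g ^ (2 * k + 1)) := by
    simp only [Matrix.trace, Matrix.diag, NN, Matrix.of_apply, Matrix.smul_apply, smul_eq_mul, tr,
      Finset.mul_sum]
  rw [h9, trace_NN] at h8
  push_cast at h8
  have h20 : (2 : ZMod (2 * k + 1)) ≠ 0 := by
    intro h0
    have h1 : ((2 : ℕ) : ZMod (2 * k + 1)) = 0 := by exact_mod_cast h0
    rw [ZMod.natCast_eq_zero_iff] at h1
    have := Nat.le_of_dvd (by norm_num) h1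
    omega
  have h4 : ¬ IsSquare ((4 : ZMod (2 * k + 1)) * ((Δ : ℤ) : ZMod (2 * k + 1))) := by
    rintro ⟨r, hr⟩
    apply hp3
    refine ⟨r / 2, ?_⟩
    field_simp
    linear_combination hr
  have h5 : ((4 : ZMod (2 * k + 1)) * ((Δ : ℤ) : ZMod (2 * k + 1))) ≠ 0 := by
    intro h0
    exact h4 ⟨0, by rw [h0]; ring⟩
  have h6 : ((4 : ZMod (2 * k + 1)) * ((Δ : ℤ) : ZMod (2 * k + 1))) ^ k = -1 := by
    have hk : (2 * k + 1) / 2 = k := by omega
    rcases ZMod.pow_div_two_eq_neg_one_or_one (2 * k + 1) h5 with h | h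
    · exact absurd ((ZMod.euler_criterion (2 * k + 1) h5).mpr h) h4
    · rw [hk] at h; exact h
  rw [h6] at h8
  have h10 : (((tr (fun x y => A x y) (g ^ (2 * k + 1)) : ℤ)) : ZMod (2 * k + 1)) =
      (((- tr (fun x y => A x y) g : ℤ)) : ZMod (2 * k + 1)) := by
    push_cast
    rw [← h8]; ring
  refine eq_of_zmod h10 ?_
  rw [abs_neg]
  have e1 := Int.natCast_natAbs (tr (fun x y => A x y) g)
  have e2 := Int.natCast_natAbs (tr (fun x y => A x y) (g ^ (2 * k + 1)))
  rw [← e1, ← e2]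
  have e3 : ∀ a : G, (tr (fun x y => A x y) a).natAbs ≤
      ∑ g : G, (tr (fun x y => A x y) g).natAbs := fun a =>
    Finset.single_le_sum (f := fun g : G => (tr (fun x y => A x y) g).natAbs)
      (fun _ _ => Nat.zero_le _) (Finset.mem_univ a)
  have e4 := e3 g
  have e5 := e3 (g ^ (2 * k + 1))
  have : (tr (fun x y => A x y) (g ^ (2 * k + 1))).natAbs + (tr (fun x y => A x y) g).natAbs <
      2 * k + 1 := by omega
  exact_mod_cast this

end Pool.Agent.Helper606_CZ
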