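import Mathlib
import Pool.Agent.Helper606_CZ.K2

/-!
# Two-graphs invariant under a group which acts transitively on pairs
-/

set_option autoImplicit false

open scoped Classical

namespace Pool.Agent.Helper606_CZ

open Pool.Agent.Q11.CZ

variable {G : Type*} [Group G] [Fintype G] {c : G}
variable {X : Type*} [Fintype X] [MulAction G X]

variable (c) in
/-- `x`, `y` are in different pairs -/
def Off (x y : X) : Prop := y ≠ x ∧ y ≠ c • x

/-- transitivity on the pairs of pairs -/
def TwoTrans (c : G) (X : Type*) [MulAction G X] : Prop :=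
  ∀ x y x' y' : X, Off c x y → Off c x' y' →
    ∃ g : G, (g • x = x' ∨ g • x = c • x') ∧ (g • y = y' ∨ g • y = c • y')

/-- An invariant symmetric (`s = 1`) or skew (`s = -1`) two-graph. -/
structure TG (c : G) (s : ℤ) (δ : Matrix X X ℤ) : Prop where
  sign : s = 1 ∨ s = -1
  inv : Inv G δ
  symm : ∀ x y, δ x y = s * δ y x
  odd : ∀ x y, δ x (c • y) = - δ x y
  self : ∀ x, δ x x = 0
  off : ∀ x y, Off c x y → δ x y = 1 ∨ δ x y = -1

variable (c X) in
/-- the matrix of `io` -/
noncomputable def II : Matrix X X ℤ := Matrix.of (io c)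

section
variable {s : ℤ} {δ : Matrix X X ℤ} (hδ : TG c s δ) (hc : ∀ g, c * g = g * c) (hc2 : c * c = 1)
  (hfree : ∀ x : X, c • x ≠ x)
include hδ

omit [Fintype G] [Fintype X] in
lemma TG.odd' (x y : X) : δ (c • x) y = - δ x y := by
  rw [hδ.symm, hδ.odd, hδ.symm x y, mul_neg]

omit [Fintype G] [Fintype X] in
lemma TG.self_c (x : X) : δ x (c • x) = 0 := by rw [hδ.odd, hδ.self, neg_zero]

omit [Fintype G] [Fintype X] in
lemma TG.zero_or (x y : X) : (δ x y = 0 ∧ ¬ Off c x y) ∨ (Off c x y ∧ (δ x y = 1 ∨ δ x y = -1)) := by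
  by_cases h : Off c x y
  · exact Or.inr ⟨h, hδ.off x y h⟩
  · left
    refine ⟨?_, h⟩
    unfold Off at h
    rw [not_and_or, not_not, not_not] at h
    rcases h with h | h
    · rw [h, hδ.self]
    · rw [h, hδ.self_c]

omit [Fintype G] [Fintype X] in
lemma TG.sq_off {x y : X} (h : Off c x y) : δ x y * δ x y = 1 := by
  rcases hδ.off x y h with h | h <;> rw [h] <;> norm_num

end

section
variable (hc : ∀ g, c * g = g * c) (hc2 : c * c = 1)
  (hfree : ∀ x : X, c • x ≠ x)

omit [Fintype G] [Fintype X] in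
include hc2 in
lemma ccs (x : X) : c • (c • x) = x := by rw [← mul_smul, hc2, one_smul]

omit [Fintype G] [Fintype X] in
include hc2 in
lemma io_symm (x y : X) : io c x y = io c y x := by
  unfold io
  have h : y = c • x ↔ x = c • y := by
    constructor
    · rintro rfl; rw [ccs hc2]
    · rintro rfl; rw [ccs hc2]
  simp only [h, eq_comm (a := y) (b := x)]

omit [Fintype G] [Fintype X] in
include hc in
lemma io_inv : Inv G (io c : X → X → ℤ) := by
  intro g x y
  unfold io
  rw [← mul_smul c g x, hc, mul_smul]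
  simp only [(MulAction.injective g).eq_iff]

omit [Fintype G] [Fintype X] in
include hc2 in
lemma io_c (x y : X) : io c x (c • y) = - io c x y := by
  unfold io
  have h1 : c • y = x ↔ y = c • x := by
    constructor
    · rintro rfl; rw [ccs hc2]
    · rintro rfl; rw [ccs hc2]
  have h2 : c • y = c • x ↔ y = x := (MulAction.injective c).eq_iff
  simp only [h1, h2]
  ring

omit [Fintype G] [Fintype X] in
include hfree in
lemma io_self (x : X) : io c x x = 1 := by
  unfold io
  rw [if_pos rfl, if_neg (hfree x).symm]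
  norm_num

omit [Fintype G] in
include hc2 in
lemma sum_io (x : X) (f : X → ℤ) (hf : ∀ y, f (c • y) = - f y) :
    ∑ y, io c x y * f y = 2 * f x := by
  unfold io
  simp only [sub_mul, ite_mul, one_mul, zero_mul, Finset.sum_sub_distrib, Finset.sum_ite_eq',
    Finset.mem_univ, if_true, hf]
  ring

omit [Fintype G] in
include hc2 in
lemma II_mul (A : Matrix X X ℤ) (hA : ∀ x y, A (c • x) y = - A x y) :
    II c X * A = (2 : ℤ) • A := by
  ext x z
  rw [Matrix.mul_apply, Matrix.smul_apply, smul_eq_mul]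
  exact sum_io hc2 x (fun y => A y z) (fun y => hA y z)

omit [Fintype G] in
include hc2 in
lemma mul_II (A : Matrix X X ℤ) (hA : ∀ x y, A x (c • y) = - A x y) :
    A * II c X = (2 : ℤ) • A := by
  ext x z
  rw [Matrix.mul_apply, Matrix.smul_apply, smul_eq_mul]
  have : ∀ y, A x y * II c X y z = io c z y * A x y := by
    intro y
    rw [mul_comm]
    congr 1
    exact io_symm hc2 y z
  rw [Finset.sum_congr rfl (fun y _ => this y)]
  exact sum_io hc2 z (fun y => A x y) (fun y => hA x y)

omit [Fintype G] in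
include hc2 in
lemma sum_even {R : Type*} [Ring R] {Φ : Finset X} (hΦ : IsHalf c Φ) (f : X → R)
    (hf : ∀ x, f (c • x) = f x) :
    ∑ x, f x = 2 * ∑ x ∈ Φ, f x := by
  rw [← Finset.sum_add_sum_compl Φ f, two_mul]
  congr 1
  refine Finset.sum_bij' (fun x _ => c • x) (fun x _ => c • x) ?_ ?_ ?_ ?_ ?_
  · intro x hx
    rw [Finset.mem_compl] at hx
    rwa [hΦ]
  · intro x hx
    rw [Finset.mem_compl, hΦ, not_not]
    exact hx
  · intro x _; exact ccs hc2 x
  · intro x _; exact ccs hc2 x
  · intro x _; exact (hf x).symm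

omit [Fintype G] in
include hc2 in
lemma card_half {Φ : Finset X} (hΦ : IsHalf c Φ) : Fintype.card X = 2 * Φ.card := by
  have := sum_even hc2 hΦ (fun _ => (1 : ℤ)) (fun _ => rfl)
  simp only [Finset.sum_const, Finset.card_univ, nsmul_eq_mul, mul_one] at this
  exact_mod_cast this

omit [Fintype G] [Fintype X] in
/-- even invariant functions are constant on the pairs -/
lemma const_off (h2 : TwoTrans c X) {R : Type*} (F : X → X → R) (hF : Inv G F)
    (h1 : ∀ x y, F x (c • y) = F x y) (h1' : ∀ x y, F (c • x) y = F x y) {x y x' y' : X}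
    (h : Off c x y) (h' : Off c x' y') : F x y = F x' y' := by
  obtain ⟨g, hg1, hg2⟩ := h2 x y x' y' h h'
  rw [← hF g x y]
  rcases hg1 with hg1 | hg1 <;> rcases hg2 with hg2 | hg2 <;> rw [hg1, hg2] <;>
    simp only [h1, h1']

end

section
variable {s : ℤ} {δ : Matrix X X ℤ} (hδ : TG c s δ) (hc : ∀ g, c * g = g * c) (hc2 : c * c = 1)
  (hfree : ∀ x : X, c • x ≠ x) (ht : MulAction.IsPretransitive G X) (h2 : TwoTrans c X)
include hδ hc hc2 hfree ht h2

omit [Fintype G] [Fintype X] in
/-- invariant odd kernels -/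
lemma span_kernel {R : Type*} [Ring R] (f : X → X → R) (hf : Inv G f)
    (h1 : ∀ x y, f x (c • y) = - f x y) (h1' : ∀ x y, f (c • x) y = - f x y) :
    ∃ a b : R, ∀ x y, f x y = a * (io c x y : ℤ) + b * (δ x y : ℤ) := by
  by_cases hX : Nonempty X
  swap
  · exact ⟨0, 0, fun x => absurd ⟨x⟩ hX⟩
  obtain ⟨x0⟩ := hX
  have hd : ∀ x, f x x = f x0 x0 := by
    intro x
    obtain ⟨g, rfl⟩ := MulAction.exists_smul_eq G x0 x
    exact hf g x0 x0
  have hF : ∀ x y x' y', Off c x y → Off c x' y' →
      f x y * (δ x y : ℤ) = f x' y' * (δ x' y' : ℤ) := by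
    intro x y x' y' h h'
    refine const_off h2 (fun x y => f x y * (δ x y : ℤ)) ?_ ?_ ?_ h h'
    · intro g x y; simp only [hf g x y, hδ.inv g x y]
    · intro x y
      simp only [h1, hδ.odd, Int.cast_neg, neg_mul_neg]
    · intro x y
      simp only [h1', hδ.odd', Int.cast_neg, neg_mul_neg]
  have hcase : ∀ x y : X, ¬ Off c x y → y = x ∨ y = c • x := by
    intro x y h
    unfold Off at h
    rw [not_and_or, not_not, not_not] at h
    exact h
  by_cases hoff : ∃ x1 y1 : X, Off c x1 y1
  · obtain ⟨x1, y1, h11⟩ := hoff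
    refine ⟨f x0 x0, f x1 y1 * (δ x1 y1 : ℤ), fun x y => ?_⟩
    by_cases h : Off c x y
    · have e1 : io c x y = 0 := by
        unfold io; rw [if_neg h.1, if_neg h.2]; norm_num
      rw [e1, ← hF x y x1 y1 h h11, mul_assoc, ← Int.cast_mul, hδ.sq_off h]
      simp
    · rcases hcase x y h with h | h
      · subst h
        rw [io_self hfree, hδ.self, hd]; simp
      · subst h
        rw [io_c hc2, io_self hfree, hδ.self_c, h1, hd]; simp
  · push Not at hoff
    refine ⟨f x0 x0, 0, fun x y => ?_⟩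
    rcases hcase x y (hoff x y) with h | h
    · subst h
      rw [io_self hfree, hδ.self, hd]; simp
    · subst h
      rw [io_c hc2, io_self hfree, hδ.self_c, h1, hd]; simp

omit [Fintype G] in
/-- the square of the matrix of the two-graph -/
lemma sq_delta {Φ : Finset X} (hΦ : IsHalf c Φ) :
    ∃ β : ℤ, δ * δ = (s * (2 * (Φ.card : ℤ) - 2)) • II c X + (2 * β) • δ ∧ (s = -1 → β = 0) := by
  obtain ⟨a, b, hab⟩ := span_kernel hδ hc hc2 hfree ht h2 (R := ℤ) (fun x y => (δ * δ) x y)
    (inv_mul hδ.inv hδ.inv)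
    (fun x y => by
      simp only [Matrix.mul_apply, hδ.odd, mul_neg, Finset.sum_neg_distrib])
    (fun x y => by
      simp only [Matrix.mul_apply, hδ.odd', neg_mul, Finset.sum_neg_distrib])
  simp only [Int.cast_id] at hab
  by_cases hX : Nonempty X
  swap
  · exact ⟨0, by ext x; exact absurd ⟨x⟩ hX, fun _ => rfl⟩
  obtain ⟨x0⟩ := hX
  have ha : a = s * (2 * (Φ.card : ℤ) - 2) := by
    have h1 := hab x0 x0
    rw [io_self hfree, hδ.self, mul_one, mul_zero, add_zero] at h1
    rw [← h1, Matrix.mul_apply]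
    have h3 : ∀ y, δ x0 y * δ y x0 =
        s * (1 - ((if y = x0 then 1 else 0) + (if y = c • x0 then 1 else 0))) := by
      intro y
      have hss : s * s = 1 := by rcases hδ.sign with h | h <;> rw [h] <;> norm_num
      have e1 : δ x0 y * δ y x0 = s * (δ x0 y * δ x0 y) := by
        rw [hδ.symm y x0]; ring
      rw [e1]
      congr 1
      by_cases h : Off c x0 y
      · rw [hδ.sq_off h, if_neg h.1, if_neg h.2]; norm_num
      · unfold Off at h
        rw [not_and_or, not_not, not_not] at h
        rcases h with h | h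
        · rw [h, hδ.self, if_pos rfl, if_neg (hfree x0).symm]; norm_num
        · rw [h, hδ.self_c, if_neg (hfree x0), if_pos rfl]; norm_num
    rw [Finset.sum_congr rfl (fun y _ => h3 y), ← Finset.mul_sum, Finset.sum_sub_distrib,
      Finset.sum_add_distrib, Finset.sum_ite_eq', Finset.sum_ite_eq']
    simp only [Finset.sum_const, Finset.card_univ, nsmul_eq_mul, mul_one, Finset.mem_univ, if_true]
    rw [card_half hc2 hΦ]
    push_cast; ring
  by_cases hoff : ∃ x1 y1 : X, Off c x1 y1
  · obtain ⟨x1, y1, h11⟩ := hoff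
    have e1 : io c x1 y1 = 0 := by
      unfold io; rw [if_neg h11.1, if_neg h11.2]; norm_num
    have hb : ∃ β : ℤ, b = 2 * β := by
      have h1 := hab x1 y1
      rw [e1, mul_zero, zero_add, Matrix.mul_apply,
        sum_even hc2 hΦ (fun y => δ x1 y * δ y y1) (fun y => by rw [hδ.odd, hδ.odd']; ring)] at h1
      refine ⟨(∑ x ∈ Φ, δ x1 x * δ x y1) * δ x1 y1, ?_⟩
      have h3 : b = b * δ x1 y1 * δ x1 y1 := by rw [mul_assoc, hδ.sq_off h11, mul_one]
      rw [h3, ← h1]; ring
    obtain ⟨β, rfl⟩ := hb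
    refine ⟨β, ?_, ?_⟩
    · ext x y
      rw [hab x y, ha]
      rfl
    · intro hs
      have h1 := hab x1 y1
      have h3 := hab y1 x1
      have e2 : io c y1 x1 = 0 := by rw [io_symm hc2, e1]
      rw [e1, mul_zero, zero_add] at h1
      rw [e2, mul_zero, zero_add] at h3
      have h4 : (δ * δ) x1 y1 = (δ * δ) y1 x1 := by
        rw [Matrix.mul_apply, Matrix.mul_apply]
        refine Finset.sum_congr rfl (fun u _ => ?_)
        rw [hδ.symm x1 u, hδ.symm u y1, hs]; ring
      rw [h1, h3, hδ.symm y1 x1, hs] at h4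
      have h5 : δ x1 y1 ≠ 0 := by rcases hδ.off x1 y1 h11 with h | h <;> rw [h] <;> norm_num
      have h6 : 4 * β * δ x1 y1 = 0 := by linarith
      rcases mul_eq_zero.mp h6 with h | h
      · omega
      · exact absurd h h5
  · refine ⟨0, ?_, fun _ => rfl⟩
    have hz : ∀ x y, δ x y = 0 := by
      intro x y
      rcases hδ.zero_or x y with h | h
      · exact h.1
      · exact absurd ⟨x, y, h.1⟩ hoff
    ext x y
    rw [hab x y, ha, hz]
    simp only [Matrix.add_apply, Matrix.smul_apply, hz, smul_eq_mul, mul_zero]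
    rfl

end

end Pool.Agent.Helper606_CZ
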