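import Mathlib
import Pool.Agent.Helper606_CZ.K3

/-!
# Rational and irrational two-graphs
-/

set_option autoImplicit false

open scoped Classical

namespace Pool.Agent.Helper606_CZ

open Pool.Agent.Q11.CZ

variable {G : Type*} [Group G] [Fintype G] {c : G}
variable {X : Type*} [Fintype X] [MulAction G X]
variable {s : ℤ} {δ : Matrix X X ℤ} (hδ : TG c s δ) (hc : ∀ g, c * g = g * c) (hc2 : c * c = 1)
  (hfree : ∀ x : X, c • x ≠ x)

include hδ hc hc2 hfree

omit [Fintype G] in
lemma comb_mul {n β : ℤ} (hsq : δ * δ = (2 * n - 2) • II c X + (2 * β) • δ) (a : ℤ) :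
    ((2 : ℤ) • δ - a • II c X) * ((2 : ℤ) • δ - a • II c X) =
      (8 * n - 8 + 2 * a ^ 2) • II c X + (8 * β - 8 * a) • δ := by
  have h1 : II c X * δ = (2 : ℤ) • δ := II_mul hc2 δ (fun x y => hδ.odd' x y)
  have h2 : δ * II c X = (2 : ℤ) • δ := mul_II hc2 δ (fun x y => hδ.odd x y)
  have h3 : II c X * II c X = (2 : ℤ) • II c X := mul_II hc2 _ (fun x y => io_c hc2 x y)
  rw [sub_mul, mul_sub, mul_sub]
  simp only [smul_mul_assoc, mul_smul_comm, h1, h2, h3, hsq, smul_add, smul_smul]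
  ext x y
  simp only [Matrix.add_apply, Matrix.sub_apply, Matrix.smul_apply, smul_eq_mul]
  ring

lemma tr_delta_sub (a : ℤ) (g : G) :
    tr (fun x y => ((2 : ℤ) • δ - a • II c X) x y) g =
      2 * tr (fun x y => δ x y) g - a * tr (io c : X → X → ℤ) g := by
  unfold tr
  rw [Finset.mul_sum, Finset.mul_sum, ← Finset.sum_sub_distrib]
  refine Finset.sum_congr rfl (fun x _ => ?_)
  rfl

/-- the discriminant is a square, or the middle coefficient vanishes -/
lemma disc {n β : ℤ} (hn : 0 < n) (hcard : (Fintype.card X : ℤ) = 2 * n)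
    (hsq : δ * δ = (2 * n - 2) • II c X + (2 * β) • δ) :
    (∃ t : ℤ, t * t = β ^ 2 + 4 * (n - 1)) ∨
      (β = 0 ∧ ¬ IsSquare (n - 1) ∧ δ * δ = (2 * n - 2) • II c X) := by
  by_cases hΔ : IsSquare (β ^ 2 + 4 * (n - 1))
  · obtain ⟨t, ht⟩ := hΔ
    exact Or.inl ⟨t, ht.symm⟩
  right
  have hinv : Inv G ((2 : ℤ) • δ - β • II c X) := by
    intro g x y
    change 2 * δ (g • x) (g • y) - β * io c (g • x) (g • y) = 2 * δ x y - β * io c x y
    rw [hδ.inv g x y, io_inv hc g x y]
  have h1 : ((2 : ℤ) • δ - β • II c X) * ((2 : ℤ) • δ - β • II c X) =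
      (2 * (β ^ 2 + 4 * (n - 1))) • II c X := by
    rw [comb_mul hδ hc hc2 hfree hsq β]
    ext x y
    simp only [Matrix.add_apply, Matrix.smul_apply, smul_eq_mul]
    ring
  have h2 : ((2 : ℤ) • δ - β • II c X) * ((2 : ℤ) • δ - β • II c X) *
      ((2 : ℤ) • δ - β • II c X) = (4 * (β ^ 2 + 4 * (n - 1))) • ((2 : ℤ) • δ - β • II c X) := by
    rw [h1, smul_mul_assoc, II_mul hc2, smul_smul]
    · congr 1; ring
    · intro x y
      change 2 * δ (c • x) y - β * io c (c • x) y = -(2 * δ x y - β * io c x y)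
      rw [hδ.odd', io_symm hc2, io_c hc2, io_symm hc2 y x]
      ring
  obtain ⟨p, -, -, hp⟩ := neg_of_cube (G := G) hinv hΔ h2 0
  have h3 := hp 1
  rw [one_pow, tr_delta_sub hδ hc hc2 hfree] at h3
  have h4 : tr (fun x y => δ x y) (1 : G) = 0 := by
    unfold tr
    simp only [one_smul, hδ.self, Finset.sum_const_zero]
  have h5 : tr (io c : X → X → ℤ) (1 : G) = 2 * n := by
    unfold tr
    simp only [one_smul, io_self hfree, Finset.sum_const, Finset.card_univ, nsmul_eq_mul, mul_one,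
      hcard]
  rw [h4, h5] at h3
  have h6 : β = 0 := by
    have : β * n = 0 := by linarith
    rcases mul_eq_zero.mp this with h | h
    · exact h
    · omega
  subst h6
  refine ⟨rfl, ?_, ?_⟩
  · rintro ⟨r, hr⟩
    exact hΔ ⟨2 * r, by rw [hr]; ring⟩
  · rw [hsq]; simp

/-- the rational case -/
lemma zinv_rational {n β t : ℤ} (hn : 1 < n)
    (hsq : δ * δ = (2 * n - 2) • II c X + (2 * β) • δ) (ht : t * t = β ^ 2 + 4 * (n - 1))
    {g g' : G} (hg : Subgroup.zpowers g = Subgroup.zpowers g') :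
    tr (fun x y => δ x y) g = tr (fun x y => δ x y) g' := by
  have ht0 : 4 * t ≠ 0 := by
    intro h
    have : t = 0 := by omega
    subst this
    nlinarith [sq_nonneg β]
  have hinv : Inv G ((2 : ℤ) • δ - (β - t) • II c X) := by
    intro g x y
    change 2 * δ (g • x) (g • y) - (β - t) * io c (g • x) (g • y) =
      2 * δ x y - (β - t) * io c x y
    rw [hδ.inv g x y, io_inv hc g x y]
  have h1 : ((2 : ℤ) • δ - (β - t) • II c X) * ((2 : ℤ) • δ - (β - t) • II c X) =
      (4 * t) • ((2 : ℤ) • δ - (β - t) • II c X) := by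
    rw [comb_mul hδ hc hc2 hfree hsq (β - t)]
    ext x y
    simp only [Matrix.add_apply, Matrix.sub_apply, Matrix.smul_apply, smul_eq_mul]
    have : 8 * n - 8 + 2 * (β - t) ^ 2 = - (4 * t * (β - t)) := by
      have : 4 * n = t * t - β ^ 2 + 4 := by linarith
      linear_combination 2 * this
    rw [this]
    ring
  have h2 := zinv_of_idem hinv ht0 h1 hg
  rw [tr_delta_sub hδ hc hc2 hfree, tr_delta_sub hδ hc hc2 hfree,
    tr_io_zpowers (X := X) hc hc2 hg] at h2
  linarith

end Pool.Agent.Helper606_CZ
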