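import Mathlib
import Pool.Agent.Helper606_CZ.K4

/-!
# The exceptional two-graphs: conference matrices
-/

set_option autoImplicit false

open scoped Classical

namespace Pool.Agent.Helper606_CZ

open Pool.Agent.Q11.CZ

variable {G : Type*} [Group G] [Fintype G] {c : G}
variable {X : Type*} [Fintype X] [MulAction G X]

/-- sums of symmetric functions with zero diagonal are even -/
lemma even_sum {Y : Type*} (Φ : Finset Y) (f : Y → Y → ℤ) (hs : ∀ x y, f x y = f y x)
    (h0 : ∀ x, f x x = 0) : (2 : ℤ) ∣ ∑ x ∈ Φ, ∑ y ∈ Φ, f x y := by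
  induction Φ using Finset.induction_on with
  | empty => simp
  | insert a s ha ih =>
    rw [Finset.sum_insert ha, Finset.sum_insert ha, h0, zero_add]
    have : ∑ x ∈ s, ∑ y ∈ insert a s, f x y = ∑ x ∈ s, f a x + ∑ x ∈ s, ∑ y ∈ s, f x y := by
      rw [← Finset.sum_add_distrib]
      refine Finset.sum_congr rfl (fun x _ => ?_)
      rw [Finset.sum_insert ha, hs x a]
    rw [this, ← add_assoc, ← two_mul]
    exact dvd_add (dvd_mul_right _ _) ih

section
variable {s : ℤ} {δ : Matrix X X ℤ} (hδ : TG c s δ) (hc : ∀ g, c * g = g * c) (hc2 : c * c = 1)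
  (hfree : ∀ x : X, c • x ≠ x)

include hδ hc hc2 hfree

omit [Fintype G] in
/-- a symmetric conference matrix has order congruent to two modulo four, a skew conference matrix
has order divisible by four. -/
theorem conf_mod {n : ℕ} (hcard : Fintype.card X = 2 * n) (hn : 3 ≤ n)
    (hsq : δ * δ = (s * (2 * (n : ℤ) - 2)) • II c X) : (n : ℤ) % 4 = 1 + s := by
  have hX : 0 < Fintype.card X := by omega
  obtain ⟨x1⟩ := Fintype.card_pos_iff.mp hX
  have hss : s * s = 1 := by rcases hδ.sign with h | h <;> rw [h] <;> norm_num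
  have hval : ∀ x y, (δ * δ) x y = (s * (2 * (n : ℤ) - 2)) * io c x y := by
    intro x y; rw [hsq]; rfl
  set Φ : Finset X := Finset.univ.filter (fun y => y = x1 ∨ δ x1 y = 1) with hΦdef
  have hΦ : IsHalf c Φ := by
    intro y
    simp only [hΦdef, Finset.mem_filter, Finset.mem_univ, true_and]
    rcases hδ.zero_or x1 y with ⟨h0, h⟩ | ⟨h, h1⟩
    · have hy : y = x1 ∨ y = c • x1 := by
        unfold Off at h
        rw [not_and_or, not_not, not_not] at h
        exact h
      rcases hy with hy | hy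
      · subst hy
        rw [hδ.odd, hδ.self]
        simp [hfree]
      · subst hy
        rw [hδ.odd, hδ.odd, hδ.self, ccs hc2]
        simp [hfree]
    · have e1 : c • y ≠ x1 := by
        intro e; apply h.2; rw [← e, ccs hc2]
      rw [hδ.odd]
      rcases h1 with h1 | h1 <;> rw [h1]
      · simp [e1]
      · simp [e1, h.1]
  have hcΦ : Φ.card = n := by
    have := card_half hc2 hΦ
    omega
  have hx1 : x1 ∈ Φ := by simp [hΦdef]
  set S := Φ.erase x1 with hS
  have hcS : S.card = n - 1 := by rw [hS, Finset.card_erase_of_mem hx1, hcΦ]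
  have hmem : ∀ y ∈ S, δ x1 y = 1 ∧ Off c x1 y := by
    intro y hy
    rw [hS, Finset.mem_erase] at hy
    have h1 : δ x1 y = 1 := by
      have := hy.2
      simp only [hΦdef, Finset.mem_filter, Finset.mem_univ, true_and] at this
      tauto
    refine ⟨h1, hy.1, ?_⟩
    rintro rfl
    rw [hδ.self_c] at h1
    omega
  have hoff : ∀ y ∈ S, ∀ z ∈ S, y ≠ z → Off c z y := by
    intro y hy z hz hyz
    refine ⟨hyz, ?_⟩
    rintro rfl
    have h1 := (hmem _ hy).1
    rw [hδ.odd, (hmem z hz).1] at h1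
    omega
  have hio : ∀ x y : X, Off c x y → io c x y = 0 := by
    intro x y h
    unfold io; rw [if_neg h.1, if_neg h.2]; norm_num
  have hsum : ∀ x z : X, Off c x z → ∑ y ∈ Φ, δ x y * δ y z = 0 := by
    intro x z h
    have h1 := hval x z
    rw [hio x z h, mul_zero, Matrix.mul_apply, sum_even hc2 hΦ (fun y => δ x y * δ y z)
      (fun y => by rw [hδ.odd, hδ.odd']; ring)] at h1
    omega
  have hsplit : ∀ f : X → ℤ, ∑ y ∈ Φ, f y = f x1 + ∑ y ∈ S, f y := by
    intro f
    rw [hS, Finset.add_sum_erase _ _ hx1]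
  have hA : ∀ z ∈ S, ∑ y ∈ S, δ y z = 0 := by
    intro z hz
    have h1 := hsum x1 z (hmem z hz).2
    rw [hsplit, hδ.self, zero_mul, zero_add] at h1
    rw [← h1]
    refine Finset.sum_congr rfl (fun y hy => ?_)
    rw [(hmem y hy).1, one_mul]
  have hB : ∀ z ∈ S, ∀ w ∈ S, z ≠ w → ∑ y ∈ S, δ y z * δ y w = -1 := by
    intro z hz w hw hzw
    have h1 := hsum z w (hoff w hw z hz hzw.symm)
    rw [hsplit, hδ.symm z x1, (hmem z hz).1, (hmem w hw).1] at h1
    have h2 : ∑ y ∈ S, δ y z * δ y w = s * ∑ y ∈ S, δ z y * δ y w := by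
      rw [Finset.mul_sum]
      exact Finset.sum_congr rfl (fun y _ => by rw [hδ.symm y z]; ring)
    rw [h2]
    have h3 : ∑ y ∈ S, δ z y * δ y w = - s := by linarith
    rw [h3]; linarith
  obtain ⟨z, hz, w, hw, hzw⟩ := Finset.one_lt_card.mp (show 1 < S.card by omega)
  have h1 : ∑ y ∈ S, (1 + δ y z) * (1 + δ y w) = (n : ℤ) - 2 := by
    have : ∀ y ∈ S, (1 + δ y z) * (1 + δ y w) = 1 + δ y z + δ y w + δ y z * δ y w :=
      fun y _ => by ring
    rw [Finset.sum_congr rfl this, Finset.sum_add_distrib, Finset.sum_add_distrib,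
      Finset.sum_add_distrib, hA z hz, hA w hw, hB z hz w hw hzw]
    simp only [Finset.sum_const, nsmul_eq_mul, mul_one, hcS]
    push_cast [Nat.cast_sub (show 1 ≤ n by omega)]
    ring
  have h2 : (4 : ℤ) ∣ ∑ y ∈ S, (1 + δ y z) * (1 + δ y w) - (1 - s) := by
    have hw' : w ∈ S.erase z := Finset.mem_erase.mpr ⟨hzw.symm, hw⟩
    rw [← Finset.add_sum_erase S _ hz, ← Finset.add_sum_erase (S.erase z) _ hw', hδ.self, hδ.self,
      hδ.symm w z, ← add_assoc, add_sub_right_comm]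
    refine dvd_add ?_ (Finset.dvd_sum (fun y hy => ?_))
    · rcases hδ.sign with hs | hs <;> rcases hδ.off z w (hoff w hw z hz hzw.symm) with h | h <;>
        rw [h, hs] <;> norm_num
    · rw [Finset.mem_erase, Finset.mem_erase] at hy
      obtain ⟨hyw, hyz, hy⟩ := hy
      have e1 := hδ.off z y (hoff y hy z hz hyz)
      have e2 := hδ.off w y (hoff y hy w hw hyw)
      rw [hδ.symm y z, hδ.symm y w]
      rcases hδ.sign with hs | hs <;> rcases e1 with e1 | e1 <;> rcases e2 with e2 | e2 <;>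
        rw [e1, e2, hs] <;> norm_num
  rw [h1] at h2
  rcases hδ.sign with hs | hs <;> rw [hs] at h2 ⊢ <;> omega

omit [Fintype G] in
/-- the sum of the entries over a half-system -/
lemma sum_half (hs : s = 1) {Φ : Finset X} (hΦ : IsHalf c Φ) (h4 : Φ.card % 4 = 2) :
    ∑ x ∈ Φ, ∑ y ∈ Φ, δ x y ≠ 0 := by
  have h1 : ∀ x ∈ Φ, ∀ y ∈ Φ, δ x y = (1 - if x = y then 1 else 0) -
      2 * (if δ x y = -1 then 1 else 0) := by
    intro x hx y hy
    by_cases hxy : x = y
    · subst hxy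
      rw [hδ.self]; norm_num
    · have : Off c x y := by
        refine ⟨fun h => hxy h.symm, ?_⟩
        rintro rfl
        exact (hΦ x).mp hy hx
      rw [if_neg hxy]
      rcases hδ.off x y this with h | h <;> rw [h] <;> norm_num
  have h2 : (2 : ℤ) ∣ ∑ x ∈ Φ, ∑ y ∈ Φ, (if δ x y = -1 then 1 else 0) :=
    even_sum Φ _ (fun x y => by rw [hδ.symm x y, hs, one_mul]) (fun x => by rw [hδ.self]; norm_num)
  obtain ⟨k, hk⟩ := h2
  rw [Finset.sum_congr rfl (fun x hx => Finset.sum_congr rfl (fun y hy => h1 x hx y hy))]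
  simp only [Finset.sum_sub_distrib, ← Finset.mul_sum]
  have h3 : ∑ x ∈ Φ, ∑ y ∈ Φ, (if x = y then (1 : ℤ) else 0) = Φ.card := by
    have : ∀ x ∈ Φ, ∑ y ∈ Φ, (if x = y then (1 : ℤ) else 0) = 1 := by
      intro x hx
      rw [Finset.sum_ite_eq, if_pos hx]
    rw [Finset.sum_congr rfl this]; simp
  rw [h3, hk]
  simp only [Finset.sum_const, nsmul_eq_mul, mul_one]
  obtain ⟨m, hm⟩ : ∃ m, Φ.card = 4 * m + 2 := ⟨Φ.card / 4, by omega⟩
  rw [hm]
  push_cast
  intro h
  have : (4 * (m : ℤ) + 2) * (4 * m + 2) - (4 * m + 2) - 2 * (2 * k) = 0 := h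
  have h5 : 4 * (4 * (m : ℤ) ^ 2 + 3 * m - k) = -2 := by linarith
  omega

/-- the average kernel is not the identity kernel -/
lemma mk_ne (hs : s = 1) {Φ : Finset X} (hΦ : IsHalf c Φ) (h4 : Φ.card % 4 = 2) {m : ℚ}
    (hm : ∀ x y, Mk G Φ x y = (io c x y : ℤ) + m * (δ x y : ℤ)) : m ≠ 0 := by
  rintro rfl
  apply sum_half hδ hc hc2 hfree hs hΦ h4
  have h1 : ∑ x, ∑ y, Mk G Φ x y * (δ x y : ℚ) = 0 := by
    have : ∀ x, ∑ y, Mk G Φ x y * (δ x y : ℚ) = ((∑ y, io c x y * δ x y : ℤ) : ℚ) := by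
      intro x
      push_cast
      refine Finset.sum_congr rfl (fun y _ => ?_)
      rw [hm]; ring
    simp only [this]
    have h2 : ∀ x, ∑ y, io c x y * δ x y = 0 := by
      intro x
      rw [sum_io hc2 x (fun y => δ x y) (fun y => hδ.odd x y), hδ.self, mul_zero]
    simp only [h2]
    simp
  have h3 : ∑ x, ∑ y, Mk G Φ x y * (δ x y : ℚ) = ∑ x, ∑ y, sg Φ x * sg Φ y * (δ x y : ℚ) := by
    have e1 : ∀ x y, Mk G Φ x y * (δ x y : ℚ) =
        (∑ h : G, sg Φ (h • x) * sg Φ (h • y) * (δ (h • x) (h • y) : ℚ)) / Fintype.card G := by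
      intro x y
      unfold Mk
      rw [div_mul_eq_mul_div, Finset.sum_mul]
      congr 1
      refine Finset.sum_congr rfl (fun h _ => ?_)
      rw [hδ.inv h x y]
    simp only [e1, ← Finset.sum_div]
    rw [div_eq_iff card_ne]
    have e2 : ∑ x, ∑ y, ∑ h : G, sg Φ (h • x) * sg Φ (h • y) * (δ (h • x) (h • y) : ℚ) =
        ∑ h : G, ∑ x, ∑ y, sg Φ (h • x) * sg Φ (h • y) * (δ (h • x) (h • y) : ℚ) := by
      rw [Finset.sum_comm]
      rw [Finset.sum_congr rfl (fun x _ => Finset.sum_comm)]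
      rw [Finset.sum_comm]
      refine Finset.sum_congr rfl (fun h _ => Finset.sum_comm)
    rw [e2]
    have e3 : ∀ h : G, ∑ x, ∑ y, sg Φ (h • x) * sg Φ (h • y) * (δ (h • x) (h • y) : ℚ) =
        ∑ x, ∑ y, sg Φ x * sg Φ y * (δ x y : ℚ) := by
      intro h
      rw [← Equiv.sum_comp (MulAction.toPerm h) (fun x => ∑ y, sg Φ x * sg Φ y * (δ x y : ℚ))]
      refine Finset.sum_congr rfl (fun x _ => ?_)
      exact Equiv.sum_comp (MulAction.toPerm h)
        (fun y => sg Φ (h • x) * sg Φ y * (δ (h • x) y : ℚ))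
    rw [Finset.sum_congr rfl (fun h _ => e3 h), Finset.sum_const, Finset.card_univ, nsmul_eq_mul,
      mul_comm]
  have h4' : ∑ x, ∑ y, sg Φ x * sg Φ y * (δ x y : ℚ) = 4 * ((∑ x ∈ Φ, ∑ y ∈ Φ, δ x y : ℤ) : ℚ) := by
    have e1 : ∀ x, ∑ y, sg Φ x * sg Φ y * (δ x y : ℚ) =
        2 * ∑ y ∈ Φ, sg Φ x * (δ x y : ℚ) := by
      intro x
      rw [sum_even hc2 hΦ (fun y => sg Φ x * sg Φ y * (δ x y : ℚ))
        (fun y => by rw [sg_c hΦ, hδ.odd]; push_cast; ring)]
      congr 1
      refine Finset.sum_congr rfl (fun y hy => ?_)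
      unfold sg
      rw [if_pos hy]; ring
    simp only [e1]
    rw [← Finset.mul_sum, sum_even hc2 hΦ (fun x => ∑ y ∈ Φ, sg Φ x * (δ x y : ℚ))]
    · rw [← mul_assoc]
      push_cast
      congr 1
      · norm_num
      · refine Finset.sum_congr rfl (fun x hx => Finset.sum_congr rfl (fun y _ => ?_))
        unfold sg
        rw [if_pos hx]; ring
    · intro x
      refine Finset.sum_congr rfl (fun y _ => ?_)
      rw [sg_c hΦ, hδ.odd']; push_cast; ring
  rw [h3, h4'] at h1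
  have : ((∑ x ∈ Φ, ∑ y ∈ Φ, δ x y : ℤ) : ℚ) = 0 := by linarith
  exact_mod_cast this

end

end Pool.Agent.Helper606_CZ
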