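import Mathlib
import Pool.Agent.Helper606_CZ.K5

/-!
# The traces of an exceptional two-graph do not vanish
-/

set_option autoImplicit false

open scoped Classical

namespace Pool.Agent.Helper606_CZ

open Pool.Agent.Q11.CZ

variable {G : Type*} [Group G] [Fintype G] {c : G}
variable {X : Type*} [Fintype X] [MulAction G X]

section
variable {s : ℤ} {δ : Matrix X X ℤ} (hδ : TG c s δ) (hc : ∀ g, c * g = g * c) (hc2 : c * c = 1)
  (hfree : ∀ x : X, c • x ≠ x) (ht : MulAction.IsPretransitive G X) (h2 : TwoTrans c X)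

include hc2

omit [Fintype G] in
lemma sum_io_left (x : X) (f : X → ℤ) (hf : ∀ y, f (c • y) = - f y) :
    ∑ y, io c y x * f y = 2 * f x := by
  rw [← sum_io hc2 x f hf]
  exact Finset.sum_congr rfl (fun y _ => by rw [io_symm hc2])

omit [Fintype G] [Fintype X] in
lemma io_c' (x y : X) : io c (c • x) y = - io c x y := by
  rw [io_symm hc2, io_c hc2, io_symm hc2]

include hδ hc hfree ht h2

/-- the Schur relations on the space of odd functions -/
lemma schur {n : ℕ} (hcard : Fintype.card X = 2 * n)
    (hsq : ∀ x, (δ * δ) x x = s * (2 * (n : ℤ) - 2))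
    (x a : X) : ∃ A B : ℤ, (n : ℤ) * A = Fintype.card G * io c x a ∧
      (n : ℤ) * ((n : ℤ) - 1) * B = Fintype.card G * δ x a ∧
      ∀ u b : X, ∑ g : G, io c u (g • x) * io c b (g • a) = A * io c u b + B * δ u b := by
  obtain ⟨A, B, hAB⟩ := span_kernel hδ hc hc2 hfree ht h2 (R := ℤ)
    (fun u b => ∑ g : G, io c u (g • x) * io c b (g • a))
    (by
      intro h u b
      simp only
      refine Fintype.sum_equiv (Equiv.mulLeft h⁻¹) _ _ (fun g => ?_)
      simp only [Equiv.coe_mulLeft]
      have e : ∀ (w y : X), io c (h • w) (g • y) = io c w ((h⁻¹ * g) • y) := by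
        intro w y
        rw [← io_inv hc h w ((h⁻¹ * g) • y), ← mul_smul, mul_inv_cancel_left]
      rw [e, e])
    (by
      intro u b
      simp only [io_c' hc2, mul_neg, Finset.sum_neg_distrib])
    (by
      intro u b
      simp only [io_c' hc2, neg_mul, Finset.sum_neg_distrib])
  simp only [Int.cast_id] at hAB
  have hio2 : ∀ u : X, ∑ b, io c u b * io c u b = 2 := by
    intro u
    rw [sum_io hc2 u (fun b => io c u b) (fun b => io_c hc2 u b), io_self hfree]; norm_num
  have hioδ : ∀ u : X, ∑ b, δ u b * io c u b = 0 := by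
    intro u
    have := sum_io hc2 u (fun b => δ u b) (fun b => hδ.odd u b)
    rw [hδ.self, mul_zero] at this
    rw [← this]
    exact Finset.sum_congr rfl (fun b _ => mul_comm _ _)
  have hss : s * s = 1 := by rcases hδ.sign with h | h <;> rw [h] <;> norm_num
  have hδδ : ∀ u : X, ∑ b, δ u b * δ u b = 2 * (n : ℤ) - 2 := by
    intro u
    have e1 : ∑ b, δ u b * δ u b = s * ∑ b, δ u b * δ b u := by
      rw [Finset.mul_sum]
      refine Finset.sum_congr rfl (fun b _ => ?_)
      rw [hδ.symm b u]
      linear_combination (- δ u b * δ u b) * hss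
    rw [e1, ← Matrix.mul_apply, hsq u, ← mul_assoc, hss, one_mul]
  have hA0 : ∀ K : X → X → ℤ, (∀ u b, K u (c • b) = - K u b) → (∀ u b, K (c • u) b = - K u b) →
      Inv G K → ∑ u, ∑ b, (∑ g : G, io c u (g • x) * io c b (g • a)) * K u b =
        4 * Fintype.card G * K x a := by
    intro K hK1 hK2 hK3
    have e1 : ∀ u, ∑ b, (∑ g : G, io c u (g • x) * io c b (g • a)) * K u b =
        ∑ g : G, io c u (g • x) * (2 * K u (g • a)) := by
      intro u
      simp only [Finset.sum_mul]
      rw [Finset.sum_comm]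
      refine Finset.sum_congr rfl (fun g _ => ?_)
      rw [← sum_io_left hc2 (g • a) (fun b => K u b) (fun b => hK1 u b), Finset.mul_sum]
      exact Finset.sum_congr rfl (fun b _ => by ring)
    simp only [e1]
    rw [Finset.sum_comm]
    have e2 : ∀ g : G, ∑ u, io c u (g • x) * (2 * K u (g • a)) = 4 * K x a := by
      intro g
      rw [sum_io_left hc2 (g • x) (fun u => 2 * K u (g • a)) (fun u => by
        change 2 * K (c • u) (g • a) = _
        rw [hK2]; ring)]
      rw [hK3]; ring
    rw [Finset.sum_congr rfl (fun g _ => e2 g), Finset.sum_const, Finset.card_univ, nsmul_eq_mul]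
    ring
  have hcard' : (Fintype.card X : ℤ) = 2 * n := by exact_mod_cast hcard
  refine ⟨A, B, ?_, ?_, hAB⟩
  · have h1 := hA0 (fun u b => io c u b) (fun u b => io_c hc2 u b) (fun u b => io_c' hc2 u b)
      (io_inv hc)
    have h3 : ∑ u, ∑ b, (∑ g : G, io c u (g • x) * io c b (g • a)) * io c u b = A * (2 * (2 * n)) := by
      have e : ∀ u, ∑ b, (∑ g : G, io c u (g • x) * io c b (g • a)) * io c u b = A * 2 := by
        intro u
        have : ∀ b, (∑ g : G, io c u (g • x) * io c b (g • a)) * io c u b =
            A * (io c u b * io c u b) + B * (δ u b * io c u b) := by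
          intro b; rw [hAB]; ring
        rw [Finset.sum_congr rfl (fun b _ => this b), Finset.sum_add_distrib, ← Finset.mul_sum,
          ← Finset.mul_sum, hio2, hioδ]
        ring
      rw [Finset.sum_congr rfl (fun u _ => e u), Finset.sum_const, Finset.card_univ, nsmul_eq_mul,
        hcard']
      ring
    rw [h3] at h1
    linarith
  · have h1 := hA0 (fun u b => δ u b) (fun u b => hδ.odd u b) (fun u b => hδ.odd' u b) hδ.inv
    have h3 : ∑ u, ∑ b, (∑ g : G, io c u (g • x) * io c b (g • a)) * δ u b =
        B * ((2 * n) * (2 * n - 2)) := by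
      have e : ∀ u, ∑ b, (∑ g : G, io c u (g • x) * io c b (g • a)) * δ u b =
          B * (2 * n - 2) := by
        intro u
        have : ∀ b, (∑ g : G, io c u (g • x) * io c b (g • a)) * δ u b =
            A * (δ u b * io c u b) + B * (δ u b * δ u b) := by
          intro b; rw [hAB]; ring
        rw [Finset.sum_congr rfl (fun b _ => this b), Finset.sum_add_distrib, ← Finset.mul_sum,
          ← Finset.mul_sum, hδδ, hioδ]
        ring
      rw [Finset.sum_congr rfl (fun u _ => e u), Finset.sum_const, Finset.card_univ, nsmul_eq_mul,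
        hcard']
      ring
    rw [h3] at h1
    linarith

/-- the traces determine the two-graph -/
theorem sum_tr {n : ℕ} (hcard : Fintype.card X = 2 * n)
    (hsq : δ * δ = (s * (2 * (n : ℤ) - 2)) • II c X) (a b : X) :
    (n : ℤ) * ((n : ℤ) - 1) * (2 * ∑ g : G, tr (fun x y => δ x y) g * io c b (g • a)) =
      8 * ((n : ℤ) - 1) * Fintype.card G * δ a b := by
  have hss : s * s = 1 := by rcases hδ.sign with h | h <;> rw [h] <;> norm_num
  have hsq' : ∀ x y, ∑ u, δ x u * δ u y = s * (2 * (n : ℤ) - 2) * io c x y := by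
    intro x y
    rw [← Matrix.mul_apply, hsq]; rfl
  have hd : ∀ x, (δ * δ) x x = s * (2 * (n : ℤ) - 2) := by
    intro x
    rw [Matrix.mul_apply, hsq', io_self hfree, mul_one]
  have hX := schur hδ hc hc2 hfree ht h2 hcard hd
  choose A B hA hB hAB using hX
  have h1 : 2 * ∑ g : G, tr (fun x y => δ x y) g * io c b (g • a) =
      ∑ x, ∑ u, δ x u * (A x a * io c u b + B x a * δ u b) := by
    have e1 : ∀ g : G, 2 * (tr (fun x y => δ x y) g * io c b (g • a)) =
        ∑ x, ∑ u, δ x u * (io c u (g • x) * io c b (g • a)) := by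
      intro g
      unfold tr
      rw [Finset.sum_mul, Finset.mul_sum]
      refine Finset.sum_congr rfl (fun x _ => ?_)
      have := sum_io_left hc2 (g • x) (fun u => δ x u) (fun u => hδ.odd x u)
      rw [← mul_assoc, ← this, Finset.sum_mul]
      exact Finset.sum_congr rfl (fun u _ => by ring)
    rw [Finset.mul_sum, Finset.sum_congr rfl (fun g _ => e1 g), Finset.sum_comm]
    refine Finset.sum_congr rfl (fun x _ => ?_)
    rw [Finset.sum_comm]
    refine Finset.sum_congr rfl (fun u _ => ?_)
    rw [← Finset.mul_sum, hAB]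
  rw [h1, Finset.mul_sum]
  have h3 : ∀ x, (n : ℤ) * ((n : ℤ) - 1) * ∑ u, δ x u * (A x a * io c u b + B x a * δ u b) =
      io c x a * (((n : ℤ) - 1) * Fintype.card G * (2 * δ x b)) +
        δ x a * (Fintype.card G * (s * (2 * (n : ℤ) - 2) * io c x b)) := by
    intro x
    have e1 : ∑ u, δ x u * (A x a * io c u b + B x a * δ u b) =
        A x a * (2 * δ x b) + B x a * (s * (2 * (n : ℤ) - 2) * io c x b) := by
      rw [← hsq' x b, ← sum_io_left hc2 b (fun u => δ x u) (fun u => hδ.odd x u), Finset.mul_sum,
        Finset.mul_sum, ← Finset.sum_add_distrib]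
      exact Finset.sum_congr rfl (fun u _ => by ring)
    rw [e1]
    linear_combination ((n : ℤ) - 1) * (2 * δ x b) * hA x a +
      (s * (2 * (n : ℤ) - 2) * io c x b) * hB x a
  rw [Finset.sum_congr rfl (fun x _ => h3 x), Finset.sum_add_distrib,
    sum_io_left hc2 a (fun x => ((n : ℤ) - 1) * Fintype.card G * (2 * δ x b))
      (fun x => by
        change ((n : ℤ) - 1) * Fintype.card G * (2 * δ (c • x) b) = _
        rw [hδ.odd']; ring)]
  have h4 : ∑ x, δ x a * (Fintype.card G * (s * (2 * (n : ℤ) - 2) * io c x b)) =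
      2 * (Fintype.card G * (s * (2 * (n : ℤ) - 2) * δ b a)) := by
    rw [← sum_io_left hc2 b (fun x => Fintype.card G * (s * (2 * (n : ℤ) - 2) * δ x a))
      (fun x => by
        change Fintype.card G * (s * (2 * (n : ℤ) - 2) * δ (c • x) a) = _
        rw [hδ.odd']; ring)]
    exact Finset.sum_congr rfl (fun x _ => by ring)
  rw [h4, hδ.symm b a]
  linear_combination (4 * Fintype.card G * ((n : ℤ) - 1) * δ a b) * hss

end

end Pool.Agent.Helper606_CZ
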