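import Mathlib
import Pool.Agent.Helper606_CZ.K6

/-!
# The traces are not invariant under the commutator subgroup; triples
-/

set_option autoImplicit false

open scoped Classical

namespace Pool.Agent.Helper606_CZ

open Pool.Agent.Q11.CZ

variable {G : Type*} [Group G] [Fintype G] {c : G}
variable {X : Type*} [Fintype X] [MulAction G X]

omit [Fintype G] in
lemma exists_off (h : 2 < Fintype.card X) (x : X) : ∃ y, Off c x y := by
  by_contra hcon
  push Not at hcon
  have h1 : (Finset.univ : Finset X) ⊆ {x, c • x} := by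
    intro y _
    have := hcon y
    unfold Off at this
    rw [not_and_or, not_not, not_not] at this
    simpa using this
  have h2 := Finset.card_le_card h1
  have h3 := Finset.card_le_two (a := x) (b := c • x)
  rw [Finset.card_univ] at h2
  omega

omit [Fintype G] in
lemma exists_off2 (h : 4 < Fintype.card X) (x y : X) : ∃ w, Off c x w ∧ Off c y w := by
  by_contra hcon
  push Not at hcon
  have h1 : (Finset.univ : Finset X) ⊆ ({x, c • x} : Finset X) ∪ {y, c • y} := by
    intro w _
    have h4 := hcon w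
    by_cases hx : Off c x w
    · have h5 := h4 hx
      unfold Off at h5
      rw [not_and_or, not_not, not_not] at h5
      rw [Finset.mem_union]
      right
      simpa using h5
    · unfold Off at hx
      rw [not_and_or, not_not, not_not] at hx
      rw [Finset.mem_union]
      left
      simpa using hx
  have h2 := Finset.card_le_card h1
  have h3 := Finset.card_union_le ({x, c • x} : Finset X) {y, c • y}
  have h4 := Finset.card_le_two (a := x) (b := c • x)
  have h5 := Finset.card_le_two (a := y) (b := c • y)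
  rw [Finset.card_univ] at h2
  omega

section
variable {s : ℤ} {δ : Matrix X X ℤ} (hδ : TG c s δ) (hc : ∀ g, c * g = g * c) (hc2 : c * c = 1)
  (hfree : ∀ x : X, c • x ≠ x) (ht : MulAction.IsPretransitive G X) (h2 : TwoTrans c X)

include hc2

omit [Fintype G] [Fintype X] in
lemma off_c {x y : X} : Off c x (c • y) ↔ Off c x y := by
  unfold Off
  have h1 : c • y = x ↔ y = c • x := by
    constructor
    · rintro rfl; rw [ccs hc2]
    · rintro rfl; rw [ccs hc2]
  have h3 : c • y = c • x ↔ y = x := (MulAction.injective c).eq_iff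
  simp only [ne_eq, h1, h3]
  tauto

omit [Fintype G] [Fintype X] in
lemma off_symm {x y : X} : Off c x y ↔ Off c y x := by
  unfold Off
  have h1 : y = c • x ↔ x = c • y := by
    constructor
    · rintro rfl; rw [ccs hc2]
    · rintro rfl; rw [ccs hc2]
  simp only [ne_eq, h1, eq_comm (a := y) (b := x)]

omit [Fintype G] [Fintype X] in
lemma off_c' {x y : X} : Off c (c • x) y ↔ Off c x y := by
  rw [off_symm hc2, off_c hc2, off_symm hc2]

include hδ hc hfree ht h2

/-- the traces of an exceptional two-graph are not invariant under the commutator subgroup -/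
theorem not_inv {n : ℕ} (hcard : Fintype.card X = 2 * n) (hn : 3 ≤ n)
    (hns : ¬ IsSquare (s * ((n : ℤ) - 1))) (hsq : δ * δ = (s * (2 * (n : ℤ) - 2)) • II c X)
    (htr : ∀ g : G, ∀ z ∈ commutator G,
      tr (fun x y => δ x y) (g * z) = tr (fun x y => δ x y) g) : False := by
  have hX : 0 < Fintype.card X := by omega
  obtain ⟨x0⟩ := Fintype.card_pos_iff.mp hX
  obtain ⟨y0, h0⟩ := exists_off (c := c) (X := X) (by omega) x0
  have hδ0 : δ x0 y0 ≠ 0 := by rcases hδ.off x0 y0 h0 with h | h <;> rw [h] <;> norm_num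
  have hn1 : ((n : ℤ) - 1) ≠ 0 := by omega
  have hn0 : (n : ℤ) ≠ 0 := by omega
  have hG : (Fintype.card G : ℤ) ≠ 0 := by
    have : 0 < Fintype.card G := Fintype.card_pos
    omega
  -- the traces are not all zero
  have hne : ¬ ∀ g : G, tr (fun x y => δ x y) g = 0 := by
    intro h
    have h1 := sum_tr hδ hc hc2 hfree ht h2 hcard hsq x0 y0
    simp only [h, zero_mul, Finset.sum_const_zero, mul_zero] at h1
    have h3 : 8 * ((n : ℤ) - 1) * Fintype.card G * δ x0 y0 ≠ 0 :=
      mul_ne_zero (mul_ne_zero (mul_ne_zero (by norm_num) hn1) hG) hδ0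
    exact h3 h1.symm
  set N : Subgroup G := commutator G with hN
  set k : ℤ := ((Fintype.card N : ℕ) : ℤ) with hk
  have hk0 : k ≠ 0 := by
    have : 0 < Fintype.card N := Fintype.card_pos
    omega
  set e : Matrix X X ℤ := Matrix.of (fun x y => ∑ z : N, io c ((z : G) • x) y) with he
  have hev : ∀ x y, e x y = ∑ z : N, io c ((z : G) • x) y := fun x y => rfl
  obtain ⟨A, B, hAB⟩ := span_kernel hδ hc hc2 hfree ht h2 (R := ℤ) (fun x y => e x y)
    (by
      intro g x y
      simp only [hev]
      refine Fintype.sum_equiv (MulAut.conjNormal g⁻¹).toEquiv _ _ (fun z => ?_)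
      have e1 : ((MulAut.conjNormal g⁻¹ z : N) : G) = g⁻¹ * z * g := by
        rw [MulAut.conjNormal_apply, inv_inv]
      change io c ((z : G) • g • x) (g • y) = io c (((MulAut.conjNormal g⁻¹ z : N) : G) • x) y
      rw [e1, ← io_inv hc g ((g⁻¹ * (z : G) * g) • x) y]
      congr 1
      rw [← mul_smul, ← mul_smul]
      congr 1
      group)
    (by
      intro x y
      simp only [hev, io_c hc2, Finset.sum_neg_distrib])
    (by
      intro x y
      simp only [hev]
      rw [← Finset.sum_neg_distrib]
      refine Finset.sum_congr rfl (fun z _ => ?_)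
      rw [← mul_smul, ← hc, mul_smul, io_c' hc2])
  simp only [Int.cast_id] at hAB
  have hee : e * e = (2 * k) • e := by
    ext x w
    rw [Matrix.mul_apply, Matrix.smul_apply, smul_eq_mul]
    have e1 : ∑ y, e x y * e y w = ∑ z : N, ∑ z' : N, 2 * io c (((z * z' : N) : G) • x) w := by
      simp only [hev, Finset.sum_mul, Finset.mul_sum]
      rw [Finset.sum_comm]
      refine Finset.sum_congr rfl (fun z _ => ?_)
      rw [Finset.sum_comm]
      refine Finset.sum_congr rfl (fun z' _ => ?_)
      rw [sum_io hc2 ((z' : G) • x) (fun y => io c ((z : G) • y) w) (fun y => by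
        change io c ((z : G) • c • y) w = - io c ((z : G) • y) w
        rw [← mul_smul, ← hc, mul_smul, io_c' hc2])]
      rw [Subgroup.coe_mul, mul_smul]
    rw [e1]
    have e2 : ∀ z : N, ∑ z' : N, 2 * io c (((z * z' : N) : G) • x) w = 2 * e x w := by
      intro z
      rw [hev, Finset.mul_sum]
      exact Fintype.sum_equiv (Equiv.mulLeft z) _ _ (fun z' => rfl)
    rw [Finset.sum_congr rfl (fun z _ => e2 z), Finset.sum_const, Finset.card_univ, nsmul_eq_mul]
    rw [hk]; ring
  have hE : e = A • II c X + B • δ := by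
    ext x y
    rw [hAB x y]; rfl
  have hexp : e * e = (2 * A ^ 2 + s * (2 * (n : ℤ) - 2) * B ^ 2) • II c X + (4 * A * B) • δ := by
    have h1 : II c X * δ = (2 : ℤ) • δ := II_mul hc2 δ (fun x y => hδ.odd' x y)
    have h3 : δ * II c X = (2 : ℤ) • δ := mul_II hc2 δ (fun x y => hδ.odd x y)
    have h4 : II c X * II c X = (2 : ℤ) • II c X := mul_II hc2 _ (fun x y => io_c hc2 x y)
    rw [hE, add_mul, mul_add, mul_add]
    simp only [smul_mul_assoc, mul_smul_comm, h1, h3, h4, hsq, smul_smul]
    ext x y
    simp only [Matrix.add_apply, Matrix.smul_apply, smul_eq_mul]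
    ring
  have hcmp : ∀ x y, (2 * A ^ 2 + s * (2 * (n : ℤ) - 2) * B ^ 2) * io c x y + (4 * A * B) * δ x y =
      2 * k * (A * io c x y + B * δ x y) := by
    intro x y
    have h1 : (e * e) x y = (2 * k) * e x y := by rw [hee]; rfl
    rw [hexp, hAB x y] at h1
    exact h1
  have hd := hcmp x0 x0
  rw [io_self hfree, hδ.self] at hd
  have ho := hcmp x0 y0
  have hio0 : io c x0 y0 = 0 := by unfold io; rw [if_neg h0.1, if_neg h0.2]; norm_num
  rw [hio0] at ho
  have hB : B = 0 := by
    by_contra hB
    have h1 : 2 * A = k := by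
      have : (2 * A - k) * (2 * B * δ x0 y0) = 0 := by linarith
      rcases mul_eq_zero.mp this with h | h
      · linarith
      · exact absurd h (mul_ne_zero (mul_ne_zero two_ne_zero hB) hδ0)
    have h3 : s * ((n : ℤ) - 1) * B ^ 2 = A ^ 2 := by
      rw [← h1] at hd
      linarith
    have h4 : B ∣ A := by
      have : B ^ 2 ∣ A ^ 2 := ⟨s * ((n : ℤ) - 1), by rw [← h3]; ring⟩
      exact (Int.pow_dvd_pow_iff two_ne_zero).mp this
    obtain ⟨r, rfl⟩ := h4
    apply hns
    refine ⟨r, ?_⟩
    have h5 : (s * ((n : ℤ) - 1) - r * r) * B ^ 2 = 0 := by linear_combination h3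
    rcases mul_eq_zero.mp h5 with h | h
    · linarith
    · exact absurd h (pow_ne_zero 2 hB)
  subst hB
  have hA : A = 0 ∨ A = k := by
    have : A * (A - k) = 0 := by linarith
    rcases mul_eq_zero.mp this with h | h
    · exact Or.inl h
    · right; linarith
  rcases hA with rfl | rfl
  · -- the subgroup has no invariants
    apply hne
    intro g
    have he0 : ∀ x y, e x y = 0 := by intro x y; rw [hAB]; ring
    have h1 : ∑ z : N, tr (fun x y => δ x y) (g * (z : G)) = k * tr (fun x y => δ x y) g := by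
      rw [Finset.sum_congr rfl (fun (z : N) _ => htr g (z : G) z.2), Finset.sum_const,
        Finset.card_univ, nsmul_eq_mul]
    have h3 : 2 * ∑ z : N, tr (fun x y => δ x y) (g * (z : G)) = 0 := by
      unfold tr
      rw [Finset.sum_comm, Finset.mul_sum]
      refine Finset.sum_eq_zero (fun x _ => ?_)
      have e1 : ∀ z : N, 2 * δ x ((g * (z : G)) • x) =
          ∑ y, io c ((z : G) • x) y * δ (g⁻¹ • x) y := by
        intro z
        rw [sum_io hc2 ((z : G) • x) (fun y => δ (g⁻¹ • x) y) (fun y => hδ.odd _ y)]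
        rw [← hδ.inv g (g⁻¹ • x) ((z : G) • x), smul_inv_smul, mul_smul]
      rw [Finset.mul_sum, Finset.sum_congr rfl (fun z _ => e1 z), Finset.sum_comm]
      refine Finset.sum_eq_zero (fun y _ => ?_)
      rw [← Finset.sum_mul, ← hev, he0, zero_mul]
    rw [h1] at h3
    have : k * tr (fun x y => δ x y) g = 0 := by linarith
    rcases mul_eq_zero.mp this with h | h
    · exact absurd h hk0
    · exact h
  · -- the subgroup acts trivially
    have htriv : ∀ x : X, ∀ z ∈ N, z • x = x := by
      intro x z hz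
      have h1 : ∑ z : N, io c ((z : G) • x) x = ∑ z : N, 1 := by
        rw [← hev, hAB, io_self hfree, hδ.self]
        simp [hk]
      have hle : ∀ z ∈ (Finset.univ : Finset N), io c ((z : G) • x) x ≤ 1 := by
        intro z _
        unfold io
        split_ifs <;> norm_num
      have h3 := (Finset.sum_eq_sum_iff_of_le hle).mp h1 ⟨z, hz⟩ (Finset.mem_univ _)
      unfold io at h3
      by_contra hcon
      rw [if_neg (fun h => hcon h.symm)] at h3
      split_ifs at h3 <;> omega
    obtain ⟨w, hxw, hyw⟩ := exists_off2 (c := c) (X := X) (by omega) x0 y0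
    obtain ⟨k1, hk1⟩ := MulAction.exists_smul_eq G x0 y0
    obtain ⟨g, hg1, hg2⟩ := h2 x0 y0 x0 w h0 hxw
    have h3 : g • y0 = k1 • (g • x0) := by
      have hz : (g⁻¹ * k1⁻¹ * g * k1) ∈ N := by
        have := Subgroup.commutator_mem_commutator (Subgroup.mem_top g⁻¹) (Subgroup.mem_top k1⁻¹)
        rw [commutatorElement_def, inv_inv, inv_inv] at this
        exact this
      have h4 := htriv x0 _ hz
      rw [← hk1, ← mul_smul, ← mul_smul]
      conv_rhs => rw [← h4]
      rw [← mul_smul]
      congr 1
      group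
    have h5 : g • y0 = y0 ∨ g • y0 = c • y0 := by
      rw [h3]
      rcases hg1 with h | h
      · left; rw [h, hk1]
      · right; rw [h, ← mul_smul, ← hc, mul_smul, hk1]
    rcases hg2 with h | h <;> rcases h5 with h' | h'
    · exact hyw.1 (h.symm.trans h')
    · exact hyw.2 (h.symm.trans h')
    · apply hyw.2
      rw [← h', h, ccs hc2]
    · apply hyw.1
      have := h.symm.trans h'
      exact (MulAction.injective c) this

omit [Fintype G] in
omit h2 hc ht in
/-- the group does not act transitively on triples -/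
theorem not_three {n : ℕ} (hcard : Fintype.card X = 2 * n) (hn : 3 ≤ n)
    (hsq : δ * δ = (s * (2 * (n : ℤ) - 2)) • II c X)
    (h3 : ∀ x y z x' y' z' : X, Off c x y → Off c x z → Off c y z → Off c x' y' → Off c x' z' →
      Off c y' z' → ∃ g : G, (g • x = x' ∨ g • x = c • x') ∧ (g • y = y' ∨ g • y = c • y') ∧
        (g • z = z' ∨ g • z = c • z')) : False := by
  have hX : 0 < Fintype.card X := by omega
  obtain ⟨x0⟩ := Fintype.card_pos_iff.mp hX
  obtain ⟨z0, h0⟩ := exists_off (c := c) (X := X) (by omega) x0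
  obtain ⟨y0, h1, h1'⟩ := exists_off2 (c := c) (X := X) (by omega) x0 z0
  have hconst : ∀ x y z x' y' z' : X, Off c x y → Off c x z → Off c y z → Off c x' y' →
      Off c x' z' → Off c y' z' → δ x y * δ y z * δ z x = δ x' y' * δ y' z' * δ z' x' := by
    intro x y z x' y' z' e1 e2 e3 e4 e5 e6
    obtain ⟨g, hg1, hg2, hg3⟩ := h3 x y z x' y' z' e1 e2 e3 e4 e5 e6
    have e : δ x y * δ y z * δ z x =
        δ (g • x) (g • y) * δ (g • y) (g • z) * δ (g • z) (g • x) := by
      rw [hδ.inv, hδ.inv, hδ.inv]
    rw [e]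
    rcases hg1 with hg1 | hg1 <;> rcases hg2 with hg2 | hg2 <;> rcases hg3 with hg3 | hg3 <;>
      rw [hg1, hg2, hg3] <;> simp only [hδ.odd, hδ.odd'] <;> ring
  have e1 : δ x0 y0 ≠ 0 := by rcases hδ.off x0 y0 h1 with h | h <;> rw [h] <;> norm_num
  have e2 : δ y0 z0 ≠ 0 := by
    rcases hδ.off y0 z0 ((off_symm hc2).mp h1') with h | h <;> rw [h] <;> norm_num
  have e3 : δ z0 x0 ≠ 0 := by
    rcases hδ.off z0 x0 ((off_symm hc2).mp h0) with h | h <;> rw [h] <;> norm_num
  rcases hδ.sign with hs | hs
  · have hconst' : ∀ y, Off c x0 y → Off c z0 y →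
        δ x0 y * δ y z0 * δ z0 x0 = δ x0 y0 * δ y0 z0 * δ z0 x0 := by
      intro y hy hy'
      exact hconst x0 y z0 x0 y0 z0 hy h0 ((off_symm hc2).mp hy') h1 h0 ((off_symm hc2).mp h1')
    have hsum : ∑ y, δ x0 y * δ y z0 * δ z0 x0 = 0 := by
      rw [← Finset.sum_mul, ← Matrix.mul_apply, hsq]
      have : io c x0 z0 = 0 := by unfold io; rw [if_neg h0.1, if_neg h0.2]; norm_num
      change (s * (2 * (n : ℤ) - 2)) * io c x0 z0 * δ z0 x0 = 0
      rw [this]; ring
    have hterm : ∀ y, δ x0 y * δ y z0 * δ z0 x0 =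
        if Off c x0 y ∧ Off c z0 y then δ x0 y0 * δ y0 z0 * δ z0 x0 else 0 := by
      intro y
      split_ifs with h
      · exact hconst' y h.1 h.2
      · rw [not_and_or] at h
        rcases h with h | h
        · rcases hδ.zero_or x0 y with h' | h'
          · rw [h'.1]; ring
          · exact absurd h'.1 h
        · rcases hδ.zero_or z0 y with h' | h'
          · rw [hδ.symm y z0, h'.1]; ring
          · exact absurd h'.1 h
    rw [Finset.sum_congr rfl (fun y _ => hterm y), ← Finset.sum_filter, Finset.sum_const,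
      nsmul_eq_mul] at hsum
    rcases mul_eq_zero.mp hsum with h | h
    · have : 0 < (Finset.univ.filter fun y : X => Off c x0 y ∧ Off c z0 y).card :=
        Finset.card_pos.mpr ⟨y0, by simp [h1, h1']⟩
      omega
    · exact mul_ne_zero (mul_ne_zero e1 e2) e3 h
  · have h5 := hconst x0 y0 z0 z0 y0 x0 h1 h0 ((off_symm hc2).mp h1') h1'
      ((off_symm hc2).mp h0) ((off_symm hc2).mp h1)
    rw [hδ.symm z0 y0, hδ.symm y0 x0, hδ.symm x0 z0, hs] at h5
    have h6 : 2 * (δ x0 y0 * δ y0 z0 * δ z0 x0) = 0 := by
      linear_combination h5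
    rcases mul_eq_zero.mp h6 with h | h
    · norm_num at h
    · exact mul_ne_zero (mul_ne_zero e1 e2) e3 h

end

end Pool.Agent.Helper606_CZ
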