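import Mathlib
import Pool.Agent.Helper606_CZ.K7
import Pool.Agent.Q11.CZ.Ab

/-!
# The kernels of Colmez's functions
-/

set_option autoImplicit false

open scoped Classical

namespace Pool.Agent.Helper606_CZ

open Pool.Agent.Q11.CZ

variable {G : Type*} [Group G] [Fintype G] {c : G}
variable {X : Type*} [Fintype X] [MulAction G X]

variable (G) in
/-- the kernel of the function of `x` and `Φ` -/
noncomputable def Nk (x : X) (Φ : Finset X) (u v : X) : ℚ :=
  ∑ h : G, if h • x = u then sg Φ (h⁻¹ • v) else 0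

omit [Fintype X] in
lemma nk_smul (x : X) (Φ : Finset X) (g : G) (u v : X) :
    Nk G x Φ (g • u) (g • v) = Nk G x Φ u v := by
  unfold Nk
  refine Fintype.sum_equiv (Equiv.mulLeft g⁻¹) _ _ (fun h => ?_)
  simp only [Equiv.coe_mulLeft, mul_smul, mul_inv_rev, inv_inv, inv_smul_eq_iff]

omit [Fintype X] in
lemma nk_c (hc : ∀ g, c * g = g * c) {Φ : Finset X} (hΦ : IsHalf c Φ) (x u v : X) :
    Nk G x Φ u (c • v) = - Nk G x Φ u v := by
  unfold Nk
  rw [← Finset.sum_neg_distrib]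
  refine Finset.sum_congr rfl (fun h _ => ?_)
  rw [← mul_smul, ← hc, mul_smul, sg_c hΦ]
  split_ifs <;> simp

omit [Fintype X] in
lemma nk_c' (hc : ∀ g, c * g = g * c) (hc2 : c * c = 1) {Φ : Finset X} (hΦ : IsHalf c Φ)
    (x u v : X) : Nk G x Φ (c • u) v = - Nk G x Φ u v := by
  have h1 := nk_smul (G := G) x Φ c u (c • v)
  rw [nk_c hc hΦ x u v, ← mul_smul, hc2, one_smul] at h1
  exact h1

lemma a0_formula (x : X) (Φ : Finset X) (g : G) :
    a0 x Φ g = 1 / 2 + tr (Nk G x Φ) g / (2 * Fintype.card G) := by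
  rw [a0_eq_cav]
  unfold cav
  have h1 : ∀ h : G, (if (h⁻¹ * g * h) • x ∈ Φ then (1 : ℚ) else 0) =
      1 / 2 + (∑ u : X, if h • x = u then sg Φ (h⁻¹ • (g • u)) else 0) / 2 := by
    intro h
    rw [Finset.sum_ite_eq, if_pos (Finset.mem_univ _)]
    unfold sg
    rw [mul_smul, mul_smul]
    split_ifs <;> norm_num
  rw [Finset.sum_congr rfl (fun h _ => h1 h), Finset.sum_add_distrib, ← Finset.sum_div,
    ← Finset.sum_div]
  have h2 : (∑ h : G, ∑ u : X, if h • x = u then sg Φ (h⁻¹ • (g • u)) else 0) =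
      tr (Nk G x Φ) g := by
    rw [Finset.sum_comm]
    rfl
  rw [h2, Finset.sum_const, Finset.card_univ, nsmul_eq_mul]
  have h3 := card_ne (G := G)
  field_simp

/-- the scalar product with an invariant kernel -/
lemma nk_pair {s : ℤ} {δ : Matrix X X ℤ} (hδ : TG c s δ) (x : X) (Φ : Finset X) :
    ∑ u, ∑ v, Nk G x Φ u v * (δ u v : ℚ) = Fintype.card G * ∑ v, sg Φ v * (δ x v : ℚ) := by
  have h1 : ∀ u, ∑ v, Nk G x Φ u v * (δ u v : ℚ) =
      ∑ h : G, if h • x = u then ∑ v, sg Φ (h⁻¹ • v) * (δ (h • x) v : ℚ) else 0 := by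
    intro u
    unfold Nk
    simp only [Finset.sum_mul]
    rw [Finset.sum_comm]
    refine Finset.sum_congr rfl (fun h _ => ?_)
    by_cases hu : h • x = u
    · simp only [if_pos hu]
      rw [hu]
    · simp only [if_neg hu, zero_mul, Finset.sum_const_zero]
  simp only [h1]
  rw [Finset.sum_comm]
  have h2 : ∀ h : G, (∑ u : X, if h • x = u then ∑ v, sg Φ (h⁻¹ • v) * (δ (h • x) v : ℚ) else 0) =
      ∑ v, sg Φ v * (δ x v : ℚ) := by
    intro h
    rw [Finset.sum_ite_eq, if_pos (Finset.mem_univ _)]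
    refine Fintype.sum_equiv (MulAction.toPerm h⁻¹) _ _ (fun v => ?_)
    simp only [MulAction.toPerm_apply]
    rw [← hδ.inv h x (h⁻¹ • v), smul_inv_smul]
  rw [Finset.sum_congr rfl (fun h _ => h2 h), Finset.sum_const, Finset.card_univ, nsmul_eq_mul]

omit [Fintype G] in
/-- the row sums over a half-system are odd -/
lemma row_odd {s : ℤ} {δ : Matrix X X ℤ} (hδ : TG c s δ) (hc2 : c * c = 1) {Φ : Finset X}
    (hΦ : IsHalf c Φ) (h2 : Φ.card % 2 = 0) (x : X) : ∑ v, sg Φ v * (δ x v : ℚ) ≠ 0 := by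
  have hΦ' : IsHalf c Φ := hΦ
  rw [sum_even hc2 hΦ (fun v => sg Φ v * (δ x v : ℚ)) (fun v => by
    rw [sg_c hΦ, hδ.odd]; push_cast; ring)]
  have h1 : ∑ v ∈ Φ, sg Φ v * (δ x v : ℚ) = ((∑ v ∈ Φ, δ x v : ℤ) : ℚ) := by
    push_cast
    refine Finset.sum_congr rfl (fun v hv => ?_)
    unfold sg
    rw [if_pos hv, one_mul]
  rw [h1]
  -- the element of `Φ` in the pair of `x`
  obtain ⟨x', hx', hx''⟩ : ∃ x' ∈ Φ, ¬ Off c x x' := by
    by_cases hx : x ∈ Φ
    · exact ⟨x, hx, fun h => h.1 rfl⟩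
    · exact ⟨c • x, (hΦ x).mpr hx, fun h => h.2 rfl⟩
  have huniq : ∀ v ∈ Φ.erase x', Off c x v := by
    intro v hv
    rw [Finset.mem_erase] at hv
    by_contra hcon
    unfold Off at hcon hx''
    rw [not_and_or, not_not, not_not] at hcon hx''
    rcases hcon with h | h <;> rcases hx'' with h' | h'
    · exact hv.1 (h.trans h'.symm)
    · rw [h'] at hx'
      rw [h] at hv
      exact ((hΦ x).mp hx') hv.2
    · rw [h'] at hx'
      rw [h] at hv
      exact ((hΦ x).mp hv.2) hx'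
    · exact hv.1 (h.trans h'.symm)
  have hzero : δ x x' = 0 := by
    rcases hδ.zero_or x x' with h | h
    · exact h.1
    · exact absurd h.1 hx''
  have hmod : (∑ v ∈ Φ, δ x v) % 2 = 1 := by
    rw [← Finset.add_sum_erase Φ _ hx', hzero, zero_add]
    have h3 : ∀ v ∈ Φ.erase x', δ x v = 1 - 2 * (if δ x v = -1 then 1 else 0) := by
      intro v hv
      rcases hδ.off x v (huniq v hv) with h | h <;> rw [h] <;> norm_num
    rw [Finset.sum_congr rfl h3, Finset.sum_sub_distrib, ← Finset.mul_sum]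
    have h4 : (Φ.erase x').card = Φ.card - 1 := Finset.card_erase_of_mem hx'
    have h5 : 0 < Φ.card := Finset.card_pos.mpr ⟨x', hx'⟩
    simp only [Finset.sum_const, nsmul_eq_mul, mul_one, h4]
    omega
  intro h
  have h6 : ((∑ v ∈ Φ, δ x v : ℤ) : ℚ) = 0 := by linarith
  have h7 : ∑ v ∈ Φ, δ x v = 0 := by exact_mod_cast h6
  rw [h7] at hmod
  norm_num at hmod

end Pool.Agent.Helper606_CZ
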