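import Mathlib
import Pool.Agent.Helper606_CZ.K8

/-!
# The span of Colmez's functions of a transitive set
-/

set_option autoImplicit false

open scoped Classical

namespace Pool.Agent.Helper606_CZ

open Pool.Agent.Q11.CZ

variable {G : Type*} [Group G] [Fintype G] {c : G}
variable {X : Type*} [Fintype X] [MulAction G X]

variable (c) in
/-- the elementary functions -/
noncomputable def Dd (x y : X) (g : G) : ℤ := ∑ η : G, io c (η • y) (g • η • x)

omit [Fintype G] [Fintype X] in
lemma sg_eq (hc2 : c * c = 1) {Φ : Finset X} (hΦ : IsHalf c Φ) (z : X) :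
    sg Φ z = ∑ y ∈ Φ, (io c y z : ℚ) := by
  unfold sg io
  push_cast
  rw [Finset.sum_sub_distrib, Finset.sum_ite_eq]
  have h1 : ∀ y : X, z = c • y ↔ c • z = y := by
    intro y
    constructor
    · rintro rfl; rw [ccs hc2]
    · rintro rfl; rw [ccs hc2]
  simp only [h1]
  rw [Finset.sum_ite_eq]
  by_cases h : z ∈ Φ
  · rw [if_pos h, if_pos h, if_neg (fun h' => (hΦ z).mp h' h)]; norm_num
  · rw [if_neg h, if_neg h, if_pos ((hΦ z).mpr h)]; norm_num

omit [Fintype X] in
lemma a0_dd (hc : ∀ g, c * g = g * c) (hc2 : c * c = 1) (x : X) {Φ : Finset X}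
    (hΦ : IsHalf c Φ) (g : G) :
    a0 x Φ g = 1 / 2 + (∑ y ∈ Φ, (Dd c x y g : ℚ)) / (2 * Fintype.card G) := by
  rw [a0_eq_cav]
  unfold cav
  have h1 : ∀ h : G, (if (h⁻¹ * g * h) • x ∈ Φ then (1 : ℚ) else 0) =
      1 / 2 + (∑ y ∈ Φ, (io c (h • y) (g • h • x) : ℚ)) / 2 := by
    intro h
    have e1 : ∀ y : X, io c (h • y) (g • h • x) = io c y ((h⁻¹ * g * h) • x) := by
      intro y
      rw [← io_inv hc h y ((h⁻¹ * g * h) • x), ← mul_smul, ← mul_smul]
      congr 2
      group
    simp only [e1]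
    rw [← sg_eq hc2 hΦ]
    unfold sg
    split_ifs <;> norm_num
  rw [Finset.sum_congr rfl (fun h _ => h1 h), Finset.sum_add_distrib, ← Finset.sum_div,
    ← Finset.sum_div, Finset.sum_comm]
  unfold Dd
  push_cast
  have h3 := card_ne (G := G)
  rw [Finset.sum_const, Finset.card_univ, nsmul_eq_mul]
  field_simp

omit [Fintype X] in
lemma dd_c (hc : ∀ g, c * g = g * c) (hc2 : c * c = 1) (x y : X) (g : G) :
    Dd c x (c • y) g = - Dd c x y g := by
  unfold Dd
  rw [← Finset.sum_neg_distrib]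
  refine Finset.sum_congr rfl (fun η _ => ?_)
  rw [← mul_smul η c y, ← hc, mul_smul, io_c' hc2]

omit [Fintype X] in
lemma dd_c' (hc : ∀ g, c * g = g * c) (hc2 : c * c = 1) (x y : X) (g : G) :
    Dd c (c • x) y g = - Dd c x y g := by
  unfold Dd
  rw [← Finset.sum_neg_distrib]
  refine Finset.sum_congr rfl (fun η _ => ?_)
  have : g • η • c • x = c • g • η • x := by
    simp only [← mul_smul]
    congr 1
    rw [← hc η, ← mul_assoc, ← hc g, mul_assoc]
  rw [this, io_c hc2]

omit [Fintype X] in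
lemma dd_swap (hc : ∀ g, c * g = g * c) (hc2 : c * c = 1) (x y : X) (g : G) :
    Dd c y x g = Dd c x y g⁻¹ := by
  unfold Dd
  refine Finset.sum_congr rfl (fun η _ => ?_)
  rw [io_symm hc2, ← io_inv hc g⁻¹ (g • η • y) (η • x), inv_smul_smul]

omit [Fintype X] in
lemma dd_conj (hc : ∀ g, c * g = g * c) (x y : X) (g t : G) :
    Dd c x y (t * g * t⁻¹) = Dd c x y g := by
  unfold Dd
  refine Fintype.sum_equiv (Equiv.mulLeft t⁻¹) _ _ (fun η => ?_)
  simp only [Equiv.coe_mulLeft]
  rw [← io_inv hc t ((t⁻¹ * η) • y) (g • (t⁻¹ * η) • x)]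
  simp only [← mul_smul]
  congr 2
  · group
  · group

lemma dd_self (ht : MulAction.IsPretransitive G X) (x : X) (g : G) :
    (Fintype.card X : ℤ) * Dd c x x g = Fintype.card G * tr (io c : X → X → ℤ) g := by
  have h1 : ∀ x' : X, Dd c x' x' g = Dd c x x g := by
    intro x'
    obtain ⟨k, rfl⟩ := MulAction.exists_smul_eq G x x'
    unfold Dd
    refine Fintype.sum_equiv (Equiv.mulRight k) _ _ (fun η => ?_)
    simp only [Equiv.coe_mulRight, mul_smul]
  have h2 : ∑ x' : X, Dd c x' x' g = Fintype.card G * tr (io c : X → X → ℤ) g := by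
    unfold Dd tr
    rw [Finset.sum_comm]
    have : ∀ η : G, ∑ x' : X, io c (η • x') (g • η • x') = ∑ x : X, io c x (g • x) := by
      intro η
      exact Equiv.sum_comp (MulAction.toPerm η) (fun x => io c x (g • x))
    rw [Finset.sum_congr rfl (fun η _ => this η), Finset.sum_const, Finset.card_univ,
      nsmul_eq_mul]
  rw [← h2, Finset.sum_congr rfl (fun x' _ => h1 x'), Finset.sum_const, Finset.card_univ,
    nsmul_eq_mul]

omit [Fintype X] in
/-- replacing a point of a half-system -/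
lemma toggle {Φ : Finset X} (hΦ : IsHalf c Φ) (hc2 : c * c = 1) {y : X} (hy : y ∈ Φ) :
    IsHalf c (insert (c • y) (Φ.erase y)) := by
  intro z
  have hcy : c • y ∉ Φ := fun h => (hΦ y).mp h hy
  have h1 := hΦ z
  have h2 : c • z = c • y ↔ z = y := (MulAction.injective c).eq_iff
  have h3 : c • z = y ↔ z = c • y := by
    constructor
    · rintro rfl; rw [ccs hc2]
    · rintro rfl; rw [ccs hc2]
  simp only [Finset.mem_insert, Finset.mem_erase, ne_eq, h2, h3]
  by_cases hz : z = y
  · subst hz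
    have : ¬ z = c • z := fun h => hcy (h ▸ hy)
    tauto
  · by_cases hz' : z = c • y
    · subst hz'
      tauto
    · tauto

/-- the first space -/
theorem mem_iff_dd (hc : ∀ g, c * g = g * c) (hc2 : c * c = 1) (V : Submodule ℚ (G → ℚ))
    (h1 : (fun _ => 1 : G → ℚ) ∈ V) (hex : ∃ Φ : Finset X, IsHalf c Φ) :
    (∀ (x : X) (Φ : Finset X), IsHalf c Φ → a0 x Φ ∈ V) ↔
      ∀ x y : X, (fun g => (Dd c x y g : ℚ)) ∈ V := by
  have hG := card_ne (G := G)
  constructor
  · intro h x y
    obtain ⟨Φ, hΦ⟩ := hex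
    -- it is enough to consider the points of the half-system
    have key : ∀ y ∈ Φ, (fun g => (Dd c x y g : ℚ)) ∈ V := by
      intro y hy
      have hcy : c • y ∉ Φ := fun h => (hΦ y).mp h hy
      have e : (fun g => (Dd c x y g : ℚ)) =
          (Fintype.card G : ℚ) • (a0 x Φ - a0 x (insert (c • y) (Φ.erase y))) := by
        funext g
        rw [Pi.smul_apply, Pi.sub_apply, a0_dd hc hc2 x hΦ, a0_dd hc hc2 x (toggle hΦ hc2 hy),
          Finset.sum_insert (fun h => hcy (Finset.mem_of_mem_erase h)), dd_c hc hc2,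
          ← Finset.add_sum_erase Φ _ hy, smul_eq_mul]
        push_cast
        field_simp
        ring
      rw [e]
      exact V.smul_mem _ (V.sub_mem (h x Φ hΦ) (h x _ (toggle hΦ hc2 hy)))
    by_cases hy : y ∈ Φ
    · exact key y hy
    · have h2 := key (c • y) ((hΦ y).mpr hy)
      have e : (fun g => (Dd c x y g : ℚ)) = -(fun g => (Dd c x (c • y) g : ℚ)) := by
        funext g
        rw [Pi.neg_apply, dd_c hc hc2]
        push_cast; ring
      rw [e]
      exact V.neg_mem h2
  · intro h x Φ hΦ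
    have e : a0 x Φ = (1 / 2 : ℚ) • (fun _ => 1 : G → ℚ) +
        (1 / (2 * Fintype.card G) : ℚ) • ∑ y ∈ Φ, (fun g => (Dd c x y g : ℚ)) := by
      funext g
      rw [a0_dd hc hc2 x hΦ, Pi.add_apply, Pi.smul_apply, Pi.smul_apply, Finset.sum_apply,
        smul_eq_mul, smul_eq_mul]
      ring
    rw [e]
    exact V.add_mem (V.smul_mem _ h1) (V.smul_mem _ (V.sum_mem (fun y _ => h x y)))

/-- the sum over a half-system -/
lemma T_dd (hc : ∀ g, c * g = g * c) (hc2 : c * c = 1) {Φ : Finset X}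
    (hΦ : IsHalf c Φ) (g : G) :
    T Φ g = Φ.card / 2 + (∑ x ∈ Φ, ∑ y ∈ Φ, (Dd c x y g : ℚ)) / (2 * Fintype.card G) := by
  unfold T
  rw [Finset.sum_congr rfl (fun x _ => a0_dd hc hc2 x hΦ g), Finset.sum_add_distrib,
    ← Finset.sum_div, ← Finset.sum_div]
  simp only [Finset.sum_const, nsmul_eq_mul]
  ring

/-- the second space -/
theorem T_mem_iff_dd (hc : ∀ g, c * g = g * c) (hc2 : c * c = 1) (V : Submodule ℚ (G → ℚ))
    (h1 : (fun _ => 1 : G → ℚ) ∈ V) (hex : ∃ Φ : Finset X, IsHalf c Φ)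
    (hself : ∀ x : X, (fun g => (Dd c x x g : ℚ)) ∈ V) :
    (∀ Φ : Finset X, IsHalf c Φ → T Φ ∈ V) ↔
      ∀ x y : X, (fun g => (Dd c x y g : ℚ) + (Dd c y x g : ℚ)) ∈ V := by
  have hG := card_ne (G := G)
  have hcself : ∀ x : X, (fun g => (Dd c x x g : ℚ) + (Dd c x x g : ℚ)) ∈ V := by
    intro x
    exact V.add_mem (hself x) (hself x)
  constructor
  · intro h x y
    -- a half-system containing both points
    have key : ∀ (Φ : Finset X), IsHalf c Φ → ∀ x ∈ Φ, ∀ y ∈ Φ, x ≠ y →
        (fun g => (Dd c x y g : ℚ) + (Dd c y x g : ℚ)) ∈ V := by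
      intro Φ hΦ x hx y hy hxy
      have hcx : c • x ∉ Φ := fun h => (hΦ x).mp h hx
      have hcy : c • y ∉ Φ := fun h => (hΦ y).mp h hy
      set S := (Φ.erase x).erase y with hS
      have hy' : y ∈ Φ.erase x := Finset.mem_erase.mpr ⟨hxy.symm, hy⟩
      -- the four half-systems
      have hxX : c • x ≠ x := fun h => hcx (by rw [h]; exact hx)
      have hyY : c • y ≠ y := fun h => hcy (by rw [h]; exact hy)
      have hcxy : c • x ≠ y := fun h => hcx (h ▸ hy)
      have hcyx : c • y ≠ x := fun h => hcy (h ▸ hx)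
      have hcc : c • x ≠ c • y := fun h => hxy (MulAction.injective c h)
      have hxS : x ∉ S := by simp [hS]
      have hyS : y ∉ S := by simp [hS]
      have hcxS : c • x ∉ S := fun h => hcx (Finset.mem_of_mem_erase (Finset.mem_of_mem_erase h))
      have hcyS : c • y ∉ S := fun h => hcy (Finset.mem_of_mem_erase (Finset.mem_of_mem_erase h))
      have e0 : Φ = insert x (insert y S) := by
        rw [hS, Finset.insert_erase hy', Finset.insert_erase hx]
      have e1 : insert (c • x) (Φ.erase x) = insert (c • x) (insert y S) := by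
        rw [hS, Finset.insert_erase hy']
      have e2 : insert (c • y) (Φ.erase y) = insert x (insert (c • y) S) := by
        rw [hS, Finset.insert_comm x, Finset.erase_right_comm, Finset.insert_erase
          (Finset.mem_erase.mpr ⟨hxy, hx⟩)]
      have hΦ1 : IsHalf c (insert (c • x) (insert y S)) := e1 ▸ toggle hΦ hc2 hx
      have hΦ2 : IsHalf c (insert x (insert (c • y) S)) := e2 ▸ toggle hΦ hc2 hy
      have hΦ3 : IsHalf c (insert (c • x) (insert (c • y) S)) := by
        have h5 := toggle hΦ2 hc2 (y := x) (Finset.mem_insert_self _ _)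
        rwa [Finset.erase_insert (by
          rw [Finset.mem_insert, not_or]; exact ⟨fun h => hcyx h.symm, hxS⟩)] at h5
      have hΦ0 : IsHalf c (insert x (insert y S)) := e0 ▸ hΦ
      have hsum : ∀ (a b : X), a ≠ b → a ∉ S → b ∉ S → ∀ g : G,
          ∑ u ∈ insert a (insert b S), ∑ v ∈ insert a (insert b S), (Dd c u v g : ℚ) =
          (Dd c a a g + Dd c b b g + Dd c a b g + Dd c b a g : ℚ) +
            (∑ v ∈ S, (Dd c a v g : ℚ) + ∑ v ∈ S, (Dd c b v g : ℚ) +
            ∑ u ∈ S, (Dd c u a g : ℚ) + ∑ u ∈ S, (Dd c u b g : ℚ)) +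
            ∑ u ∈ S, ∑ v ∈ S, (Dd c u v g : ℚ) := by
        intro a b hab ha hb g
        have ha' : a ∉ insert b S := by
          rw [Finset.mem_insert, not_or]; exact ⟨hab, ha⟩
        simp only [Finset.sum_insert ha', Finset.sum_insert hb, Finset.sum_add_distrib]
        ring
      have e : (fun g => (Dd c x y g : ℚ) + (Dd c y x g : ℚ)) =
          ((Fintype.card G : ℚ) / 2) • (T (insert x (insert y S)) -
            T (insert (c • x) (insert y S)) - T (insert x (insert (c • y) S)) +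
            T (insert (c • x) (insert (c • y) S))) := by
        funext g
        have hcard : ∀ a b : X, a ≠ b → a ∉ S → b ∉ S →
            (insert a (insert b S)).card = S.card + 2 := by
          intro a b hab ha hb
          rw [Finset.card_insert_of_notMem (by
            rw [Finset.mem_insert, not_or]; exact ⟨hab, ha⟩), Finset.card_insert_of_notMem hb]
        rw [Pi.smul_apply, Pi.add_apply, Pi.sub_apply, Pi.sub_apply, T_dd hc hc2 hΦ0,
          T_dd hc hc2 hΦ1, T_dd hc hc2 hΦ2, T_dd hc hc2 hΦ3,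
          hsum x y hxy hxS hyS, hsum (c • x) y hcxy hcxS hyS,
          hsum x (c • y) hcyx.symm hxS hcyS, hsum (c • x) (c • y) hcc hcxS hcyS,
          hcard x y hxy hxS hyS, hcard (c • x) y hcxy hcxS hyS,
          hcard x (c • y) hcyx.symm hxS hcyS, hcard (c • x) (c • y) hcc hcxS hcyS, smul_eq_mul]
        simp only [dd_c hc hc2, dd_c' hc hc2, neg_neg]
        push_cast
        simp only [Finset.sum_neg_distrib]
        field_simp
        ring
      rw [e]
      exact V.smul_mem _ (V.add_mem (V.sub_mem (V.sub_mem (h _ hΦ0) (h _ hΦ1)) (h _ hΦ2))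
        (h _ hΦ3))
    obtain ⟨Φ, hΦ⟩ := hex
    -- reduce to points of the half-system
    have hred : ∀ x : X, ∃ (s : ℚ) (x' : X), x' ∈ Φ ∧ (∀ z g, (Dd c x z g : ℚ) = s * Dd c x' z g) ∧
        ∀ z g, (Dd c z x g : ℚ) = s * Dd c z x' g := by
      intro x
      by_cases hx : x ∈ Φ
      · exact ⟨1, x, hx, fun z g => by rw [one_mul], fun z g => by rw [one_mul]⟩
      · refine ⟨-1, c • x, (hΦ x).mpr hx, fun z g => ?_, fun z g => ?_⟩
        · rw [dd_c' hc hc2]; push_cast; ring
        · rw [dd_c hc hc2]; push_cast; ring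
    obtain ⟨s, x', hx', hs1, hs2⟩ := hred x
    obtain ⟨t, y', hy', ht1, ht2⟩ := hred y
    have e : (fun g => (Dd c x y g : ℚ) + (Dd c y x g : ℚ)) =
        (s * t) • (fun g => (Dd c x' y' g : ℚ) + (Dd c y' x' g : ℚ)) := by
      funext g
      rw [Pi.smul_apply, smul_eq_mul, hs1, ht2, hs2, ht1]
      ring
    rw [e]
    apply V.smul_mem
    by_cases hxy : x' = y'
    · rw [hxy]; exact hcself y'
    · exact key Φ hΦ x' hx' y' hy' hxy
  · intro h Φ hΦ
    have e : T Φ = ((Φ.card : ℚ) / 2) • (fun _ => 1 : G → ℚ) +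
        (1 / (4 * Fintype.card G) : ℚ) •
          ∑ x ∈ Φ, ∑ y ∈ Φ, (fun g => (Dd c x y g : ℚ) + (Dd c y x g : ℚ)) := by
      funext g
      rw [T_dd hc hc2 hΦ, Pi.add_apply, Pi.smul_apply, Pi.smul_apply, Finset.sum_apply,
        smul_eq_mul, smul_eq_mul, mul_one]
      simp only [Finset.sum_apply, Finset.sum_add_distrib]
      rw [Finset.sum_comm (f := fun x y => (Dd c y x g : ℚ))]
      field_simp
      ring
    rw [e]
    exact V.add_mem (V.smul_mem _ h1) (V.smul_mem _ (V.sum_mem (fun x _ => V.sum_mem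
      (fun y _ => h x y))))

end Pool.Agent.Helper606_CZ
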