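import Mathlib
import Pool.Agent.Helper606_LC.Core
import Pool.Agent.R389.RatOne

/-!
# Characters and cosets of a subgroup
-/

set_option autoImplicit false
set_option linter.unusedSectionVars false

open scoped Classical

namespace Pool.Agent.Helper606_CZ

open Pool.Agent.H541R3.ART Pool.Agent.W446.AS Pool.Agent.R389 Pool.Agent.Helper606_LC

variable {G : Type} [Group G] [Fintype G]

/-- the contragredient -/
def iv (χ : G → ℂ) : G → ℂ := fun g => χ g⁻¹

lemma iv_star {χ : G → ℂ} (hχ : χ ∈ Irr G) (g : G) : iv χ g = (starRingEnd ℂ) (χ g) :=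
  heil_conj (irr_heilbronn hχ) g

lemma iv_irr {χ : G → ℂ} (hχ : χ ∈ Irr G) : iv χ ∈ Irr G := by
  have h := irr_aut (Complex.conjAe.toRingEquiv) hχ
  have e : iv χ = fun g => Complex.conjAe.toRingEquiv (χ g) := by
    funext g
    exact iv_star hχ g
  rw [e]; exact h

lemma iv_iv (χ : G → ℂ) : iv (iv χ) = χ := by
  funext g
  change χ (g⁻¹)⁻¹ = χ g
  rw [inv_inv]

lemma irr_comm {χ : G → ℂ} (hχ : χ ∈ Irr G) (a b : G) : χ (a * b) = χ (b * a) := by
  have := Irr.conj hχ (a * b) b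
  rw [← this]
  congr 1
  group

lemma irr_one {χ : G → ℂ} (hχ : χ ∈ Irr G) : χ 1 ≠ 0 := by
  obtain ⟨d, hd, h⟩ := irr_deg_pos hχ
  rw [h]
  exact_mod_cast hd.ne'

/-- convolution with a class function -/
lemma conv {χ : G → ℂ} (hχ : χ ∈ Irr G) {a : G → ℂ} (ha : ∀ g x : G, a (x * g * x⁻¹) = a g)
    (y : G) : χ 1 * ∑ k, a k * χ (k⁻¹ * y) = (pr a χ * Nat.card G) * χ y := by
  obtain ⟨n, ρ, hρ, rfl⟩ := exists_rep hχ
  obtain ⟨c, hc1, hc2⟩ := hρ.class_op ha
  rw [sum_eq_pr] at hc2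
  have h1 : ρ.character 1 = Module.finrank ℂ (Fin n → ℂ) := ρ.char_one
  have h2 : ∑ k, a k * ρ.character (k⁻¹ * y) = c * ρ.character y := by
    have h3 : (∑ k, a k • (ρ k⁻¹ * ρ y)) = c • ρ y := by
      refine LinearMap.ext fun v => ?_
      rw [LinearMap.sum_apply, LinearMap.smul_apply, ← hc1 (ρ y v)]
      rfl
    have h4 := congrArg (LinearMap.trace ℂ (Fin n → ℂ)) h3
    rw [map_sum, map_smul] at h4
    rw [smul_eq_mul] at h4
    change _ = c * LinearMap.trace ℂ (Fin n → ℂ) (ρ y)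
    rw [← h4]
    refine Finset.sum_congr rfl fun k _ => ?_
    rw [map_smul, ← map_mul]
    rfl
  rw [h2, h1, hc2]
  ring

/-- the sum over a coset -/
noncomputable def Th (H : Subgroup G) (χ : G → ℂ) (k : G) : ℂ := ∑ h : H, χ ((k * (h : G))⁻¹)

lemma th_one (H : Subgroup G) (χ : G → ℂ) : Th H χ 1 = ∑ h : H, χ (h : G) := by
  unfold Th
  refine Fintype.sum_equiv (Equiv.inv H) _ _ fun h => ?_
  simp

lemma th_pair (H : Subgroup G) {χ : G → ℂ} (hχ : χ ∈ Irr G) {φ : G → ℂ}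
    (hφ : ∀ g x : G, φ (x * g * x⁻¹) = φ g) :
    χ 1 * ∑ k, φ k * Th H χ k = (pr φ χ * Nat.card G) * Th H χ 1 := by
  have h1 : ∑ k, φ k * Th H χ k = ∑ h : H, ∑ k, φ k * χ (k⁻¹ * (h : G)⁻¹) := by
    unfold Th
    simp only [Finset.mul_sum]
    rw [Finset.sum_comm]
    refine Finset.sum_congr rfl fun h _ => Finset.sum_congr rfl fun k _ => ?_
    rw [mul_inv_rev, irr_comm hχ]
  rw [h1, Finset.mul_sum, Finset.sum_congr rfl (fun (h : H) _ => conv hχ hφ ((h : G)⁻¹)),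
    ← Finset.mul_sum]
  congr 1
  unfold Th
  simp only [one_mul]

lemma th_zero (H : Subgroup G) {χ : G → ℂ} (hχ : χ ∈ Irr G) (h0 : Th H χ 1 = 0) (k : G) :
    Th H χ k = 0 := by
  have hst : ∀ k, (starRingEnd ℂ) (Th H χ k) = ∑ h : H, χ (k * (h : G)) := by
    intro k
    unfold Th
    rw [map_sum]
    refine Finset.sum_congr rfl fun h _ => ?_
    rw [← iv_star hχ]
    change χ ((k * (h : G))⁻¹)⁻¹ = _
    rw [inv_inv]
  have h1 : ∑ k, Th H χ k * (starRingEnd ℂ) (Th H χ k) = 0 := by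
    have h2 : ∀ k, Th H χ k * (starRingEnd ℂ) (Th H χ k) =
        ∑ h : H, ∑ h' : H, χ (k * (h : G)) * χ ((k * (h' : G))⁻¹) := by
      intro k
      rw [hst, mul_comm, Finset.sum_mul]
      refine Finset.sum_congr rfl fun h _ => ?_
      unfold Th
      rw [Finset.mul_sum]
    simp only [h2]
    rw [Finset.sum_comm]
    have h3 : ∀ h : H, ∑ k, ∑ h' : H, χ (k * (h : G)) * χ ((k * (h' : G))⁻¹) =
        ∑ h' : H, ∑ k, χ k * χ (k⁻¹ * ((h' : G)⁻¹ * (h : G))) := by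
      intro h
      rw [Finset.sum_comm]
      refine Finset.sum_congr rfl fun h' _ => ?_
      refine Fintype.sum_equiv (Equiv.mulRight (h : G)) _ _ fun k => ?_
      simp only [Equiv.coe_mulRight]
      congr 1
      rw [irr_comm hχ ((k * (h : G))⁻¹)]
      congr 1
      group
    simp only [h3]
    have h4 : ∀ h : H, ∑ h' : H, χ 1 * ∑ k, χ k * χ (k⁻¹ * ((h' : G)⁻¹ * (h : G))) = 0 := by
      intro h
      rw [Finset.sum_congr rfl (fun (h' : H) _ => conv hχ (fun g x => Irr.conj hχ g x)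
        ((h' : G)⁻¹ * (h : G))), ← Finset.mul_sum]
      have h5 : ∑ h' : H, χ ((h' : G)⁻¹ * (h : G)) = Th H χ 1 := by
        rw [th_one]
        refine Fintype.sum_equiv ((Equiv.inv H).trans (Equiv.mulRight h)) _ _ fun h' => ?_
        simp
      rw [h5, h0, mul_zero]
    have h6 : χ 1 * ∑ h : H, ∑ h' : H, ∑ k, χ k * χ (k⁻¹ * ((h' : G)⁻¹ * (h : G))) = 0 := by
      rw [Finset.mul_sum]
      refine Finset.sum_eq_zero fun h _ => ?_
      rw [Finset.mul_sum]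
      exact h4 h
    rcases mul_eq_zero.mp h6 with h | h
    · exact absurd h (irr_one hχ)
    · exact h
  have h7 : ∑ k, Complex.normSq (Th H χ k) = 0 := by
    have : ((∑ k, Complex.normSq (Th H χ k) : ℝ) : ℂ) = 0 := by
      rw [← h1]
      push_cast
      exact Finset.sum_congr rfl fun k _ => (Complex.mul_conj _).symm
    exact_mod_cast this
  have h8 := (Finset.sum_eq_zero_iff_of_nonneg (fun k _ => Complex.normSq_nonneg _)).mp h7 k
    (Finset.mem_univ k)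
  exact Complex.normSq_eq_zero.mp h8

section galois

variable {N : ℕ} (hN : 0 < N) (hG : Nat.card G ∣ N)
include hN hG

lemma pw_aut {χ : G → ℂ} (hχ : χ ∈ Irr G) (k : (ZMod N)ˣ) :
    ∃ σ : ℂ ≃+* ℂ, ∀ g, pw k χ g = σ (χ g) := by
  obtain ⟨σ, hσ⟩ := exists_aut_pow hN k
  exact ⟨σ, fun g => (irr_pow hN hσ hχ (pow_card_dvd hG g)).symm⟩

lemma th_pw (H : Subgroup G) {χ : G → ℂ} (hχ : χ ∈ Irr G) (k : (ZMod N)ˣ) :
    Th H (pw k χ) 1 = 0 ↔ Th H χ 1 = 0 := by
  obtain ⟨σ, hσ⟩ := pw_aut hN hG hχ k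
  have : Th H (pw k χ) 1 = σ (Th H χ 1) := by
    rw [th_one, th_one, map_sum]
    exact Finset.sum_congr rfl fun h _ => hσ h
  rw [this]
  exact map_eq_zero σ

lemma iv_pw (k : (ZMod N)ˣ) (χ : G → ℂ) : iv (pw k χ) = pw k (iv χ) := by
  funext g
  change χ (g⁻¹ ^ _) = χ (g ^ _)⁻¹
  rw [inv_pow]

end galois

lemma th_iv (H : Subgroup G) (χ : G → ℂ) : Th H (iv χ) 1 = Th H χ 1 := by
  rw [th_one]
  unfold Th iv
  simp only [one_mul]

end Pool.Agent.Helper606_CZ
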