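import Mathlib
import Pool.Agent.Helper606_CZ.C1
import Pool.Agent.Helper606_CZ.C2

/-!
# The coefficients of the elementary functions
-/

set_option autoImplicit false
set_option linter.unusedSectionVars false

open scoped Classical

namespace Pool.Agent.Helper606_CZ

open Pool.Agent.H541R3.ART Pool.Agent.W446.AS Pool.Agent.R389 Pool.Agent.Helper606_LC

variable {G : Type} [Group G] [Fintype G] {c : G} {X : Type} [Fintype X] [MulAction G X]

/-- the complex valued elementary functions -/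
noncomputable def DC (c : G) (x y : X) (g : G) : ℂ := (Dd c x y g : ℂ)

lemma sum_coset (x : X) (k : G) (F : G → ℂ) :
    ∑ g : G, (if g • x = k • x then F g else 0) =
      ∑ h : MulAction.stabilizer G x, F (k * (h : G)) := by
  rw [← Finset.sum_filter]
  symm
  refine Finset.sum_bij (fun (h : MulAction.stabilizer G x) _ => k * (h : G)) ?_ ?_ ?_ ?_
  · intro h _
    rw [Finset.mem_filter]
    refine ⟨Finset.mem_univ _, ?_⟩
    rw [mul_smul]
    congr 1
    exact h.2
  · intro h _ h' _ e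
    exact Subtype.ext (mul_left_cancel e)
  · intro g hg
    rw [Finset.mem_filter] at hg
    refine ⟨⟨k⁻¹ * g, ?_⟩, Finset.mem_univ _, ?_⟩
    · rw [MulAction.mem_stabilizer_iff, mul_smul, hg.2, inv_smul_smul]
    · exact mul_inv_cancel_left k g
  · intro h _
    rfl

section
variable (hc : ∀ g, c * g = g * c) (hc2 : c * c = 1)
include hc hc2

/-- the parity of an irreducible character -/
lemma parity {χ : G → ℂ} (hχ : χ ∈ Irr G) : (∀ g, χ (c * g) = - χ g) ∨ ∀ g, χ (c * g) = χ g := by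
  have hZ : Subgroup.zpowers c ≤ Subgroup.center G := by
    rw [Subgroup.zpowers_le, Subgroup.mem_center_iff]
    intro g; exact (hc g).symm
  obtain ⟨ω, hω⟩ := irr_central hχ hZ
  set z : Subgroup.zpowers c := ⟨c, Subgroup.mem_zpowers c⟩ with hz
  have hzz : z * z = 1 := Subtype.ext hc2
  have h1 : ((ω z : ℂˣ) : ℂ) * ((ω z : ℂˣ) : ℂ) = 1 := by
    rw [← Units.val_mul, ← map_mul, hzz, map_one, Units.val_one]
  have h2 : ∀ g, χ (c * g) = ((ω z : ℂˣ) : ℂ) * χ g := by
    intro g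
    rw [hc]
    exact hω g z
  rcases mul_self_eq_one_iff.mp h1 with h | h
  · right; intro g; rw [h2, h, one_mul]
  · left; intro g; rw [h2, h]; ring

lemma odd_iff {χ : G → ℂ} (hχ : χ ∈ Irr G) : χ c = - χ 1 ↔ ∀ g, χ (c * g) = - χ g := by
  constructor
  · intro h
    rcases parity hc hc2 hχ with h1 | h1
    · exact h1
    · exfalso
      have h2 := h1 1
      rw [mul_one, h] at h2
      exact irr_one hχ (self_eq_neg.mp h2.symm)
  · intro h
    have := h 1
    rwa [mul_one] at this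

/-- the pairing with a character -/
lemma pr_dc (x : X) (t : G) {χ : G → ℂ} (hχ : χ ∈ Irr G) :
    pr (DC c x (t • x)) χ = Th (MulAction.stabilizer G x) χ t -
      Th (MulAction.stabilizer G x) χ (c * t) := by
  rw [pr_eq]
  have h1 : ∀ g : G, DC c x (t • x) g * χ g⁻¹ =
      ∑ η : G, ((io c (η • t • x) (g • η • x) : ℤ) : ℂ) * χ g⁻¹ := by
    intro g
    unfold DC Dd
    push_cast
    rw [Finset.sum_mul]
  simp only [h1]
  rw [Finset.sum_comm]
  have h2 : ∀ η : G, ∑ g : G, ((io c (η • t • x) (g • η • x) : ℤ) : ℂ) * χ g⁻¹ =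
      Th (MulAction.stabilizer G x) χ t - Th (MulAction.stabilizer G x) χ (c * t) := by
    intro η
    have h3 : ∑ g : G, ((io c (η • t • x) (g • η • x) : ℤ) : ℂ) * χ g⁻¹ =
        ∑ g : G, ((io c (t • x) (g • x) : ℤ) : ℂ) * χ g⁻¹ := by
      symm
      refine Fintype.sum_equiv (MulAut.conj η).toEquiv _ _ fun g => ?_
      change _ = ((io c (η • t • x) ((η * g * η⁻¹) • η • x) : ℤ) : ℂ) * χ (η * g * η⁻¹)⁻¹
      have e1 : (η * g * η⁻¹) • η • x = η • g • x := by
        simp only [← mul_smul]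
        congr 1
        group
      have e2 : (η * g * η⁻¹)⁻¹ = η * g⁻¹ * η⁻¹ := by group
      rw [e1, e2, Irr.conj hχ, io_inv hc]
    rw [h3]
    have h4 : ∀ g : G, ((io c (t • x) (g • x) : ℤ) : ℂ) * χ g⁻¹ =
        (if g • x = t • x then χ g⁻¹ else 0) - (if g • x = (c * t) • x then χ g⁻¹ else 0) := by
      intro g
      unfold io
      rw [mul_smul c t x]
      push_cast
      rw [sub_mul, ite_mul, ite_mul, one_mul, zero_mul]
    rw [Finset.sum_congr rfl (fun g _ => h4 g), Finset.sum_sub_distrib,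
      sum_coset x t (fun g => χ g⁻¹), sum_coset x (c * t) (fun g => χ g⁻¹)]
    rfl
  rw [Finset.sum_congr rfl (fun η _ => h2 η), Finset.sum_const, Finset.card_univ, nsmul_eq_mul,
    ← Nat.card_eq_fintype_card, inv_mul_cancel_left₀ card_ne]

lemma th_c (H : Subgroup G) {χ : G → ℂ} {ε : ℂ} (h : ∀ g, χ (c * g) = ε * χ g)
    (t : G) : Th H χ (c * t) = ε * Th H χ t := by
  unfold Th
  rw [Finset.mul_sum]
  refine Finset.sum_congr rfl fun k _ => ?_
  rw [← h]
  congr 1
  have hci : c⁻¹ = c := inv_eq_of_mul_eq_one_left hc2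
  rw [mul_assoc, mul_inv_rev, hci, hc]

lemma pr_dc_odd (x : X) (t : G) {χ : G → ℂ} (hχ : χ ∈ Irr G) (h : ∀ g, χ (c * g) = - χ g) :
    pr (DC c x (t • x)) χ = 2 * Th (MulAction.stabilizer G x) χ t := by
  rw [pr_dc hc hc2 x t hχ, th_c hc hc2 _ (ε := -1) (fun g => by rw [h]; ring)]
  ring

lemma pr_dc_even (x : X) (t : G) {χ : G → ℂ} (hχ : χ ∈ Irr G) (h : ∀ g, χ (c * g) = χ g) :
    pr (DC c x (t • x)) χ = 0 := by
  rw [pr_dc hc hc2 x t hχ, th_c hc hc2 _ (ε := 1) (fun g => by rw [h]; ring)]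
  ring

end

lemma pr_pw_left {N : ℕ} (hN : 0 < N) (hG : Nat.card G ∣ N) (k : (ZMod N)ˣ) (a χ : G → ℂ) :
    pr (pw k a) χ = pr a (pw k⁻¹ χ) := by
  have h1 := pr_pw hG k a (pw k⁻¹ χ)
  rw [← pw_mul hN hG, mul_inv_cancel, pw_one hN hG] at h1
  exact h1

lemma pr_comm_class (a b : G → ℂ) : pr a b = pr b a := by
  rw [pr_eq, pr_eq]
  congr 1
  refine Fintype.sum_equiv (Equiv.inv G) _ _ fun g => ?_
  simp only [Equiv.inv_apply, inv_inv]
  ring

lemma pr_eq_ite {χ χ' : G → ℂ} (hχ : χ ∈ Irr G) (hχ' : χ' ∈ Irr G) :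
    pr χ χ' = if χ = χ' then 1 else 0 := by
  by_cases h : χ = χ'
  · rw [if_pos h, ← h, pr_self hχ]
  · rw [if_neg h, pr_ne hχ hχ' h]

section
variable (hc : ∀ g, c * g = g * c) (hc2 : c * c = 1) {N : ℕ} (hN : 0 < N) (hG : Nat.card G ∣ N)
include hc hc2 hN hG

lemma parity_pw {χ : G → ℂ} (hχ : χ ∈ Irr G) (k : (ZMod N)ˣ) :
    ((∀ g, χ (c * g) = - χ g) → ∀ g, pw k χ (c * g) = - pw k χ g) ∧
      ((∀ g, χ (c * g) = χ g) → ∀ g, pw k χ (c * g) = pw k χ g) := by
  obtain ⟨σ, hσ⟩ := pw_aut hN hG hχ k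
  refine ⟨fun h g => ?_, fun h g => ?_⟩
  · rw [hσ, hσ, h, map_neg]
  · rw [hσ, hσ, h]

/-- **First criterion.** -/
theorem crit_one (x : X) {χ : G → ℂ} (hχ : χ ∈ Irr G) :
    (∀ (t : G) (k : (ZMod N)ˣ), pr (pw k (DC c x (t • x)) - DC c x (t • x)) χ = 0) ↔
      (χ c = - χ 1 → Th (MulAction.stabilizer G x) χ 1 ≠ 0 → ∀ k : (ZMod N)ˣ, pw k χ = χ) := by
  have hpr : ∀ (t : G) (k : (ZMod N)ˣ), pr (pw k (DC c x (t • x)) - DC c x (t • x)) χ =
      pr (DC c x (t • x)) (pw k⁻¹ χ) - pr (DC c x (t • x)) χ := by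
    intro t k
    rw [pr_sub, pr_pw_left hN hG]
  constructor
  · intro h hodd hocc k
    rw [odd_iff hc hc2 hχ] at hodd
    have hχ' := irr_pw hN hG k hχ
    have hodd' := (parity_pw hc hc2 hN hG hχ k).1 hodd
    have h1 : ∀ t, Th (MulAction.stabilizer G x) (pw k χ) t = Th (MulAction.stabilizer G x) χ t := by
      intro t
      have h2 := h t k⁻¹
      rw [hpr, inv_inv, pr_dc_odd hc hc2 x t hχ' hodd', pr_dc_odd hc hc2 x t hχ hodd] at h2
      linear_combination h2 / 2
    have h3 := th_pair (MulAction.stabilizer G x) hχ' (φ := χ) (fun g x => Irr.conj hχ g x)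
    have h4 := th_pair (MulAction.stabilizer G x) hχ (φ := χ) (fun g x => Irr.conj hχ g x)
    simp only [h1] at h3
    by_contra hne
    rw [pr_ne hχ hχ' (fun e => hne e.symm)] at h3
    rw [pr_self hχ] at h4
    have h5 : ∑ k, χ k * Th (MulAction.stabilizer G x) χ k = 0 := by
      have : pw k χ 1 * ∑ k, χ k * Th (MulAction.stabilizer G x) χ k = 0 := by rw [h3]; ring
      rcases mul_eq_zero.mp this with h | h
      · exact absurd h (irr_one hχ')
      · exact h
    rw [h5, mul_zero, one_mul] at h4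
    exact mul_ne_zero card_ne hocc h4.symm
  · intro h t k
    rw [hpr]
    rcases parity hc hc2 hχ with hodd | heven
    · by_cases hocc : Th (MulAction.stabilizer G x) χ 1 = 0
      · have hχ' := irr_pw hN hG k⁻¹ hχ
        have hodd' := (parity_pw hc hc2 hN hG hχ k⁻¹).1 hodd
        rw [pr_dc_odd hc hc2 x t hχ' hodd', pr_dc_odd hc hc2 x t hχ hodd, th_zero _ hχ hocc,
          th_zero _ hχ' ((th_pw hN hG _ hχ k⁻¹).mpr hocc)]
        ring
      · rw [h ((odd_iff hc hc2 hχ).mpr hodd) hocc k⁻¹, sub_self]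
    · have hχ' := irr_pw hN hG k⁻¹ hχ
      have heven' := (parity_pw hc hc2 hN hG hχ k⁻¹).2 heven
      rw [pr_dc_even hc hc2 x t hχ' heven', pr_dc_even hc hc2 x t hχ heven, sub_self]

/-- the symmetrized functions -/
lemma pr_symm (x y : X) (χ : G → ℂ) :
    pr (fun g => DC c x y g + DC c y x g) χ = pr (DC c x y) χ + pr (DC c x y) (iv χ) := by
  have h1 : (fun g => DC c x y g + DC c y x g) = DC c x y + DC c y x := rfl
  rw [h1, pr_add]
  congr 1
  rw [pr_eq, pr_eq]
  congr 1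
  refine Fintype.sum_equiv (Equiv.inv G) _ _ fun g => ?_
  unfold DC iv
  simp only [Equiv.inv_apply, inv_inv]
  rw [dd_swap hc hc2]

/-- **Second criterion.** -/
theorem crit_two (x : X) {χ : G → ℂ} (hχ : χ ∈ Irr G) :
    (∀ (t : G) (k : (ZMod N)ˣ),
      pr (pw k (fun g => DC c x (t • x) g + DC c (t • x) x g) -
        (fun g => DC c x (t • x) g + DC c (t • x) x g)) χ = 0) ↔
      (χ c = - χ 1 → Th (MulAction.stabilizer G x) χ 1 ≠ 0 → ∀ (k : (ZMod N)ˣ) (g : G),
        pw k χ g + iv (pw k χ) g = χ g + iv χ g) := by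
  have hpr : ∀ (t : G) (k : (ZMod N)ˣ),
      pr (pw k (fun g => DC c x (t • x) g + DC c (t • x) x g) -
        (fun g => DC c x (t • x) g + DC c (t • x) x g)) χ =
      (pr (DC c x (t • x)) (pw k⁻¹ χ) + pr (DC c x (t • x)) (iv (pw k⁻¹ χ))) -
        (pr (DC c x (t • x)) χ + pr (DC c x (t • x)) (iv χ)) := by
    intro t k
    rw [pr_sub, pr_pw_left hN hG, pr_symm hc hc2 hN hG, pr_symm hc hc2 hN hG]
  have hivχ := iv_irr hχ
  have hodd_iv : ∀ {φ : G → ℂ}, φ ∈ Irr G → (∀ g, φ (c * g) = - φ g) →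
      ∀ g, iv φ (c * g) = - iv φ g := by
    intro φ hφ h g
    rw [iv_star hφ, iv_star hφ, h, map_neg]
  have heven_iv : ∀ {φ : G → ℂ}, φ ∈ Irr G → (∀ g, φ (c * g) = φ g) →
      ∀ g, iv φ (c * g) = iv φ g := by
    intro φ hφ h g
    rw [iv_star hφ, iv_star hφ, h]
  constructor
  · intro h hodd hocc k
    rw [odd_iff hc hc2 hχ] at hodd
    have hχ' := irr_pw hN hG k hχ
    have hivχ' := iv_irr hχ'
    have hodd' := (parity_pw hc hc2 hN hG hχ k).1 hodd
    set S := MulAction.stabilizer G x with hS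
    have h1 : ∀ t, Th S (pw k χ) t + Th S (iv (pw k χ)) t = Th S χ t + Th S (iv χ) t := by
      intro t
      have h2 := h t k⁻¹
      rw [hpr, inv_inv, pr_dc_odd hc hc2 x t hχ' hodd', pr_dc_odd hc hc2 x t hχ hodd,
        pr_dc_odd hc hc2 x t hivχ' (hodd_iv hχ' hodd'), pr_dc_odd hc hc2 x t hivχ (hodd_iv hχ hodd)]
        at h2
      linear_combination h2 / 2
    have hcl : ∀ g x : G, χ (x * g * x⁻¹) = χ g := fun g x => Irr.conj hχ g x
    have a1 := th_pair S hχ' hcl
    have a2 := th_pair S hivχ' hcl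
    have a3 := th_pair S hχ hcl
    have a4 := th_pair S hivχ hcl
    rw [th_iv] at a2 a4
    have d1 : iv (pw k χ) 1 = pw k χ 1 := by unfold iv; rw [inv_one]
    have d2 : iv χ 1 = χ 1 := by unfold iv; rw [inv_one]
    have d3 : pw k χ 1 = χ 1 := by unfold pw; rw [one_pow]
    rw [d3] at a1
    rw [d1, d3] at a2
    rw [d2] at a4
    have hsum : ∑ t, χ t * Th S (pw k χ) t + ∑ t, χ t * Th S (iv (pw k χ)) t =
        ∑ t, χ t * Th S χ t + ∑ t, χ t * Th S (iv χ) t := by
      rw [← Finset.sum_add_distrib, ← Finset.sum_add_distrib]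
      refine Finset.sum_congr rfl fun t _ => ?_
      rw [← mul_add, ← mul_add, h1]
    have hmain : (pr χ (pw k χ) * Nat.card G) * Th S (pw k χ) 1 +
        (pr χ (iv (pw k χ)) * Nat.card G) * Th S (pw k χ) 1 =
        (pr χ χ * Nat.card G) * Th S χ 1 + (pr χ (iv χ) * Nat.card G) * Th S χ 1 := by
      rw [← a1, ← a2, ← a3, ← a4, ← mul_add, ← mul_add, hsum]
    have hcard : (Nat.card G : ℂ) ≠ 0 := card_ne
    have hor : χ = pw k χ ∨ χ = iv (pw k χ) := by
      by_contra hcon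
      rw [not_or] at hcon
      rw [pr_ne hχ hχ' hcon.1, pr_ne hχ hivχ' hcon.2, pr_self hχ, pr_eq_ite hχ hivχ] at hmain
      have h5 : (Nat.card G : ℂ) * Th S χ 1 * (1 + if χ = iv χ then 1 else 0) = 0 := by
        linear_combination -hmain
      rcases mul_eq_zero.mp h5 with h6 | h6
      · exact mul_ne_zero hcard hocc h6
      · split_ifs at h6 <;> norm_num at h6
    intro g
    rcases hor with e | e
    · rw [← e]
    · have e' : iv χ = pw k χ := by
        conv_lhs => rw [e]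
        exact iv_iv _
      rw [← e, ← e']
      ring
  · intro h t k
    rw [hpr]
    have hχ' := irr_pw hN hG k⁻¹ hχ
    have hivχ' := iv_irr hχ'
    rcases parity hc hc2 hχ with hodd | heven
    · have hodd' := (parity_pw hc hc2 hN hG hχ k⁻¹).1 hodd
      rw [pr_dc_odd hc hc2 x t hχ' hodd', pr_dc_odd hc hc2 x t hχ hodd,
        pr_dc_odd hc hc2 x t hivχ' (hodd_iv hχ' hodd'), pr_dc_odd hc hc2 x t hivχ (hodd_iv hχ hodd)]
      by_cases hocc : Th (MulAction.stabilizer G x) χ 1 = 0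
      · rw [th_zero _ hχ hocc, th_zero _ hχ' ((th_pw hN hG _ hχ k⁻¹).mpr hocc),
          th_zero _ hivχ (by rw [th_iv]; exact hocc),
          th_zero _ hivχ' (by rw [th_iv]; exact (th_pw hN hG _ hχ k⁻¹).mpr hocc)]
        ring
      · have h1 := h ((odd_iff hc hc2 hχ).mpr hodd) hocc k⁻¹
        have h2 : ∀ t, Th (MulAction.stabilizer G x) (pw k⁻¹ χ) t +
            Th (MulAction.stabilizer G x) (iv (pw k⁻¹ χ)) t =
            Th (MulAction.stabilizer G x) χ t + Th (MulAction.stabilizer G x) (iv χ) t := by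
          intro t
          unfold Th
          rw [← Finset.sum_add_distrib, ← Finset.sum_add_distrib]
          exact Finset.sum_congr rfl fun s _ => h1 _
        linear_combination 2 * h2 t
    · have heven' := (parity_pw hc hc2 hN hG hχ k⁻¹).2 heven
      rw [pr_dc_even hc hc2 x t hχ' heven', pr_dc_even hc hc2 x t hχ heven,
        pr_dc_even hc hc2 x t hivχ' (heven_iv hχ' heven'),
        pr_dc_even hc hc2 x t hivχ (heven_iv hχ heven)]
      ring

end

end Pool.Agent.Helper606_CZ
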