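import Mathlib
import Pool.Agent.Helper606_CZ.C3
import Pool.Agent.R389.Theta
import Pool.Agent.R389.Compl
import Pool.Agent.Q11.CZ.Ab
import Pool.Agent.TH119.MX.Gal

/-!
# The exact criterion, in terms of characters
-/

set_option autoImplicit false
set_option linter.unusedSectionVars false

open scoped Classical

namespace Pool.Agent.Helper606_CZ

open Pool.Agent.H541R3.ART Pool.Agent.W446.AS Pool.Agent.R389 Pool.Agent.Helper606_LC

variable {G : Type} [Group G] [Fintype G] {c : G} {X : Type} [Fintype X] [MulAction G X]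

/-- nonlinear characters vanish on average on the cosets of the commutator subgroup -/
lemma nonlin {χ : G → ℂ} (hχ : χ ∈ Irr G) (h1 : χ 1 ≠ 1) (g : G) :
    ∑ z : commutator G, χ (g * (z : G)) = 0 := by
  obtain ⟨n, ρ, hρ, rfl⟩ := exists_rep hχ
  rcases hρ.normal_dich (commutator G) with h | h
  · exfalso
    apply h1
    have hcomm : ∀ a b : G, ρ a * ρ b = ρ b * ρ a := by
      intro a b
      have h2 : ρ (b * a) * ρ (a⁻¹ * b⁻¹ * a * b) = ρ (b * a) := by
        rw [h (a⁻¹ * b⁻¹ * a * b) (by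
          have h3 := Subgroup.commutator_mem_commutator (Subgroup.mem_top a⁻¹)
            (Subgroup.mem_top b⁻¹)
          rw [commutatorElement_def, inv_inv, inv_inv] at h3
          exact h3), mul_one]
      rw [← map_mul, ← map_mul, ← h2, ← map_mul]
      congr 1
      group
    have hsc : ∀ a : G, ∃ s : ℂ, ∀ v, ρ a v = s • v := by
      intro a
      refine hρ.scalar (ρ a) ?_
      intro g v
      rw [← Module.End.mul_apply, ← Module.End.mul_apply, hcomm]
    have hn := hρ.1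
    obtain ⟨v, hv⟩ := exists_ne (0 : Fin n → ℂ)
    have htop : Submodule.span ℂ {v} = ⊤ := by
      rcases hρ.2 (Submodule.span ℂ {v}) (by
        intro g w hw
        obtain ⟨s, hs⟩ := hsc g
        rw [hs]
        exact Submodule.smul_mem _ s hw) with h3 | h3
      · exfalso
        apply hv
        rw [Submodule.span_singleton_eq_bot] at h3
        exact h3
      · exact h3
    have hfr : Module.finrank ℂ (Fin n → ℂ) = 1 := by
      rw [← finrank_top ℂ (Fin n → ℂ), ← htop]
      exact finrank_span_singleton hv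
    rw [ρ.char_one, hfr, Nat.cast_one]
  · exact h g

/-- The functions with the property `ZInv`. -/
theorem zinv_iff {f : G → ℚ} (hf : ∀ g x : G, f (x * g * x⁻¹) = f g) :
    Pool.Agent.Q11.CZ.ZInv f ↔ ∀ χ ∈ Irr G, ∀ k : (ZMod (Nat.card G))ˣ,
      pr (pw k (fun g => (f g : ℂ)) - fun g => (f g : ℂ)) χ = 0 := by
  constructor
  · intro h χ _ k
    have h1 : pw k (fun g => (f g : ℂ)) - (fun g => (f g : ℂ)) = 0 := by
      funext g
      change (f (g ^ (k : ZMod (Nat.card G)).val) : ℂ) - (f g : ℂ) = 0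
      have h2 := Pool.Agent.Q11.CZ.zpowers_pow (ZMod.val_coe_unit_coprime k) g
      rw [h _ _ h2, sub_self]
    rw [h1, pr_zero_left]
  · intro h g g' hg
    obtain ⟨u, rfl⟩ := Pool.Agent.Q11.CZ.exists_unit hg
    have h1 := class_zero (f := pw u (fun g => (f g : ℂ)) - fun g => (f g : ℂ)) (by
      intro g x
      change (f ((x * g * x⁻¹) ^ (u : ZMod (Nat.card G)).val) : ℂ) - (f (x * g * x⁻¹) : ℂ) =
        (f (g ^ (u : ZMod (Nat.card G)).val) : ℂ) - (f g : ℂ)
      rw [conj_pow, hf, hf]) (fun χ hχ => h χ hχ u)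
    have h2 : (f (g ^ (u : ZMod (Nat.card G)).val) : ℂ) - (f g : ℂ) = 0 := congrFun h1 g
    have h3 : (f g : ℂ) = (f (g ^ (u : ZMod (Nat.card G)).val) : ℂ) := (sub_eq_zero.mp h2).symm
    exact_mod_cast h3

/-- The functions with the property `Twist`. -/
theorem twist_iff {f : G → ℚ} (hf : ∀ g x : G, f (x * g * x⁻¹) = f g) :
    Pool.Agent.Q11.CZ.Twist f ↔ ∀ χ ∈ Irr G, χ 1 ≠ 1 → ∀ k : (ZMod (Nat.card G))ˣ,
      pr (pw k (fun g => (f g : ℂ)) - fun g => (f g : ℂ)) χ = 0 := by
  have hn : NeZero (Nat.card G) := ⟨Nat.card_pos.ne'⟩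
  have hcl : ∀ u : (ZMod (Nat.card G))ˣ, ∀ g x : G,
      (pw u (fun g => (f g : ℂ)) - fun g => (f g : ℂ)) (x * g * x⁻¹) =
      (pw u (fun g => (f g : ℂ)) - fun g => (f g : ℂ)) g := by
    intro u g x
    change (f ((x * g * x⁻¹) ^ (u : ZMod (Nat.card G)).val) : ℂ) - (f (x * g * x⁻¹) : ℂ) =
      (f (g ^ (u : ZMod (Nat.card G)).val) : ℂ) - (f g : ℂ)
    rw [conj_pow, hf, hf]
  constructor
  · intro h χ hχ hχ1 k
    set u : G → ℂ := pw k (fun g => (f g : ℂ)) - fun g => (f g : ℂ) with hu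
    have hinv : ∀ g : G, ∀ z ∈ commutator G, u (g * z) = u g := by
      intro g z hz
      change (f ((g * z) ^ (k : ZMod (Nat.card G)).val) : ℂ) - (f (g * z) : ℂ) =
        (f (g ^ (k : ZMod (Nat.card G)).val) : ℂ) - (f g : ℂ)
      have := h _ (ZMod.val_coe_unit_coprime k) g z hz
      exact_mod_cast this
    rw [pr_eq]
    have h1 : (Fintype.card (commutator G) : ℂ) * ∑ g, u g * χ g⁻¹ = 0 := by
      have h2 : ∀ z : commutator G, ∑ g, u g * χ g⁻¹ = ∑ g, u g * χ (g⁻¹ * (z : G)) := by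
        intro z
        refine Fintype.sum_equiv (Equiv.mulRight (z : G)) _ _ fun g => ?_
        simp only [Equiv.coe_mulRight]
        rw [hinv g z z.2, irr_comm hχ]
        congr 2
        group
      have h3 : ∑ z : commutator G, ∑ g, u g * χ g⁻¹ =
          (Fintype.card (commutator G) : ℂ) * ∑ g, u g * χ g⁻¹ := by
        rw [Finset.sum_const, Finset.card_univ, nsmul_eq_mul]
      rw [← h3, Finset.sum_congr rfl (fun z _ => h2 z), Finset.sum_comm]
      refine Finset.sum_eq_zero fun g _ => ?_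
      rw [← Finset.mul_sum, nonlin hχ hχ1, mul_zero]
    have h4 : (Fintype.card (commutator G) : ℂ) ≠ 0 := by
      have : 0 < Fintype.card (commutator G) := Fintype.card_pos
      exact_mod_cast this.ne'
    rcases mul_eq_zero.mp h1 with h5 | h5
    · exact absurd h5 h4
    · rw [h5, mul_zero]
  · intro h j hj g z hz
    set k : (ZMod (Nat.card G))ˣ := ZMod.unitOfCoprime j hj with hk
    have hpow : ∀ y : G, y ^ (k : ZMod (Nat.card G)).val = y ^ j := by
      intro y
      rw [hk, ZMod.coe_unitOfCoprime, ZMod.val_natCast]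
      exact (pow_eq_pow_mod j pow_card_eq_one').symm
    have h1 : ∀ y : G, (pw k (fun g => (f g : ℂ)) - fun g => (f g : ℂ)) y =
        (f (y ^ j) : ℂ) - (f y : ℂ) := by
      intro y
      rw [← hpow]
      rfl
    have h2 : (pw k (fun g => (f g : ℂ)) - fun g => (f g : ℂ)) (g * z) =
        (pw k (fun g => (f g : ℂ)) - fun g => (f g : ℂ)) g := by
      rw [class_expand (hcl k) (g * z), class_expand (hcl k) g]
      refine Finset.sum_congr rfl fun χ hχ => ?_
      rw [mem_irrF] at hχ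
      by_cases hχ1 : χ 1 = 1
      · obtain ⟨lam, hlam⟩ := irr_deg_one hχ hχ1
        rw [hlam, hlam, map_mul]
        have h3 : lam z = 1 := by
          have : commutator G ≤ lam.ker := Abelianization.commutator_subset_ker lam
          exact this hz
        rw [h3, mul_one]
      · rw [h χ hχ hχ1 k, zero_mul, zero_mul]
    rw [h1, h1] at h2
    exact_mod_cast h2

/-- fixed values are rational -/
lemma rat_iff {z : ℂ} : (∀ σ : ℂ ≃+* ℂ, σ z = z) ↔ ∃ q : ℚ, z = q := by
  constructor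
  · intro h
    by_contra hcon
    have hz : z ∉ (algebraMap ℚ ℂ).fieldRange := by
      rintro ⟨q, hq⟩
      exact hcon ⟨q, by rw [← hq]; rfl⟩
    obtain ⟨σ, -, hσ⟩ := Pool.Agent.TH119.MX.exists_move hz
    exact hσ (h σ)
  · rintro ⟨q, rfl⟩ σ
    exact map_ratCast σ q

section
variable {N : ℕ} (hN : 0 < N) (hG : Nat.card G ∣ N)
include hN hG

lemma aut_pw {χ : G → ℂ} (hχ : χ ∈ Irr G) (σ : ℂ ≃+* ℂ) :
    ∃ k : (ZMod N)ˣ, ∀ g, pw k χ g = σ (χ g) := by
  obtain ⟨k, hk⟩ := exists_pow_aut hN σ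
  exact ⟨k, fun g => (irr_pow hN hk hχ (pow_card_dvd hG g)).symm⟩

/-- characters with rational values -/
lemma rat_char {χ : G → ℂ} (hχ : χ ∈ Irr G) :
    (∀ k : (ZMod N)ˣ, pw k χ = χ) ↔ ∀ g, ∃ q : ℚ, χ g = q := by
  constructor
  · intro h g
    rw [← rat_iff]
    intro σ
    obtain ⟨k, hk⟩ := aut_pw hN hG hχ σ
    rw [← hk, h]
  · intro h k
    obtain ⟨σ, hσ⟩ := pw_aut hN hG hχ k
    funext g
    rw [hσ]
    exact rat_iff.mpr (h g) σ

/-- characters whose values have rational real parts -/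
lemma re_char {χ : G → ℂ} (hχ : χ ∈ Irr G) :
    (∀ (k : (ZMod N)ˣ) (g : G), pw k χ g + iv (pw k χ) g = χ g + iv χ g) ↔
      ∀ g, ∃ q : ℚ, (χ g).re = q := by
  have hre : ∀ g, χ g + iv χ g = ((2 * (χ g).re : ℝ) : ℂ) := by
    intro g
    rw [iv_star hχ]
    exact Complex.add_conj (χ g)
  constructor
  · intro h g
    have h1 : ∃ q : ℚ, χ g + iv χ g = q := by
      rw [← rat_iff]
      intro σ
      obtain ⟨k, hk⟩ := aut_pw hN hG hχ σ
      rw [map_add, ← hk]
      have : σ (iv χ g) = iv (pw k χ) g := (hk g⁻¹).symm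
      rw [this, h]
    obtain ⟨q, hq⟩ := h1
    refine ⟨q / 2, ?_⟩
    rw [hre] at hq
    have h2 : (2 * (χ g).re : ℝ) = (q : ℝ) := by exact_mod_cast hq
    push_cast
    linarith
  · intro h k g
    obtain ⟨σ, hσ⟩ := pw_aut hN hG hχ k
    have h1 : pw k χ g + iv (pw k χ) g = σ (χ g + iv χ g) := by
      rw [map_add, hσ]
      congr 1
      exact hσ g⁻¹
    rw [h1]
    apply rat_iff.mpr
    obtain ⟨q, hq⟩ := h g
    refine ⟨2 * q, ?_⟩
    rw [hre, hq]
    push_cast; ring

end

end Pool.Agent.Helper606_CZ
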