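import Mathlib
import Pool.Agent.Helper606_CZ.C4

/-!
# The exact criterion for a transitive set
-/

set_option autoImplicit false
set_option linter.unusedSectionVars false

open scoped Classical

namespace Pool.Agent.Helper606_CZ

open Pool.Agent.H541R3.ART Pool.Agent.W446.AS Pool.Agent.R389 Pool.Agent.Helper606_LC

variable {G : Type} [Group G] [Fintype G] {c : G} {X : Type} [Fintype X] [MulAction G X]

lemma dd_smul (k : G) (x y : X) (g : G) : Dd c (k • x) (k • y) g = Dd c x y g := by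
  unfold Dd
  refine Fintype.sum_equiv (Equiv.mulRight k) _ _ (fun η => ?_)
  simp only [Equiv.coe_mulRight, mul_smul]

variable (G) in
/-- the functions with the property `ZInv` -/
def VZ : Submodule ℚ (G → ℚ) where
  carrier := {f | Pool.Agent.Q11.CZ.ZInv f}
  add_mem' := by
    intro a b ha hb g g' h
    rw [Pi.add_apply, Pi.add_apply, ha g g' h, hb g g' h]
  zero_mem' := fun _ _ _ => rfl
  smul_mem' := by
    intro r a ha g g' h
    rw [Pi.smul_apply, Pi.smul_apply, ha g g' h]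

variable (G) in
/-- the functions with the property `Twist` -/
def VT : Submodule ℚ (G → ℚ) where
  carrier := {f | Pool.Agent.Q11.CZ.Twist f}
  add_mem' := by
    intro a b ha hb j hj g z hz
    have h1 := ha j hj g z hz
    have h2 := hb j hj g z hz
    simp only [Pi.add_apply]
    linarith
  zero_mem' := by
    intro j hj g z hz
    rfl
  smul_mem' := by
    intro r a ha j hj g z hz
    have h1 := ha j hj g z hz
    simp only [Pi.smul_apply, smul_eq_mul]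
    linear_combination r * h1

lemma mem_VZ {f : G → ℚ} : f ∈ VZ G ↔ Pool.Agent.Q11.CZ.ZInv f := Iff.rfl
lemma mem_VT {f : G → ℚ} : f ∈ VT G ↔ Pool.Agent.Q11.CZ.Twist f := Iff.rfl

lemma one_VZ : (fun _ => 1 : G → ℚ) ∈ VZ G := fun _ _ _ => rfl

lemma VZ_le : VZ G ≤ VT G := fun _ hf => Pool.Agent.Q11.CZ.twist_of_zInv hf

section
variable (hc : ∀ g, c * g = g * c) (hc2 : c * c = 1) (ht : MulAction.IsPretransitive G X)
include hc hc2 ht

omit hc hc2 in
lemma all_dd (V : Submodule ℚ (G → ℚ)) (x0 : X) :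
    (∀ x y : X, (fun g => (Dd c x y g : ℚ)) ∈ V) ↔
      ∀ t : G, (fun g => (Dd c x0 (t • x0) g : ℚ)) ∈ V := by
  constructor
  · intro h t
    exact h x0 (t • x0)
  · intro h x y
    obtain ⟨k, rfl⟩ := MulAction.exists_smul_eq G x0 x
    obtain ⟨s, rfl⟩ := MulAction.exists_smul_eq G x0 y
    have e : (fun g => (Dd c (k • x0) (s • x0) g : ℚ)) =
        fun g => (Dd c x0 ((k⁻¹ * s) • x0) g : ℚ) := by
      funext g
      rw [← dd_smul k x0 ((k⁻¹ * s) • x0), ← mul_smul k (k⁻¹ * s), mul_inv_cancel_left]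
    rw [e]
    exact h _

omit hc hc2 in
lemma all_dd2 (V : Submodule ℚ (G → ℚ)) (x0 : X) :
    (∀ x y : X, (fun g => (Dd c x y g : ℚ) + (Dd c y x g : ℚ)) ∈ V) ↔
      ∀ t : G, (fun g => (Dd c x0 (t • x0) g : ℚ) + (Dd c (t • x0) x0 g : ℚ)) ∈ V := by
  constructor
  · intro h t
    exact h x0 (t • x0)
  · intro h x y
    obtain ⟨k, rfl⟩ := MulAction.exists_smul_eq G x0 x
    obtain ⟨s, rfl⟩ := MulAction.exists_smul_eq G x0 y
    have e : (fun g => (Dd c (k • x0) (s • x0) g : ℚ) + (Dd c (s • x0) (k • x0) g : ℚ)) =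
        fun g => (Dd c x0 ((k⁻¹ * s) • x0) g : ℚ) + (Dd c ((k⁻¹ * s) • x0) x0 g : ℚ) := by
      funext g
      rw [← dd_smul k x0 ((k⁻¹ * s) • x0), ← dd_smul k ((k⁻¹ * s) • x0) x0,
        ← mul_smul k (k⁻¹ * s), mul_inv_cancel_left]
    rw [e]
    exact h _

lemma self_VZ (x : X) : (fun g => (Dd c x x g : ℚ)) ∈ VZ G := by
  intro g g' h
  have h1 := dd_self (c := c) ht x g
  have h2 := dd_self (c := c) ht x g'
  rw [tr_io_zpowers (X := X) hc hc2 h, ← h2] at h1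
  have h3 : (Fintype.card X : ℤ) ≠ 0 := by
    have : 0 < Fintype.card X := Fintype.card_pos_iff.mpr ⟨x⟩
    omega
  have h4 := mul_left_cancel₀ h3 h1
  simp only
  rw [h4]

lemma class_one (x y : X) : ∀ g t : G, (fun g => (Dd c x y g : ℚ)) (t * g * t⁻¹) =
    (fun g => (Dd c x y g : ℚ)) g := by
  intro g t
  simp only [dd_conj hc]

lemma class_two (x y : X) : ∀ g t : G,
    (fun g => (Dd c x y g : ℚ) + (Dd c y x g : ℚ)) (t * g * t⁻¹) =
    (fun g => (Dd c x y g : ℚ) + (Dd c y x g : ℚ)) g := by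
  intro g t
  simp only [dd_conj hc]

lemma cast_one (x y : X) : (fun g => (((fun g => (Dd c x y g : ℚ)) g : ℚ) : ℂ)) = DC c x y := by
  funext g
  unfold DC
  push_cast
  rfl

lemma cast_two (x y : X) : (fun g => (((fun g => (Dd c x y g : ℚ) + (Dd c y x g : ℚ)) g : ℚ) : ℂ)) =
    fun g => DC c x y g + DC c y x g := by
  funext g
  unfold DC
  push_cast
  rfl

variable (hex : ∃ Φ : Finset X, Pool.Agent.Q11.CZ.IsHalf c Φ) (x0 : X)
include hex

theorem crit_a0_z : (∀ (x : X) (Φ : Finset X), Pool.Agent.Q11.CZ.IsHalf c Φ →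
      Pool.Agent.Q11.CZ.ZInv (Pool.Agent.Q11.CZ.a0 x Φ : G → ℚ)) ↔
    ∀ χ ∈ Irr G, χ c = - χ 1 → Th (MulAction.stabilizer G x0) χ 1 ≠ 0 →
      ∀ g, ∃ q : ℚ, χ g = q := by
  have h1 := mem_iff_dd (X := X) hc hc2 (VZ G) one_VZ hex
  simp only [mem_VZ] at h1
  rw [h1]
  have h2 := all_dd (c := c) ht (VZ G) x0
  simp only [mem_VZ] at h2
  rw [h2]
  have h3 : ∀ t : G, Pool.Agent.Q11.CZ.ZInv (fun g => (Dd c x0 (t • x0) g : ℚ)) ↔
      ∀ χ ∈ Irr G, ∀ k : (ZMod (Nat.card G))ˣ,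
        pr (pw k (DC c x0 (t • x0)) - DC c x0 (t • x0)) χ = 0 := by
    intro t
    rw [zinv_iff (class_one hc hc2 ht x0 (t • x0)), cast_one hc hc2 ht]
  simp only [h3]
  constructor
  · intro h χ hχ hodd hocc
    rw [← rat_char (N := Nat.card G) Nat.card_pos dvd_rfl hχ]
    exact (crit_one hc hc2 Nat.card_pos dvd_rfl x0 hχ).mp (fun t k => h t χ hχ k) hodd hocc
  · intro h t χ hχ k
    exact (crit_one hc hc2 Nat.card_pos dvd_rfl x0 hχ).mpr (fun hodd hocc =>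
      (rat_char (N := Nat.card G) Nat.card_pos dvd_rfl hχ).mpr (h χ hχ hodd hocc)) t k

theorem crit_a0_t : (∀ (x : X) (Φ : Finset X), Pool.Agent.Q11.CZ.IsHalf c Φ →
      Pool.Agent.Q11.CZ.Twist (Pool.Agent.Q11.CZ.a0 x Φ : G → ℚ)) ↔
    ∀ χ ∈ Irr G, χ 1 ≠ 1 → χ c = - χ 1 → Th (MulAction.stabilizer G x0) χ 1 ≠ 0 →
      ∀ g, ∃ q : ℚ, χ g = q := by
  have h1 := mem_iff_dd (X := X) hc hc2 (VT G) (VZ_le one_VZ) hex
  simp only [mem_VT] at h1
  rw [h1]
  have h2 := all_dd (c := c) ht (VT G) x0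
  simp only [mem_VT] at h2
  rw [h2]
  have h3 : ∀ t : G, Pool.Agent.Q11.CZ.Twist (fun g => (Dd c x0 (t • x0) g : ℚ)) ↔
      ∀ χ ∈ Irr G, χ 1 ≠ 1 → ∀ k : (ZMod (Nat.card G))ˣ,
        pr (pw k (DC c x0 (t • x0)) - DC c x0 (t • x0)) χ = 0 := by
    intro t
    rw [twist_iff (class_one hc hc2 ht x0 (t • x0)), cast_one hc hc2 ht]
  simp only [h3]
  constructor
  · intro h χ hχ hχ1 hodd hocc
    rw [← rat_char (N := Nat.card G) Nat.card_pos dvd_rfl hχ]
    exact (crit_one hc hc2 Nat.card_pos dvd_rfl x0 hχ).mp (fun t k => h t χ hχ hχ1 k) hodd hocc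
  · intro h t χ hχ hχ1 k
    exact (crit_one hc hc2 Nat.card_pos dvd_rfl x0 hχ).mpr (fun hodd hocc =>
      (rat_char (N := Nat.card G) Nat.card_pos dvd_rfl hχ).mpr (h χ hχ hχ1 hodd hocc)) t k

theorem crit_T_z : (∀ Φ : Finset X, Pool.Agent.Q11.CZ.IsHalf c Φ →
      Pool.Agent.Q11.CZ.ZInv (Pool.Agent.Q11.CZ.T Φ : G → ℚ)) ↔
    ∀ χ ∈ Irr G, χ c = - χ 1 → Th (MulAction.stabilizer G x0) χ 1 ≠ 0 →
      ∀ g, ∃ q : ℚ, (χ g).re = q := by
  have h1 := T_mem_iff_dd (X := X) hc hc2 (VZ G) one_VZ hex (fun x => self_VZ hc hc2 ht x)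
  simp only [mem_VZ] at h1
  rw [h1]
  have h2 := all_dd2 (c := c) ht (VZ G) x0
  simp only [mem_VZ] at h2
  rw [h2]
  have h3 : ∀ t : G, Pool.Agent.Q11.CZ.ZInv
      (fun g => (Dd c x0 (t • x0) g : ℚ) + (Dd c (t • x0) x0 g : ℚ)) ↔
      ∀ χ ∈ Irr G, ∀ k : (ZMod (Nat.card G))ˣ,
        pr (pw k (fun g => DC c x0 (t • x0) g + DC c (t • x0) x0 g) -
          (fun g => DC c x0 (t • x0) g + DC c (t • x0) x0 g)) χ = 0 := by
    intro t
    rw [zinv_iff (class_two hc hc2 ht x0 (t • x0)), cast_two hc hc2 ht]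
  simp only [h3]
  constructor
  · intro h χ hχ hodd hocc
    rw [← re_char (N := Nat.card G) Nat.card_pos dvd_rfl hχ]
    exact (crit_two hc hc2 Nat.card_pos dvd_rfl x0 hχ).mp (fun t k => h t χ hχ k) hodd hocc
  · intro h t χ hχ k
    exact (crit_two hc hc2 Nat.card_pos dvd_rfl x0 hχ).mpr (fun hodd hocc =>
      (re_char (N := Nat.card G) Nat.card_pos dvd_rfl hχ).mpr (h χ hχ hodd hocc)) t k

theorem crit_T_t : (∀ Φ : Finset X, Pool.Agent.Q11.CZ.IsHalf c Φ →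
      Pool.Agent.Q11.CZ.Twist (Pool.Agent.Q11.CZ.T Φ : G → ℚ)) ↔
    ∀ χ ∈ Irr G, χ 1 ≠ 1 → χ c = - χ 1 → Th (MulAction.stabilizer G x0) χ 1 ≠ 0 →
      ∀ g, ∃ q : ℚ, (χ g).re = q := by
  have h1 := T_mem_iff_dd (X := X) hc hc2 (VT G) (VZ_le one_VZ) hex
    (fun x => VZ_le (self_VZ hc hc2 ht x))
  simp only [mem_VT] at h1
  rw [h1]
  have h2 := all_dd2 (c := c) ht (VT G) x0
  simp only [mem_VT] at h2
  rw [h2]
  have h3 : ∀ t : G, Pool.Agent.Q11.CZ.Twist
      (fun g => (Dd c x0 (t • x0) g : ℚ) + (Dd c (t • x0) x0 g : ℚ)) ↔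
      ∀ χ ∈ Irr G, χ 1 ≠ 1 → ∀ k : (ZMod (Nat.card G))ˣ,
        pr (pw k (fun g => DC c x0 (t • x0) g + DC c (t • x0) x0 g) -
          (fun g => DC c x0 (t • x0) g + DC c (t • x0) x0 g)) χ = 0 := by
    intro t
    rw [twist_iff (class_two hc hc2 ht x0 (t • x0)), cast_two hc hc2 ht]
  simp only [h3]
  constructor
  · intro h χ hχ hχ1 hodd hocc
    rw [← re_char (N := Nat.card G) Nat.card_pos dvd_rfl hχ]
    exact (crit_two hc hc2 Nat.card_pos dvd_rfl x0 hχ).mp (fun t k => h t χ hχ hχ1 k) hodd hocc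
  · intro h t χ hχ hχ1 k
    exact (crit_two hc hc2 Nat.card_pos dvd_rfl x0 hχ).mpr (fun hodd hocc =>
      (re_char (N := Nat.card G) Nat.card_pos dvd_rfl hχ).mpr (h χ hχ hχ1 hodd hocc)) t k

omit hex hc hc2 in
/-- the multiplicity of a character in the permutation character -/
lemma th_perm {χ : G → ℂ} (hχ : χ ∈ Irr G) :
    ∑ g : G, χ g * ((Finset.univ.filter fun x : X => g • x = x).card : ℂ) =
      (Fintype.card X : ℂ) * Th (MulAction.stabilizer G x0) χ 1 := by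
  have h1 : ∀ g : G, χ g * ((Finset.univ.filter fun x : X => g • x = x).card : ℂ) =
      ∑ x : X, if g • x = x then χ g else 0 := by
    intro g
    rw [Finset.card_filter]
    push_cast
    rw [Finset.mul_sum]
    refine Finset.sum_congr rfl fun x _ => ?_
    rw [mul_ite, mul_one, mul_zero]
  simp only [h1]
  rw [Finset.sum_comm]
  have h2 : ∀ x : X, ∑ g : G, (if g • x = x then χ g else 0) =
      Th (MulAction.stabilizer G x0) χ 1 := by
    intro x
    obtain ⟨k, rfl⟩ := MulAction.exists_smul_eq G x0 x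
    rw [th_one]
    have h3 := sum_coset x0 (1 : G) (fun g => χ g)
    simp only [one_smul, one_mul] at h3
    refine Eq.trans ?_ h3
    refine Fintype.sum_equiv (MulAut.conj k⁻¹).toEquiv _ _ fun g => ?_
    change _ = if (k⁻¹ * g * k⁻¹⁻¹) • x0 = x0 then χ (k⁻¹ * g * k⁻¹⁻¹) else 0
    rw [Irr.conj hχ, inv_inv, mul_smul, mul_smul, inv_smul_eq_iff]
  rw [Finset.sum_congr rfl (fun x _ => h2 x), Finset.sum_const, Finset.card_univ, nsmul_eq_mul]

end

end Pool.Agent.Helper606_CZ
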