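import Mathlib
import Pool.Agent.Helper606_CZ.K8

/-!
# The trichotomy for groups transitive on pairs
-/

set_option autoImplicit false

open scoped Classical

namespace Pool.Agent.Helper606_CZ

open Pool.Agent.Q11.CZ

variable {G : Type*} [Group G] [Fintype G] {c : G}
variable {X : Type*} [Fintype X] [MulAction G X]

/-- transitivity on the triples of pairs -/
def ThreeTrans (c : G) (X : Type*) [MulAction G X] : Prop :=
  ∀ x y z x' y' z' : X, Off c x y → Off c x z → Off c y z → Off c x' y' → Off c x' z' →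
    Off c y' z' → ∃ g : G, (g • x = x' ∨ g • x = c • x') ∧ (g • y = y' ∨ g • y = c • y') ∧
      (g • z = z' ∨ g • z = c • z')

section
variable (hc : ∀ g, c * g = g * c) (hc2 : c * c = 1)

include hc hc2

omit [Fintype G] [Fintype X] in
lemma off_smul (g : G) {x y : X} : Off c (g • x) (g • y) ↔ Off c x y := by
  unfold Off
  have h1 : c • g • x = g • c • x := by rw [← mul_smul, hc, mul_smul]
  rw [h1]
  simp only [ne_eq, (MulAction.injective g).eq_iff]

omit [Fintype G] [Fintype X] in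
/-- the two-graph of an odd invariant kernel -/
theorem exists_tg (h2 : TwoTrans c X) (f : X → X → ℚ) (hf : Inv G f)
    (h1 : ∀ x y, f x (c • y) = - f x y) (h1' : ∀ x y, f (c • x) y = - f x y) {x0 y0 : X}
    (h0 : Off c x0 y0) (hne : f x0 y0 ≠ 0) : ∃ (s : ℤ) (δ : Matrix X X ℤ), TG c s δ := by
  have hconst : ∀ x y, Off c x y → f x y ≠ 0 := by
    intro x y h hz
    have := const_off h2 (fun x y => f x y * f x y)
      (fun g x y => by simp only [hf g x y])
      (fun x y => by simp only [h1, neg_mul_neg])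
      (fun x y => by simp only [h1', neg_mul_neg]) h h0
    simp only [hz, mul_zero] at this
    exact mul_ne_zero hne hne this.symm
  have hoffself : ∀ x : X, ¬ Off c x x := fun x h => h.1 rfl
  set δ : Matrix X X ℤ :=
    Matrix.of (fun x y => if Off c x y then (if 0 < f x y then 1 else -1) else 0) with hδ
  have hinv : Inv G δ := by
    intro g x y
    simp only [hδ, Matrix.of_apply, off_smul hc hc2, hf g x y]
  have hodd : ∀ x y, δ x (c • y) = - δ x y := by
    intro x y
    simp only [hδ, Matrix.of_apply, off_c hc2, h1]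
    by_cases h : Off c x y
    · rw [if_pos h, if_pos h]
      rcases lt_trichotomy (f x y) 0 with h1 | h1 | h1
      · rw [if_pos (by linarith), if_neg (by linarith)]; norm_num
      · exact absurd h1 (hconst x y h)
      · rw [if_neg (by linarith), if_pos h1]
    · rw [if_neg h, if_neg h]; norm_num
  have hodd' : ∀ x y, δ (c • x) y = - δ x y := by
    intro x y
    simp only [hδ, Matrix.of_apply, off_c' hc2, h1']
    by_cases h : Off c x y
    · rw [if_pos h, if_pos h]
      rcases lt_trichotomy (f x y) 0 with h1 | h1 | h1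
      · rw [if_pos (by linarith), if_neg (by linarith)]; norm_num
      · exact absurd h1 (hconst x y h)
      · rw [if_neg (by linarith), if_pos h1]
    · rw [if_neg h, if_neg h]; norm_num
  have hself : ∀ x, δ x x = 0 := by
    intro x
    simp only [hδ, Matrix.of_apply, if_neg (hoffself x)]
  have hoff : ∀ x y, Off c x y → δ x y = 1 ∨ δ x y = -1 := by
    intro x y h
    simp only [hδ, Matrix.of_apply, if_pos h]
    split_ifs <;> simp
  have hs : δ x0 y0 * δ y0 x0 = 1 ∨ δ x0 y0 * δ y0 x0 = -1 := by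
    rcases hoff x0 y0 h0 with h | h <;> rcases hoff y0 x0 ((off_symm hc2).mp h0) with h' | h' <;>
      rw [h, h'] <;> norm_num
  refine ⟨δ x0 y0 * δ y0 x0, δ, hs, hinv, ?_, hodd, hself, hoff⟩
  intro x y
  by_cases h : Off c x y
  · have h3 : δ x y * δ y x = δ x0 y0 * δ y0 x0 := const_off h2 (fun x y => δ x y * δ y x)
      (fun g x y => by simp only [hinv g x y, hinv g y x])
      (fun x y => by simp only [hodd, hodd', neg_mul_neg])
      (fun x y => by simp only [hodd, hodd', neg_mul_neg]) h h0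
    rw [← h3]
    rcases hoff y x ((off_symm hc2).mp h) with h' | h' <;> rw [h'] <;> ring
  · have h' : ¬ Off c y x := fun h' => h ((off_symm hc2).mp h')
    have e1 : δ x y = 0 := if_neg h
    have e2 : δ y x = 0 := if_neg h'
    rw [e1, e2, mul_zero]

/-- if the kernel of `x` and `Φ` vanishes off the diagonal -/
lemma zinv_of_diag (hfree : ∀ x : X, c • x ≠ x) (ht : MulAction.IsPretransitive G X)
    {Φ : Finset X} (hΦ : IsHalf c Φ) (x : X) (h0 : ∀ u v, Off c u v → Nk G x Φ u v = 0) :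
    ZInv (a0 x Φ : G → ℚ) := by
  intro g g' hg
  have h1 : ∀ u v, Nk G x Φ u v = Nk G x Φ x x * ((io c u v : ℤ) : ℚ) := by
    intro u v
    have hd : Nk G x Φ u u = Nk G x Φ x x := by
      obtain ⟨g, rfl⟩ := MulAction.exists_smul_eq G x u
      exact nk_smul x Φ g x x
    by_cases h : Off c u v
    · rw [h0 u v h]
      unfold io
      rw [if_neg h.1, if_neg h.2]; norm_num
    · unfold Off at h
      rw [not_and_or, not_not, not_not] at h
      rcases h with h | h
      · rw [h, hd, io_self hfree]; norm_num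
      · rw [h, nk_c hc hΦ, hd, io_c hc2, io_self hfree]; norm_num
  have h3 : ∀ g : G, tr (Nk G x Φ) g =
      Nk G x Φ x x * ((tr (io c : X → X → ℤ) g : ℤ) : ℚ) := by
    intro g
    unfold tr
    push_cast
    rw [Finset.mul_sum]
    exact Finset.sum_congr rfl (fun u _ => h1 u _)
  rw [a0_formula, a0_formula, h3, h3, tr_io_zpowers hc hc2 hg]

/-- **The trichotomy.** -/
theorem main_group (ht : MulAction.IsPretransitive G X) (h2 : TwoTrans c X)
    (hn : 4 < Fintype.card X) :
    (∀ (x : X) (Φ : Finset X), IsHalf c Φ → ZInv (a0 x Φ : G → ℚ)) ∨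
      (∃ n : ℕ, Fintype.card X = 2 * n ∧ n % 4 = 2 ∧ ¬ IsSquare (n - 1) ∧ ¬ ThreeTrans c X ∧
        (∀ Φ : Finset X, IsHalf c Φ → ¬ Twist (T Φ : G → ℚ) ∧
          ∀ (x' : X) (Φ' : Finset X), IsHalf c Φ' →
            ∃ r : ℚ, ZInv (a0 x' Φ' - r • T Φ : G → ℚ)) ∧
        ∀ (x : X) (Φ : Finset X), IsHalf c Φ → ¬ Twist (a0 x Φ : G → ℚ) ∧
          ∀ (x' : X) (Φ' : Finset X), IsHalf c Φ' →
            ∃ r : ℚ, ZInv (a0 x' Φ' - r • a0 x Φ : G → ℚ)) ∨
      (∃ n : ℕ, Fintype.card X = 2 * n ∧ n % 4 = 0 ∧ ¬ ThreeTrans c X ∧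
        (∀ Φ : Finset X, IsHalf c Φ → ZInv (T Φ : G → ℚ)) ∧
        ∀ (x : X) (Φ : Finset X), IsHalf c Φ → ¬ Twist (a0 x Φ : G → ℚ) ∧
          ∀ (x' : X) (Φ' : Finset X), IsHalf c Φ' →
            ∃ r : ℚ, ZInv (a0 x' Φ' - r • a0 x Φ : G → ℚ)) := by
  by_cases hall : ∀ (x : X) (Φ : Finset X), IsHalf c Φ → ∀ u v, Off c u v → Nk G x Φ u v = 0
  · left
    intro x Φ hΦ
    have hfree : ∀ x : X, c • x ≠ x := by
      intro x hx
      have := hΦ x
      rw [hx] at this
      tauto
    exact zinv_of_diag hc hc2 hfree ht hΦ x (hall x Φ hΦ)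
  push Not at hall
  obtain ⟨w0, Φ0, hΦ0, u0, v0, h0, hne⟩ := hall
  have hfree : ∀ x : X, c • x ≠ x := by
    intro x hx
    have := hΦ0 x
    rw [hx] at this
    tauto
  set n := Φ0.card with hnd
  have hcard : Fintype.card X = 2 * n := card_half hc2 hΦ0
  have hcardΦ : ∀ Φ : Finset X, IsHalf c Φ → Φ.card = n := by
    intro Φ hΦ
    have := card_half hc2 hΦ
    omega
  have hn3 : 3 ≤ n := by omega
  obtain ⟨s, δ, hδ⟩ := exists_tg hc hc2 h2 (Nk G w0 Φ0) (fun g u v => nk_smul w0 Φ0 g u v)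
    (fun u v => nk_c hc hΦ0 w0 u v) (fun u v => nk_c' hc hc2 hΦ0 w0 u v) h0 hne
  -- the kernels
  have hN : ∀ (x : X) (Φ : Finset X), IsHalf c Φ → ∃ a b : ℚ,
      ∀ u v, Nk G x Φ u v = a * (io c u v : ℤ) + b * (δ u v : ℤ) := by
    intro x Φ hΦ
    exact span_kernel hδ hc hc2 hfree ht h2 (R := ℚ) (Nk G x Φ)
      (fun g u v => nk_smul x Φ g u v) (fun u v => nk_c hc hΦ x u v)
      (fun u v => nk_c' hc hc2 hΦ x u v)
  have hA : ∀ (x : X) (Φ : Finset X) (a b : ℚ),
      (∀ u v, Nk G x Φ u v = a * (io c u v : ℤ) + b * (δ u v : ℤ)) → ∀ g : G,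
      a0 x Φ g = 1 / 2 + (a * ((tr (io c : X → X → ℤ) g : ℤ) : ℚ) +
        b * ((tr (fun x y => δ x y) g : ℤ) : ℚ)) / (2 * Fintype.card G) := by
    intro x Φ a b hab g
    rw [a0_formula]
    congr 2
    unfold tr
    push_cast
    rw [Finset.mul_sum, Finset.mul_sum, ← Finset.sum_add_distrib]
    exact Finset.sum_congr rfl (fun u _ => hab u _)
  obtain ⟨β, hβ, hβs⟩ := sq_delta hδ hc hc2 hfree ht h2 hΦ0
  -- the negative statement, common to the two exceptional cases
  have hneg : ¬ IsSquare (s * ((n : ℤ) - 1)) → δ * δ = (s * (2 * (n : ℤ) - 2)) • II c X →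
      ∀ (f : G → ℚ) (C a b : ℚ), b ≠ 0 → (∀ g, f g = C +
        (a * ((tr (io c : X → X → ℤ) g : ℤ) : ℚ) + b * ((tr (fun x y => δ x y) g : ℤ) : ℚ))) →
        ¬ Twist f := by
    intro hns hsq f C a b hb hf htw
    have hcube : δ * δ * δ = (4 * (s * ((n : ℤ) - 1))) • δ := by
      rw [hsq, smul_mul_assoc, II_mul hc2 δ (fun x y => hδ.odd' x y), smul_smul]
      congr 1; ring
    obtain ⟨p, hp1, hp2, hp3⟩ := neg_of_cube (G := G) hδ.inv hns hcube (Nat.card G)
    have hcop : p.Coprime (Nat.card G) := by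
      rw [Nat.Prime.coprime_iff_not_dvd hp2]
      intro h
      have := Nat.le_of_dvd Nat.card_pos h
      omega
    have hz : ∀ g : G, tr (io c : X → X → ℤ) (g ^ p) = tr (io c : X → X → ℤ) g := by
      intro g
      apply tr_io_zpowers hc hc2
      have h4 : (orderOf g).Coprime p :=
        Nat.Coprime.coprime_dvd_left (orderOf_dvd_natCard g) (Nat.coprime_comm.mp hcop)
      obtain ⟨m, hm'⟩ := exists_pow_eq_self_of_coprime (Nat.coprime_comm.mp h4)
      apply le_antisymm
      · rw [Subgroup.zpowers_le]; exact Subgroup.npow_mem_zpowers g p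
      · rw [Subgroup.zpowers_le]
        have h7 := Subgroup.npow_mem_zpowers (g ^ p) m
        rwa [hm'] at h7
    refine not_inv hδ hc hc2 hfree ht h2 hcard hn3 hns hsq (fun g z hz' => ?_)
    have h5 := htw p hcop g z hz'
    rw [hf, hf, hf, hf, hz, hz, hp3, hp3] at h5
    push_cast at h5
    have h6 : b * (((tr (fun x y => δ x y) (g * z) : ℤ) : ℚ) -
        ((tr (fun x y => δ x y) g : ℤ) : ℚ)) = 0 := by
      linarith
    rcases mul_eq_zero.mp h6 with h | h
    · exact absurd h hb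
    · have : ((tr (fun x y => δ x y) (g * z) : ℤ) : ℚ) =
        ((tr (fun x y => δ x y) g : ℤ) : ℚ) := by linarith
      exact_mod_cast this
  -- one function gives all others
  have hone : ∀ (f : G → ℚ) (C a b : ℚ), b ≠ 0 → (∀ g, f g = C +
        (a * ((tr (io c : X → X → ℤ) g : ℤ) : ℚ) + b * ((tr (fun x y => δ x y) g : ℤ) : ℚ))) →
      ∀ (x' : X) (Φ' : Finset X), IsHalf c Φ' → ∃ r : ℚ, ZInv (a0 x' Φ' - r • f : G → ℚ) := by
    intro f C a b hb hf x' Φ' hΦ'
    obtain ⟨a', b', hab'⟩ := hN x' Φ' hΦ'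
    refine ⟨b' / (2 * Fintype.card G) / b, fun g g' hg => ?_⟩
    have hG := card_ne (G := G)
    rw [Pi.sub_apply, Pi.sub_apply, Pi.smul_apply, Pi.smul_apply, smul_eq_mul, smul_eq_mul,
      hA x' Φ' a' b' hab', hA x' Φ' a' b' hab', hf, hf, tr_io_zpowers hc hc2 hg]
    field_simp
    ring
  have hnega : ¬ IsSquare (s * ((n : ℤ) - 1)) → δ * δ = (s * (2 * (n : ℤ) - 2)) • II c X →
      n % 2 = 0 → ∀ (x : X) (Φ : Finset X), IsHalf c Φ → ¬ Twist (a0 x Φ : G → ℚ) ∧
        ∀ (x' : X) (Φ' : Finset X), IsHalf c Φ' →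
          ∃ r : ℚ, ZInv (a0 x' Φ' - r • a0 x Φ : G → ℚ) := by
    intro hns hsq hpar x Φ hΦ
    obtain ⟨a, b, hab⟩ := hN x Φ hΦ
    have hb : b ≠ 0 := by
      rintro rfl
      have h1 := nk_pair (G := G) hδ x Φ
      have h3 : ∑ u, ∑ v, Nk G x Φ u v * (δ u v : ℚ) = 0 := by
        refine Finset.sum_eq_zero (fun u _ => ?_)
        have e : ∑ v, Nk G x Φ u v * (δ u v : ℚ) = a * ((∑ v, io c u v * δ u v : ℤ) : ℚ) := by
          push_cast
          rw [Finset.mul_sum]
          refine Finset.sum_congr rfl (fun v _ => ?_)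
          rw [hab]; ring
        rw [e, sum_io hc2 u (fun y => δ u y) (fun y => hδ.odd u y), hδ.self]
        norm_num
      rw [h3] at h1
      have h4 := row_odd hδ hc2 hΦ (by rw [hcardΦ Φ hΦ]; exact hpar) x
      exact mul_ne_zero card_ne h4 h1.symm
    have hG := card_ne (G := G)
    have hform : ∀ g : G, a0 x Φ g = 1 / 2 + (a / (2 * Fintype.card G) *
        ((tr (io c : X → X → ℤ) g : ℤ) : ℚ) + b / (2 * Fintype.card G) *
        ((tr (fun x y => δ x y) g : ℤ) : ℚ)) := by
      intro g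
      rw [hA x Φ a b hab]
      ring
    exact ⟨hneg hns hsq (a0 x Φ) (1 / 2) (a / (2 * Fintype.card G)) (b / (2 * Fintype.card G))
      (div_ne_zero hb (by positivity)) hform,
      hone (a0 x Φ) (1 / 2) (a / (2 * Fintype.card G)) (b / (2 * Fintype.card G))
      (div_ne_zero hb (by positivity)) hform⟩
  -- the average kernels
  have hM : ∀ Φ : Finset X, IsHalf c Φ → ∃ m : ℚ,
      ∀ x y, Mk G Φ x y = (io c x y : ℤ) + m * (δ x y : ℤ) := by
    intro Φ hΦ
    obtain ⟨a, b, hab⟩ := span_kernel hδ hc hc2 hfree ht h2 (R := ℚ) (Mk G Φ)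
      (fun g x y => mk_smul Φ g x y) (fun x y => mk_c hc hΦ x y) (fun x y => mk_c' hc hΦ x y)
    refine ⟨b, fun x y => ?_⟩
    have h1 := hab u0 u0
    rw [mk_self, io_self hfree, hδ.self] at h1
    rw [hab x y]
    have h3 : a = 1 := by push_cast at h1; linarith
    rw [h3]; ring
  have hT : ∀ Φ : Finset X, IsHalf c Φ → ∀ m : ℚ,
      (∀ x y, Mk G Φ x y = (io c x y : ℤ) + m * (δ x y : ℤ)) → ∀ g : G,
      T Φ g = ((Fintype.card X : ℚ) + ((tr (io c : X → X → ℤ) g : ℤ) : ℚ) +
        m * ((tr (fun x y => δ x y) g : ℤ) : ℚ)) / 4 := by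
    intro Φ hΦ m hm g
    rw [T_formula hΦ, add_assoc]
    congr 2
    unfold tr
    push_cast
    rw [Finset.mul_sum, ← Finset.sum_add_distrib]
    exact Finset.sum_congr rfl (fun x _ => hm x _)
  rcases hδ.sign with hs | hs
  · -- symmetric case
    subst hs
    rw [one_mul] at hβ
    rcases disc hδ hc hc2 hfree (n := (n : ℤ)) (by omega) (by exact_mod_cast hcard) hβ with
      ⟨t, htt⟩ | ⟨-, hns, hsq⟩
    · left
      intro x Φ hΦ g g' hg
      obtain ⟨a, b, hab⟩ := hN x Φ hΦ
      rw [hA x Φ a b hab, hA x Φ a b hab, tr_io_zpowers hc hc2 hg,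
        zinv_rational hδ hc hc2 hfree (n := (n : ℤ)) (by omega) hβ htt hg]
    · right; left
      have hsq1 : δ * δ = ((1 : ℤ) * (2 * (n : ℤ) - 2)) • II c X := by rw [one_mul]; exact hsq
      have hns1 : ¬ IsSquare ((1 : ℤ) * ((n : ℤ) - 1)) := by rw [one_mul]; exact hns
      have hns' : ¬ IsSquare (n - 1) := by
        rintro ⟨r, hr⟩
        apply hns
        refine ⟨(r : ℤ), ?_⟩
        have : n = r * r + 1 := by omega
        rw [this]; push_cast; ring
      have hmod : n % 4 = 2 := by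
        have := conf_mod hδ hc hc2 hfree hcard hn3 hsq1
        omega
      refine ⟨n, hcard, hmod, hns', ?_, ?_, hnega hns1 hsq1 (by omega)⟩
      · intro h3
        exact not_three (G := G) hδ hc2 hfree hcard hn3 hsq1 h3
      · intro Φ hΦ
        obtain ⟨m, hm⟩ := hM Φ hΦ
        have hm0 : m ≠ 0 := mk_ne hδ hc hc2 hfree rfl hΦ (by rw [hcardΦ Φ hΦ]; exact hmod) hm
        have hform : ∀ g : G, T Φ g = (Fintype.card X : ℚ) / 4 + (1 / 4 *
            ((tr (io c : X → X → ℤ) g : ℤ) : ℚ) + m / 4 *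
            ((tr (fun x y => δ x y) g : ℤ) : ℚ)) := by
          intro g
          rw [hT Φ hΦ m hm]
          ring
        exact ⟨hneg hns1 hsq1 (T Φ) ((Fintype.card X : ℚ) / 4) (1 / 4) (m / 4)
          (div_ne_zero hm0 (by norm_num)) hform,
          hone (T Φ) ((Fintype.card X : ℚ) / 4) (1 / 4) (m / 4)
          (div_ne_zero hm0 (by norm_num)) hform⟩
  · -- skew case
    subst hs
    right; right
    have hsq : δ * δ = ((-1 : ℤ) * (2 * (n : ℤ) - 2)) • II c X := by
      rw [hβ, hβs rfl, ← hnd]; simp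
    have hns : ¬ IsSquare ((-1 : ℤ) * ((n : ℤ) - 1)) := by
      rintro ⟨r, hr⟩
      nlinarith [mul_self_nonneg r]
    have hmod : n % 4 = 0 := by
      have := conf_mod hδ hc hc2 hfree hcard hn3 hsq
      omega
    refine ⟨n, hcard, hmod, ?_, ?_, hnega hns hsq (by omega)⟩
    · intro h3
      exact not_three (G := G) hδ hc2 hfree hcard hn3 hsq h3
    · intro Φ hΦ g g' hg
      obtain ⟨m, hm⟩ := hM Φ hΦ
      have hm0 : m = 0 := by
        have h1 := hm u0 v0
        have h3 := hm v0 u0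
        have e1 : io c u0 v0 = 0 := by unfold io; rw [if_neg h0.1, if_neg h0.2]; norm_num
        have e2 : io c v0 u0 = 0 := by rw [io_symm hc2, e1]
        rw [e1] at h1
        rw [e2, mk_symm, h1, hδ.symm v0 u0] at h3
        push_cast at h3
        have h4 : m * ((δ u0 v0 : ℤ) : ℚ) = 0 := by linarith
        rcases mul_eq_zero.mp h4 with h | h
        · exact h
        · exfalso
          have h5 : δ u0 v0 = 0 := by exact_mod_cast h
          rcases hδ.off u0 v0 h0 with h' | h' <;> rw [h'] at h5 <;> norm_num at h5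
      rw [hT Φ hΦ m hm, hT Φ hΦ m hm, hm0, tr_io_zpowers hc hc2 hg]
      ring

end

end Pool.Agent.Helper606_CZ
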