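import Mathlib
import Pool.Agent.Helper606_CZ.K9
import Pool.Agent.Q11.CZ.Main

/-!
# Quadratic extensions of totally real fields
-/

set_option autoImplicit false

open scoped Classical

open NumberField

namespace Pool.Agent.Helper606_CZ

open Pool.Agent.Q11.CZ

variable {K : Type} [Field K] [NumberField K] {E : Type} [Field E] [NumberField E]
variable (F : IntermediateField ℚ E)

/-- the restriction of embeddings -/
def rs (ψ : E →ₐ[ℚ] K) : F →ₐ[ℚ] K := ψ.comp F.val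

lemma rs_apply (ψ : E →ₐ[ℚ] K) (x : F) : rs F ψ x = ψ x := rfl

lemma rs_smul (g : K ≃ₐ[ℚ] K) (ψ : E →ₐ[ℚ] K) : rs F (g • ψ) = g • rs F ψ := rfl

lemma real_fixed [IsCMField K] [IsTotallyReal F] (a : F →ₐ[ℚ] K) : conj K • a = a := by
  apply AlgHom.ext
  intro x
  obtain ⟨φ⟩ : Nonempty (K →+* ℂ) := inferInstance
  apply φ.injective
  change φ (conj K (a x)) = φ (a x)
  rw [emb_conj]
  have h := IsTotallyReal.complexEmbedding_isReal (K := F) (φ.comp (a : F →+* K))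
  rw [ComplexEmbedding.isReal_iff] at h
  have h1 := congrArg (fun f : F →+* ℂ => f x) h
  exact h1

lemma rs_conj [IsCMField K] [IsTotallyReal F] (ψ : E →ₐ[ℚ] K) : rs F (conj K • ψ) = rs F ψ := by
  rw [rs_smul, real_fixed]

/-- the embeddings with the same restriction -/
lemma rs_fiber [IsCMField K] [IsTotallyReal F] (hE : Module.finrank F E = 2) {ψ φ : E →ₐ[ℚ] K}
    (h : rs F φ = rs F ψ) (hfree : conj K • ψ ≠ ψ) : φ = ψ ∨ φ = conj K • ψ := by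
  by_contra hcon
  rw [not_or] at hcon
  letI : Algebra F K := (rs F ψ).toRingHom.toAlgebra
  have hmk : ∀ χ : E →ₐ[ℚ] K, rs F χ = rs F ψ →
      ∃ χ' : E →ₐ[F] K, ∀ x, χ' x = χ x := by
    intro χ hχ
    refine ⟨{ (χ : E →+* K) with commutes' := ?_ }, fun x => rfl⟩
    intro x
    exact congrArg (fun f : F →ₐ[ℚ] K => f x) hχ
  obtain ⟨ψ', hψ⟩ := hmk ψ rfl
  obtain ⟨φ', hφ⟩ := hmk φ h
  obtain ⟨c', hc'⟩ := hmk (conj K • ψ) (rs_conj F ψ)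
  have h1 := card_algHom_le_finrank F E K
  rw [hE, Nat.card_eq_fintype_card] at h1
  have h2 : ({ψ', c', φ'} : Finset (E →ₐ[F] K)).card = 3 := by
    rw [Finset.card_eq_three]
    refine ⟨ψ', c', φ', ?_, ?_, ?_, rfl⟩
    · intro e
      apply hfree
      apply AlgHom.ext
      intro x
      rw [← hψ, ← hc', e]
    · intro e
      apply hcon.1
      apply AlgHom.ext
      intro x
      rw [← hψ, ← hφ, e]
    · intro e
      apply hcon.2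
      apply AlgHom.ext
      intro x
      rw [← hc', ← hφ, e]
  have h3 := Finset.card_le_univ ({ψ', c', φ'} : Finset (E →ₐ[F] K))
  omega

lemma off_iff [IsCMField K] [IsTotallyReal F] (hE : Module.finrank F E = 2) {ψ φ : E →ₐ[ℚ] K}
    (hfree : conj K • ψ ≠ ψ) : Off (conj K) ψ φ ↔ rs F ψ ≠ rs F φ := by
  constructor
  · intro h e
    rcases rs_fiber F hE e.symm hfree with h1 | h1
    · exact h.1 h1
    · exact h.2 h1
  · intro h
    constructor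
    · rintro rfl; exact h rfl
    · rintro rfl; exact h (rs_conj F ψ).symm

/-- the number of embeddings -/
lemma card_emb [IsGalois ℚ K] (ψ : E →ₐ[ℚ] K) :
    Fintype.card (E →ₐ[ℚ] K) = Module.finrank ℚ E := by
  apply AlgHom.card_of_splits
  intro x
  rw [← minpoly.algHom_eq ψ ψ.injective x]
  exact Normal.splits inferInstance (ψ x)

lemma card_emb' [IsGalois ℚ K] (hE : Module.finrank F E = 2) (ψ : E →ₐ[ℚ] K) :
    Fintype.card (E →ₐ[ℚ] K) = 2 * Module.finrank ℚ F := by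
  rw [card_emb ψ, ← Module.finrank_mul_finrank ℚ F E, hE, mul_comm]

lemma rs_surj [IsGalois ℚ K] (ψ : E →ₐ[ℚ] K) (a : F →ₐ[ℚ] K) : ∃ φ : E →ₐ[ℚ] K, rs F φ = a := by
  obtain ⟨g, hg⟩ := exists_lift (rs F ψ) a
  exact ⟨g • ψ, hg⟩

/-- double transitivity -/
lemma two_trans [IsCMField K] [IsTotallyReal F] (hE : Module.finrank F E = 2)
    (hfree : ∀ ψ : E →ₐ[ℚ] K, conj K • ψ ≠ ψ)
    (h2 : ∀ a b a' b' : F →ₐ[ℚ] K, a ≠ b → a' ≠ b' → ∃ g : K ≃ₐ[ℚ] K, g • a = a' ∧ g • b = b') :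
    TwoTrans (conj K) (E →ₐ[ℚ] K) := by
  intro x y x' y' h h'
  rw [off_iff F hE (hfree _)] at h h'
  obtain ⟨g, hg1, hg2⟩ := h2 _ _ _ _ h h'
  rw [← rs_smul] at hg1 hg2
  exact ⟨g, rs_fiber F hE hg1 (hfree _), rs_fiber F hE hg2 (hfree _)⟩

/-- triple transitivity -/
lemma three_trans [IsCMField K] [IsTotallyReal F] (hE : Module.finrank F E = 2)
    (hfree : ∀ ψ : E →ₐ[ℚ] K, conj K • ψ ≠ ψ)
    (h3 : ∀ a b d a' b' d' : F →ₐ[ℚ] K, a ≠ b → a ≠ d → b ≠ d → a' ≠ b' → a' ≠ d' → b' ≠ d' →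
      ∃ g : K ≃ₐ[ℚ] K, g • a = a' ∧ g • b = b' ∧ g • d = d') :
    ThreeTrans (conj K) (E →ₐ[ℚ] K) := by
  intro x y z x' y' z' e1 e2 e3 e4 e5 e6
  rw [off_iff F hE (hfree _)] at e1 e2 e3 e4 e5 e6
  obtain ⟨g, hg1, hg2, hg3⟩ := h3 _ _ _ _ _ _ e1 e2 e3 e4 e5 e6
  rw [← rs_smul] at hg1 hg2 hg3
  exact ⟨g, rs_fiber F hE hg1 (hfree _), rs_fiber F hE hg2 (hfree _), rs_fiber F hE hg3 (hfree _)⟩

lemma a0_mem [IsGalois ℚ K] [IsCMField K] {Φ : Finset (E →ₐ[ℚ] K)} (hΦ : IsHalf (conj K) Φ)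
    (ψ : E →ₐ[ℚ] K) (h : ZInv (a0 ψ Φ : (K ≃ₐ[ℚ] K) → ℚ)) : a0 ψ Φ ∈ avgSpan K :=
  (mem_avgSpan_iff _).mpr ⟨a0_isClass ψ Φ, ⟨1, a0_add conj_comm ψ hΦ⟩, h⟩

lemma T_mem [IsGalois ℚ K] [IsCMField K] {Φ : Finset (E →ₐ[ℚ] K)} (hΦ : IsHalf (conj K) Φ)
    (h : ZInv (T Φ : (K ≃ₐ[ℚ] K) → ℚ)) : T Φ ∈ avgSpan K :=
  (mem_avgSpan_iff _).mpr ⟨T_isClass Φ, ⟨Φ.card, T_add conj_comm hΦ⟩, h⟩

lemma T_mem' [IsGalois ℚ K] [IsCMField K] {Φ : Finset (E →ₐ[ℚ] K)}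
    (h : ∀ ψ, a0 ψ Φ ∈ avgSpan K) : T Φ ∈ avgSpan K := by
  have : T Φ = ∑ ψ ∈ Φ, (a0 ψ Φ : (K ≃ₐ[ℚ] K) → ℚ) := by
    funext g
    rw [Finset.sum_apply]
    rfl
  rw [this]
  exact Submodule.sum_mem _ (fun ψ _ => h ψ)

/-- functions in the span of `avgSpan` and another function -/
lemma gen_mem [IsGalois ℚ K] [IsCMField K] {f f' : (K ≃ₐ[ℚ] K) → ℚ} (hf : IsClass f)
    (hs : ∃ s : ℚ, ∀ g, f g + f (conj K * g) = s) (hf' : IsClass f')
    (hs' : ∃ s : ℚ, ∀ g, f' g + f' (conj K * g) = s) {r : ℚ} (hz : ZInv (f' - r • f)) :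
    f' ∈ avgSpan K ⊔ Submodule.span ℚ {f} := by
  have e : f' = (f' - r • f) + r • f := by rw [sub_add_cancel]
  rw [e]
  refine Submodule.add_mem _ (Submodule.mem_sup_left ?_)
    (Submodule.mem_sup_right (Submodule.smul_mem _ _ (Submodule.mem_span_singleton_self f)))
  refine (mem_avgSpan_iff _).mpr ⟨fun g h => ?_, ?_, hz⟩
  · simp only [Pi.sub_apply, Pi.smul_apply, hf g h, hf' g h]
  · obtain ⟨s, hs⟩ := hs
    obtain ⟨s', hs'⟩ := hs'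
    refine ⟨s' - r * s, fun g => ?_⟩
    simp only [Pi.sub_apply, Pi.smul_apply, smul_eq_mul]
    linear_combination hs' g - r * hs g

lemma not_mem [IsGalois ℚ K] [IsCMField K] {f : (K ≃ₐ[ℚ] K) → ℚ} (h : ¬ Twist f) :
    f ∉ avgSpan K ⊔ abSpan K := fun hf => h ((mem_sup_iff f).mp hf).2.2

end Pool.Agent.Helper606_CZ
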