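import Mathlib
import Pool.Agent.Helper606_CZ.K10

/-!
# Distinct conjugate quadratic extensions
-/

set_option autoImplicit false

open scoped Classical

open NumberField

namespace Pool.Agent.Helper606_CZ

open Pool.Agent.Q11.CZ

variable {K : Type} [Field K] [NumberField K] {E : Type} [Field E] [NumberField E]
variable (F : IntermediateField ℚ E)

/-- the fixing subgroup of `ψ(E) F^c` -/
def Nn (ψ : E →ₐ[ℚ] K) : Subgroup (K ≃ₐ[ℚ] K) :=
  MulAction.stabilizer (K ≃ₐ[ℚ] K) ψ ⊓ ⨅ a : F →ₐ[ℚ] K, MulAction.stabilizer (K ≃ₐ[ℚ] K) a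

lemma mem_Nn (ψ : E →ₐ[ℚ] K) (g : K ≃ₐ[ℚ] K) :
    g ∈ Nn F ψ ↔ g • ψ = ψ ∧ ∀ a : F →ₐ[ℚ] K, g • a = a := by
  unfold Nn
  rw [Subgroup.mem_inf, Subgroup.mem_iInf]
  rfl

lemma mem_Nn_smul (k : K ≃ₐ[ℚ] K) (ψ : E →ₐ[ℚ] K) (g : K ≃ₐ[ℚ] K) :
    g ∈ Nn F (k • ψ) ↔ k⁻¹ * g * k ∈ Nn F ψ := by
  rw [mem_Nn, mem_Nn]
  constructor
  · rintro ⟨h1, h2⟩
    refine ⟨?_, fun a => ?_⟩
    · rw [mul_smul, mul_smul, h1, inv_smul_smul]
    · rw [mul_smul, mul_smul, h2, inv_smul_smul]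
  · rintro ⟨h1, h2⟩
    refine ⟨?_, fun a => ?_⟩
    · rw [mul_smul, mul_smul, inv_smul_eq_iff] at h1
      exact h1
    · have h3 := h2 (k⁻¹ • a)
      rw [mul_smul, mul_smul, inv_smul_eq_iff, smul_inv_smul] at h3
      exact h3

lemma card_Nn (k : K ≃ₐ[ℚ] K) (ψ : E →ₐ[ℚ] K) :
    Nat.card (Nn F (k • ψ)) = Nat.card (Nn F ψ) := by
  refine Nat.card_congr ⟨fun g => ⟨k⁻¹ * g * k, (mem_Nn_smul F k ψ g).mp g.2⟩,
    fun g => ⟨k * g * k⁻¹, (mem_Nn_smul F k ψ _).mpr (by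
      have := g.2
      have e : k⁻¹ * (k * (g : K ≃ₐ[ℚ] K) * k⁻¹) * k = g := by group
      rw [e]; exact this)⟩, ?_, ?_⟩
  · intro g
    apply Subtype.ext
    change k * (k⁻¹ * (g : K ≃ₐ[ℚ] K) * k) * k⁻¹ = g
    group
  · intro g
    apply Subtype.ext
    change k⁻¹ * (k * (g : K ≃ₐ[ℚ] K) * k⁻¹) * k = g
    group

lemma Nn_conj [IsCMField K] (ψ : E →ₐ[ℚ] K) : Nn F (conj K • ψ) = Nn F ψ := by
  ext g
  rw [mem_Nn_smul]
  have : (conj K)⁻¹ * g * conj K = g := by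
    rw [mul_assoc, ← conj_comm, inv_mul_cancel_left]
  rw [this]

/-- if the quadratic extensions are different -/
lemma exists_sep [IsGalois ℚ K] [IsCMField K] [IsTotallyReal F] (hE : Module.finrank F E = 2)
    (hfree : ∀ ψ : E →ₐ[ℚ] K, conj K • ψ ≠ ψ) {ψ φ : E →ₐ[ℚ] K} (h : Nn F ψ ≠ Nn F φ) :
    ∃ g : K ≃ₐ[ℚ] K, g • ψ = ψ ∧ g • φ = conj K • φ := by
  have hle : ¬ Nn F ψ ≤ Nn F φ := by
    intro hle
    apply h
    refine Subgroup.eq_of_le_of_card_ge hle ?_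
    obtain ⟨k, hk⟩ := exists_lift ψ φ
    rw [← hk, card_Nn]
  obtain ⟨g, hg1, hg2⟩ := SetLike.not_le_iff_exists.mp hle
  rw [mem_Nn] at hg1 hg2
  refine ⟨g, hg1.1, ?_⟩
  rcases rs_fiber F hE (ψ := φ) (φ := g • φ) (by rw [rs_smul, hg1.2]) (hfree φ) with h1 | h1
  · exact absurd ⟨h1, hg1.2⟩ hg2
  · exact h1

/-- the first alternative -/
lemma zinv_of_sep [IsGalois ℚ K] [IsCMField K] [IsTotallyReal F] (hE : Module.finrank F E = 2)
    (hfree : ∀ ψ : E →ₐ[ℚ] K, conj K • ψ ≠ ψ)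
    (h : ∀ ψ φ : E →ₐ[ℚ] K, rs F ψ ≠ rs F φ → Nn F ψ ≠ Nn F φ) {Φ : Finset (E →ₐ[ℚ] K)}
    (hΦ : IsHalf (conj K) Φ) (ψ : E →ₐ[ℚ] K) : ZInv (a0 ψ Φ : (K ≃ₐ[ℚ] K) → ℚ) := by
  refine zinv_of_diag conj_comm conj_mul_self hfree inferInstance hΦ ψ (fun u v huv => ?_)
  rw [off_iff F hE (hfree _)] at huv
  obtain ⟨g, hg1, hg2⟩ := exists_sep F hE hfree (h u v huv)
  have h1 := nk_smul (G := K ≃ₐ[ℚ] K) ψ Φ g u v
  rw [hg1, hg2, nk_c conj_comm hΦ] at h1
  linarith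

/-- in the first alternative the functions `A_Φ` do not depend on the CM type -/
lemma T_of_sep [IsGalois ℚ K] [IsCMField K] [IsTotallyReal F] (hE : Module.finrank F E = 2)
    (hfree : ∀ ψ : E →ₐ[ℚ] K, conj K • ψ ≠ ψ)
    (h : ∀ ψ φ : E →ₐ[ℚ] K, rs F ψ ≠ rs F φ → Nn F ψ ≠ Nn F φ) {Φ Φ' : Finset (E →ₐ[ℚ] K)}
    (hΦ : IsHalf (conj K) Φ) (hΦ' : IsHalf (conj K) Φ') :
    (T Φ : (K ≃ₐ[ℚ] K) → ℚ) = T Φ' := by
  have key : ∀ Φ : Finset (E →ₐ[ℚ] K), IsHalf (conj K) Φ → ∀ u v,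
      Mk (K ≃ₐ[ℚ] K) Φ u v = ((io (conj K) u v : ℤ) : ℚ) := by
    intro Φ hΦ u v
    by_cases huv : Off (conj K) u v
    · have e : io (conj K) u v = 0 := by unfold io; rw [if_neg huv.1, if_neg huv.2]; norm_num
      rw [e]
      rw [off_iff F hE (hfree _)] at huv
      obtain ⟨g, hg1, hg2⟩ := exists_sep F hE hfree (h u v huv)
      have h1 := mk_smul (G := K ≃ₐ[ℚ] K) Φ g u v
      rw [hg1, hg2, mk_c conj_comm hΦ] at h1
      push_cast
      linarith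
    · unfold Off at huv
      rw [not_and_or, not_not, not_not] at huv
      rcases huv with huv | huv
      · rw [huv, mk_self, io_self hfree]; norm_num
      · rw [huv, mk_c conj_comm hΦ, mk_self, io_c conj_mul_self, io_self hfree]; norm_num
  funext g
  rw [T_formula hΦ, T_formula hΦ']
  congr 2
  unfold tr
  exact Finset.sum_congr rfl (fun u _ => by rw [key Φ hΦ, key Φ' hΦ'])

/-- the second alternative -/
lemma exists_sub [IsGalois ℚ K] [IsCMField K] [IsTotallyReal F] (hE : Module.finrank F E = 2)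
    (hfree : ∀ ψ : E →ₐ[ℚ] K, conj K • ψ ≠ ψ) {u0 v0 : E →ₐ[ℚ] K} (h0 : rs F u0 ≠ rs F v0)
    (hN : Nn F u0 = Nn F v0) : ∃ L : IntermediateField ℚ F, L ≠ ⊤ ∧
      ∀ ψ φ : E →ₐ[ℚ] K, (∀ x ∈ L, ψ x = φ x) → Nn F ψ = Nn F φ := by
  -- the stabilizer of the extension of `u0`
  let H : Subgroup (K ≃ₐ[ℚ] K) :=
    { carrier := {g | Nn F (g • u0) = Nn F u0}
      one_mem' := by simp
      mul_mem' := by
        intro g h hg hh
        simp only [Set.mem_ofPred_eq] at hg hh ⊢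
        ext x
        rw [mul_smul, mem_Nn_smul, hh, ← mem_Nn_smul, hg]
      inv_mem' := by
        intro g hg
        simp only [Set.mem_ofPred_eq] at hg ⊢
        ext x
        rw [mem_Nn_smul]
        nth_rw 1 [← hg]
        rw [mem_Nn_smul]
        simp only [inv_inv]
        have : g⁻¹ * (g * x * g⁻¹) * g = x := by group
        rw [this] }
  have hH : ∀ g, g ∈ H ↔ Nn F (g • u0) = Nn F u0 := fun g => Iff.rfl
  have hstab : ∀ g : K ≃ₐ[ℚ] K, g • rs F u0 = rs F u0 → g ∈ H := by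
    intro g hg
    rw [hH]
    rcases rs_fiber F hE (ψ := u0) (φ := g • u0) (by rw [rs_smul, hg]) (hfree u0) with h1 | h1
    · rw [h1]
    · rw [h1, Nn_conj]
  set L0 : IntermediateField ℚ K := IntermediateField.fixedField H with hL0
  have hL0le : ∀ y ∈ L0, ∃ x : F, rs F u0 x = y := by
    intro y hy
    have h1 : y ∈ (rs F u0).fieldRange := by
      rw [← IsGalois.fixedField_fixingSubgroup (rs F u0).fieldRange]
      rw [IntermediateField.mem_fixedField_iff]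
      intro g hg
      rw [hL0, IntermediateField.mem_fixedField_iff] at hy
      apply hy
      apply hstab
      apply AlgHom.ext
      intro x
      rw [IntermediateField.mem_fixingSubgroup_iff] at hg
      exact hg _ ⟨x, rfl⟩
    exact h1
  refine ⟨L0.comap (rs F u0), ?_, ?_⟩
  · intro htop
    apply h0
    apply AlgHom.ext
    intro x
    obtain ⟨g, hg⟩ := exists_lift u0 v0
    have hgH : g ∈ H := by rw [hH, hg, hN]
    have hx : x ∈ L0.comap (rs F u0) := by rw [htop]; trivial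
    have hx' : rs F u0 x ∈ L0 := hx
    rw [hL0, IntermediateField.mem_fixedField_iff] at hx'
    have h1 := hx' g hgH
    rw [← h1, ← hg]
    rfl
  · intro ψ φ hψφ
    obtain ⟨k, hk⟩ := exists_lift u0 ψ
    obtain ⟨k', hk'⟩ := exists_lift u0 φ
    have hg : k⁻¹ * k' ∈ H := by
      rw [← IntermediateField.fixingSubgroup_fixedField H, IntermediateField.mem_fixingSubgroup_iff]
      intro y hy
      obtain ⟨x, rfl⟩ := hL0le y hy
      have hx : x ∈ L0.comap (rs F u0) := hy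
      have h1 := hψφ x hx
      rw [← hk, ← hk'] at h1
      have h2 : k (u0 x) = k' (u0 x) := h1
      change k⁻¹ (k' (u0 x)) = u0 x
      rw [← h2]
      exact AlgEquiv.symm_apply_apply k (u0 x)
    rw [hH] at hg
    rw [← hk, ← hk']
    have e : k' • u0 = k • ((k⁻¹ * k') • u0) := by rw [← mul_smul, mul_inv_cancel_left]
    ext x
    rw [e, mem_Nn_smul, mem_Nn_smul, hg]

/-- the compositum of the conjugates -/
noncomputable def clos (L K : Type) [Field L] [Algebra ℚ L] [Field K] [NumberField K] :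
    IntermediateField ℚ K := ⨆ a : L →ₐ[ℚ] K, a.fieldRange

lemma fix_range {L : Type} [Field L] [Algebra ℚ L] (a : L →ₐ[ℚ] K) (g : K ≃ₐ[ℚ] K) :
    g ∈ a.fieldRange.fixingSubgroup ↔ g • a = a := by
  rw [IntermediateField.mem_fixingSubgroup_iff]
  constructor
  · intro h
    apply AlgHom.ext
    intro x
    exact h _ ⟨x, rfl⟩
  · rintro h _ ⟨x, rfl⟩
    exact congrArg (fun f : L →ₐ[ℚ] K => f x) h

lemma fixing_sup (A B : IntermediateField ℚ K) (g : K ≃ₐ[ℚ] K) :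
    g ∈ (A ⊔ B).fixingSubgroup ↔ g ∈ A.fixingSubgroup ∧ g ∈ B.fixingSubgroup := by
  rw [← Subgroup.zpowers_le, ← Subgroup.zpowers_le, ← Subgroup.zpowers_le,
    ← IntermediateField.le_iff_le, ← IntermediateField.le_iff_le, ← IntermediateField.le_iff_le,
    sup_le_iff]

lemma fixing_iSup {ι : Type} (A : ι → IntermediateField ℚ K) (g : K ≃ₐ[ℚ] K) :
    g ∈ (⨆ i, A i).fixingSubgroup ↔ ∀ i, g ∈ (A i).fixingSubgroup := by
  rw [← Subgroup.zpowers_le, ← IntermediateField.le_iff_le, iSup_le_iff]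
  refine forall_congr' (fun i => ?_)
  rw [← Subgroup.zpowers_le, ← IntermediateField.le_iff_le]

lemma fixing_eq (ψ : E →ₐ[ℚ] K) : (ψ.fieldRange ⊔ clos F K).fixingSubgroup = Nn F ψ := by
  ext g
  rw [fixing_sup, mem_Nn, fix_range]
  unfold clos
  rw [fixing_iSup]
  simp only [fix_range]

lemma Nn_iff [IsGalois ℚ K] (ψ φ : E →ₐ[ℚ] K) :
    Nn F ψ = Nn F φ ↔ ψ.fieldRange ⊔ clos F K = φ.fieldRange ⊔ clos F K := by
  rw [← fixing_eq, ← fixing_eq]
  constructor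
  · intro h
    rw [← IsGalois.fixedField_fixingSubgroup (ψ.fieldRange ⊔ clos F K), h,
      IsGalois.fixedField_fixingSubgroup]
  · intro h
    rw [h]

end Pool.Agent.Helper606_CZ
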